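import Mathlib

set_option autoImplicit false

namespace Pool.Agent.SNum

open Polynomial Finset

variable {A : Type*} [CommRing A]

/-- The degree in the inner variable of a bivariate polynomial. -/
noncomputable def zdeg (R : A[X][X]) : ℕ := R.support.sup fun i => (R.coeff i).natDegree

theorem natDegree_coeff_le_zdeg (R : A[X][X]) (i : ℕ) : (R.coeff i).natDegree ≤ zdeg R := by
  by_cases h : i ∈ R.support
  · exact Finset.le_sup (f := fun i => (R.coeff i).natDegree) h
  · simp [Polynomial.notMem_support_iff.mp h]

theorem zdeg_le {R : A[X][X]} {N : ℕ} (h : ∀ i, (R.coeff i).natDegree ≤ N) : zdeg R ≤ N :=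
  Finset.sup_le fun i _ => h i

theorem coeff_coeff_swap (R : A[X][X]) (i j : ℕ) :
    ((Bivariate.swap R).coeff j).coeff i = (R.coeff i).coeff j := by
  induction R using Polynomial.induction_on' with
  | add p q hp hq => simp [hp, hq]
  | monomial n a =>
    induction a using Polynomial.induction_on' with
    | add p q hp hq => 
      rw [map_add, map_add]
      simp only [coeff_add, hp, hq]
    | monomial m r =>
      rw [Bivariate.swap_monomial_monomial]
      simp only [coeff_monomial]
      split_ifs <;> simp_all [coeff_monomial]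

theorem natDegree_swap (R : A[X][X]) : (Bivariate.swap R).natDegree = zdeg R := by
  apply le_antisymm
  · rw [natDegree_le_iff_coeff_eq_zero]
    intro j hj
    ext i
    rw [coeff_coeff_swap, coeff_zero]
    exact coeff_eq_zero_of_natDegree_lt ((natDegree_coeff_le_zdeg R i).trans_lt hj)
  · apply zdeg_le
    intro i
    rw [natDegree_le_iff_coeff_eq_zero]
    intro j hj
    rw [← coeff_coeff_swap, coeff_eq_zero_of_natDegree_lt hj, coeff_zero]

theorem zdeg_mul [IsDomain A] {P Q : A[X][X]} (hP : P ≠ 0) (hQ : Q ≠ 0) :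
    zdeg (P * Q) = zdeg P + zdeg Q := by
  rw [← natDegree_swap, ← natDegree_swap, ← natDegree_swap, map_mul, natDegree_mul]
  · exact (map_ne_zero_iff _ (Bivariate.swap (R := A)).injective).mpr hP
  · exact (map_ne_zero_iff _ (Bivariate.swap (R := A)).injective).mpr hQ

theorem zdeg_C (p : A[X]) : zdeg (C p) = p.natDegree := by
  apply le_antisymm
  · apply zdeg_le
    intro i
    rw [coeff_C]
    split_ifs <;> simp
  · simpa using natDegree_coeff_le_zdeg (C p) 0

theorem zdeg_neg (R : A[X][X]) : zdeg (-R) = zdeg R := by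
  rw [← natDegree_swap, ← natDegree_swap, map_neg, natDegree_neg]

theorem zdeg_sub_le (P Q : A[X][X]) : zdeg (P - Q) ≤ max (zdeg P) (zdeg Q) := by
  apply zdeg_le
  intro i
  rw [coeff_sub]
  refine (natDegree_sub_le _ _).trans ?_
  exact max_le_max (natDegree_coeff_le_zdeg _ _) (natDegree_coeff_le_zdeg _ _)

theorem zdeg_C_mul_le (p : A[X]) (R : A[X][X]) : zdeg (C p * R) ≤ p.natDegree + zdeg R := by
  apply zdeg_le
  intro i
  rw [coeff_C_mul]
  refine natDegree_mul_le.trans ?_
  exact Nat.add_le_add_left (natDegree_coeff_le_zdeg _ _) _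

theorem natDegree_det_le {ι : Type*} [Fintype ι] [DecidableEq ι] (M : Matrix ι ι A[X]) (h : ι → ℕ)
    (hM : ∀ i j, (M i j).natDegree ≤ h j) : M.det.natDegree ≤ ∑ j, h j := by
  rw [Matrix.det_apply]
  apply natDegree_sum_le_of_forall_le
  intro σ _
  have h1 : (∏ i, M (σ i) i).natDegree ≤ ∑ j, h j := by
    refine (natDegree_prod_le _ _).trans ?_
    exact Finset.sum_le_sum fun i _ => hM _ _
  rcases Int.units_eq_one_or (Equiv.Perm.sign σ) with hs | hs
  · rw [hs, one_smul]; exact h1
  · rw [hs, Units.neg_smul, one_smul, natDegree_neg]; exact h1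

theorem natDegree_resultant_le (f g : A[X][X]) (m n : ℕ) :
    (resultant f g m n).natDegree ≤ m * zdeg g + n * zdeg f := by
  rw [resultant]
  refine (natDegree_det_le _ (fun j => Fin.addCases (fun _ => zdeg g) (fun _ => zdeg f) j) ?_).trans ?_
  · intro i j
    refine Fin.addCases (fun j => ?_) (fun j => ?_) j
    · simp only [Fin.addCases_left, sylvester, Matrix.of_apply]
      split_ifs
      · exact natDegree_coeff_le_zdeg _ _
      · simp
    · simp only [Fin.addCases_right, sylvester, Matrix.of_apply]
      split_ifs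
      · exact natDegree_coeff_le_zdeg _ _
      · simp
  · rw [Fin.sum_univ_add]
    simp

end Pool.Agent.SNum
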