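import Mathlib
import Pool.Agent.SNum.ZDeg

set_option autoImplicit false

namespace Pool.Agent.SNum

open Polynomial Finset

variable {A : Type*} [CommRing A] [IsDomain A] [UniqueFactorizationMonoid A]

theorem dvd_of_resultant_eq_zero {R E : A[X][X]} (hR : Irreducible R) (hs : R.natDegree ≠ 0)
    (h : resultant R E = 0) : R ∣ E := by
  have hprim : R.IsPrimitive := hR.isPrimitive hs
  set K := FractionRing A[X]
  have hinj : Function.Injective (algebraMap A[X] K) := IsFractionRing.injective _ _
  have h1 : resultant (R.map (algebraMap A[X] K)) (E.map (algebraMap A[X] K)) = 0 := by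
    rw [natDegree_map_eq_of_injective hinj, natDegree_map_eq_of_injective hinj,
      resultant_map_map, h, map_zero]
  rw [resultant_eq_zero_iff] at h1
  have hirr : Irreducible (R.map (algebraMap A[X] K)) :=
    hprim.irreducible_iff_irreducible_map_fraction_map.mp hR
  have h2 : R.map (algebraMap A[X] K) ∣ E.map (algebraMap A[X] K) := by
    by_contra hcon
    exact h1.2 (hirr.coprime_iff_not_dvd.mpr hcon)
  exact (hprim.dvd_iff_fraction_map_dvd_fraction_map K).mpr h2

theorem key_dvd {R E : A[X][X]} (hR : Irreducible R) (hs : R.natDegree ≠ 0) {F : A[X]} {m : ℕ}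
    (hRF : X ^ m ∣ R.eval F) (hEF : X ^ m ∣ E.eval F)
    (hb : R.natDegree * zdeg E + E.natDegree * zdeg R < m) : R ∣ E := by
  apply dvd_of_resultant_eq_zero hR hs
  obtain ⟨p, q, _, _, hpq⟩ := exists_mul_add_mul_eq_C_resultant R E le_rfl le_rfl (Or.inl hs)
  have h1 : X ^ m ∣ resultant R E := by
    have h2 := congrArg (eval F) hpq
    rw [eval_add, eval_mul, eval_mul, eval_C] at h2
    rw [← h2]
    exact dvd_add (Dvd.dvd.mul_right hRF _) (Dvd.dvd.mul_right hEF _)
  by_contra hne
  have h3 := natDegree_le_of_dvd h1 hne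
  rw [natDegree_X_pow] at h3
  have h4 := natDegree_resultant_le R E R.natDegree E.natDegree
  omega

end Pool.Agent.SNum
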