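import Mathlib
import Pool.Agent.SNum.ZDeg
import Pool.Agent.SNum.Irr

set_option autoImplicit false

namespace Pool.Agent.SNum

open Polynomial Finset

section
variable {k A : Type*} [CommRing k] [CommRing A] [Algebra k A]

/-- Coefficientwise extension of a derivation. -/
noncomputable def Dx (D : Derivation k A A) : Derivation k A[X] A[X] :=
  PolynomialModule.equivPolynomialSelf.compDer D.mapCoeffs

theorem coeff_Dx (D : Derivation k A A) (p : A[X]) (i : ℕ) : (Dx D p).coeff i = D (p.coeff i) := rfl

theorem eval_Dx (D : Derivation k A A) (x : A) (p : A[X]) :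
    D (p.eval x) = (Dx D p).eval x + (derivative p).eval x * D x := by
  induction p using Polynomial.induction_on' with
  | add p q hp hq =>
    simp only [eval_add, map_add, hp, hq]; ring
  | monomial n a =>
    have h1 : Dx D (monomial n a) = monomial n (D a) := by
      ext i
      rw [coeff_Dx, coeff_monomial, coeff_monomial]
      split_ifs <;> simp
    rw [h1, eval_monomial, eval_monomial, derivative_monomial, eval_monomial, Derivation.leibniz,
      Derivation.leibniz_pow]
    simp only [smul_eq_mul, nsmul_eq_mul]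
    ring

theorem X_pow_dvd_Dx (D : Derivation k A A) {p : A[X]} {m : ℕ} (h : X ^ m ∣ p) :
    X ^ m ∣ Dx D p := by
  rw [X_pow_dvd_iff] at h ⊢
  intro d hd
  rw [coeff_Dx, h d hd, map_zero]

theorem natDegree_Dx_le (D : Derivation k A A) (p : A[X]) : (Dx D p).natDegree ≤ p.natDegree := by
  rw [natDegree_le_iff_coeff_eq_zero]
  intro j hj
  rw [coeff_Dx, coeff_eq_zero_of_natDegree_lt hj, map_zero]

theorem zdeg_Dx_le (D : Derivation k A A) (R : A[X][X]) : zdeg (Dx (Dx D) R) ≤ zdeg R := by
  apply zdeg_le
  intro i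
  rw [coeff_Dx]
  exact (natDegree_Dx_le D _).trans (natDegree_coeff_le_zdeg _ _)

/-- The chain rule along `y = F(z)`. -/
theorem chain (D : Derivation k A A) (R : A[X][X]) (F : A[X]) :
    Dx D (R.eval F) = (Dx (Dx D) R).eval F + (derivative R).eval F * Dx D F :=
  eval_Dx (Dx D) F R

end

variable {k A : Type*} [CommRing k] [CommRing A] [Algebra k A] [IsDomain A]
  [UniqueFactorizationMonoid A] [CharZero A]

theorem irr_bound {F : A[X]} (D₁ D₂ : Derivation k A A) (i j : ℕ) (h₁ : Dx D₁ F = X ^ i)
    (h₂ : Dx D₂ F = X ^ (i + j)) {R : A[X][X]} (hR : Irreducible R) (hs : R.natDegree ≠ 0)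
    (hj : 2 * zdeg R < j) {m : ℕ} (hm : X ^ m ∣ R.eval F) :
    m ≤ max (R.natDegree * (2 * zdeg R + j)) (2 * R.natDegree * zdeg R + i) := by
  by_contra hcon
  push Not at hcon
  rw [max_lt_iff] at hcon
  obtain ⟨hc1, hc2⟩ := hcon
  set s := R.natDegree with hsdef
  set N := zdeg R with hN
  set T₁ := Dx (Dx D₁) R with hT₁
  set T₂ := Dx (Dx D₂) R with hT₂
  have c1 : X ^ m ∣ T₁.eval F + (derivative R).eval F * X ^ i := by
    have := X_pow_dvd_Dx D₁ hm
    rwa [chain, h₁] at this
  have c2 : X ^ m ∣ T₂.eval F + (derivative R).eval F * X ^ (i + j) := by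
    have := X_pow_dvd_Dx D₂ hm
    rwa [chain, h₂] at this
  have hT₁z : zdeg T₁ ≤ N := zdeg_Dx_le D₁ R
  have hT₂z : zdeg T₂ ≤ N := zdeg_Dx_le D₂ R
  have hT₁s : T₁.natDegree ≤ s := natDegree_Dx_le (Dx D₁) R
  have hT₂s : T₂.natDegree ≤ s := natDegree_Dx_le (Dx D₂) R
  set E : A[X][X] := T₂ - C (X ^ j) * T₁ with hE
  have hEF : X ^ m ∣ E.eval F := by
    have h3 : E.eval F = (T₂.eval F + (derivative R).eval F * X ^ (i + j)) -
        X ^ j * (T₁.eval F + (derivative R).eval F * X ^ i) := by
      rw [hE, eval_sub, eval_mul, eval_C]; ring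
    rw [h3]
    exact dvd_sub c2 (Dvd.dvd.mul_left c1 _)
  have hEz : zdeg E ≤ N + j := by
    refine (zdeg_sub_le _ _).trans (max_le (by omega) ?_)
    refine (zdeg_C_mul_le _ _).trans ?_
    rw [natDegree_X_pow]; omega
  have hEs : E.natDegree ≤ s := by
    refine (natDegree_sub_le _ _).trans (max_le hT₂s ?_)
    exact (natDegree_C_mul_le _ _).trans hT₁s
  have hdvd : R ∣ E := by
    apply key_dvd hR hs hm hEF
    change s * zdeg E + E.natDegree * N < m
    have e1 : s * zdeg E ≤ s * (N + j) := Nat.mul_le_mul_left _ hEz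
    have e2 : E.natDegree * N ≤ s * N := Nat.mul_le_mul_right _ hEs
    have e3 : s * (2 * N + j) = s * (N + j) + s * N := by ring
    omega
  obtain ⟨q, hq⟩ := hdvd
  have hR0 : R ≠ 0 := hR.ne_zero
  -- q is constant in y
  have hqdeg : q.natDegree = 0 := by
    by_cases hq0 : q = 0
    · simp [hq0]
    · have := congrArg natDegree hq
      rw [natDegree_mul hR0 hq0] at this
      omega
  obtain ⟨q0, hq0⟩ := natDegree_eq_zero.mp hqdeg
  -- proportionality of T₁ and R
  have hcoef : ∀ l, T₂.coeff l = X ^ j * T₁.coeff l + q0 * R.coeff l := by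
    intro l
    have := congrArg (fun f => f.coeff l) hq
    simp only [hE, ← hq0, coeff_sub, coeff_C_mul, coeff_mul_C] at this
    linear_combination this
  set r := R.coeff s with hr
  have hr0 : r ≠ 0 := by
    rw [hr, hsdef]; simpa using hR0
  have hprop : ∀ l, r * T₁.coeff l = T₁.coeff s * R.coeff l := by
    intro l
    have e1 : r * T₂.coeff l - R.coeff l * T₂.coeff s =
        X ^ j * (r * T₁.coeff l - T₁.coeff s * R.coeff l) := by
      rw [hcoef l, hcoef s]; ring
    by_contra hne
    have hne' : r * T₁.coeff l - T₁.coeff s * R.coeff l ≠ 0 := sub_ne_zero.mpr hne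
    have e2 := congrArg natDegree e1
    rw [natDegree_mul (pow_ne_zero _ X_ne_zero) hne', natDegree_X_pow] at e2
    have e3 : (r * T₂.coeff l - R.coeff l * T₂.coeff s).natDegree ≤ 2 * N := by
      refine (natDegree_sub_le _ _).trans (max_le ?_ ?_)
      · refine natDegree_mul_le.trans ?_
        have h1 : r.natDegree ≤ N := natDegree_coeff_le_zdeg R s
        have := natDegree_coeff_le_zdeg T₂ l
        omega
      · refine natDegree_mul_le.trans ?_
        have := natDegree_coeff_le_zdeg R l
        have := natDegree_coeff_le_zdeg T₂ s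
        omega
    omega
  have hpropE : C r * T₁ = C (T₁.coeff s) * R := by
    ext1 l
    rw [coeff_C_mul, coeff_C_mul]
    exact hprop l
  -- hence X^m divides r * (derivative R)(F) * X^i
  have hdiv1 : X ^ m ∣ r * ((derivative R).eval F * X ^ i) := by
    have e1 : r * T₁.eval F = T₁.coeff s * R.eval F := by
      have := congrArg (eval F) hpropE
      rwa [eval_mul, eval_mul, eval_C, eval_C] at this
    have e2 : r * ((derivative R).eval F * X ^ i) =
        r * (T₁.eval F + (derivative R).eval F * X ^ i) - T₁.coeff s * R.eval F := by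
      rw [← e1]; ring
    rw [e2]
    exact dvd_sub (Dvd.dvd.mul_left c1 _) (Dvd.dvd.mul_left hm _)
  -- the polynomial C (r X^i) * derivative R is not divisible by R
  have hder0 : derivative R ≠ 0 := by
    intro h0
    exact hs (derivative_eq_zero.mp h0)
  have hres : resultant R (derivative R) ≠ 0 := by
    intro h0
    have h1 := dvd_of_resultant_eq_zero hR hs h0
    have h2 := natDegree_le_of_dvd h1 hder0
    have h3 := natDegree_derivative_lt hs
    omega
  obtain ⟨p, p', _, _, hpq⟩ := exists_mul_add_mul_eq_C_resultant R (derivative R) le_rfl le_rfl (Or.inl hs)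
  have h5 : X ^ m ∣ r * X ^ i * resultant R (derivative R) := by
    have h2 := congrArg (eval F) hpq
    rw [eval_add, eval_mul, eval_mul, eval_C] at h2
    rw [← h2]
    have e1 : r * X ^ i * (eval F R * eval F p + eval F (derivative R) * eval F p') =
        eval F R * (r * X ^ i * eval F p) + (r * ((derivative R).eval F * X ^ i)) * eval F p' := by
      ring
    rw [e1]
    exact dvd_add (Dvd.dvd.mul_right hm _) (Dvd.dvd.mul_right hdiv1 _)
  have h6 : r * X ^ i * resultant R (derivative R) ≠ 0 :=
    mul_ne_zero (mul_ne_zero hr0 (pow_ne_zero _ X_ne_zero)) hres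
  have h7 := natDegree_le_of_dvd h5 h6
  rw [natDegree_X_pow] at h7
  have h8 := natDegree_resultant_le R (derivative R) R.natDegree (derivative R).natDegree
  have h9 : zdeg (derivative R) ≤ N := by
    apply zdeg_le
    intro l
    rw [coeff_derivative]
    refine natDegree_mul_le.trans ?_
    have e1 : ((l : A[X]) + 1).natDegree = 0 := by
      have : ((l : A[X]) + 1) = C ((l : A) + 1) := by simp
      rw [this, natDegree_C]
    rw [e1, add_zero]
    exact natDegree_coeff_le_zdeg _ _
  have h10 : (derivative R).natDegree + 1 ≤ s := natDegree_derivative_lt hs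
  have h11 : (r * X ^ i * resultant R (derivative R)).natDegree ≤ N + i + (s * N + (s - 1) * N) := by
    refine natDegree_mul_le.trans ?_
    refine Nat.add_le_add ?_ ?_
    · refine natDegree_mul_le.trans ?_
      rw [natDegree_X_pow]
      have h1 : r.natDegree ≤ N := natDegree_coeff_le_zdeg R s
      omega
    · refine h8.trans (Nat.add_le_add ?_ ?_)
      · exact Nat.mul_le_mul_left _ h9
      · exact Nat.mul_le_mul_right _ (by omega)
  have h12 : s * N + (s - 1) * N + N = 2 * s * N := by
    obtain ⟨t, ht⟩ : ∃ t, s = t + 1 := ⟨s - 1, by omega⟩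
    rw [ht]; simp only [Nat.add_sub_cancel]; ring
  omega

end Pool.Agent.SNum
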