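import Mathlib
import Pool.Agent.SNum.ZDeg
import Pool.Agent.SNum.Irr
import Pool.Agent.SNum.Der

set_option autoImplicit false

namespace Pool.Agent.SNum

open Polynomial Finset

/-- The generic polynomial `∑ c_i z^(i+1)`. -/
noncomputable def genF (Δ : ℕ) : (MvPolynomial (Fin Δ) ℚ)[X] :=
  ∑ i : Fin Δ, C (MvPolynomial.X i) * X ^ ((i : ℕ) + 1)

theorem Dx_genF (Δ : ℕ) (i : Fin Δ) :
    Dx (MvPolynomial.pderiv (R := ℚ) i) (genF Δ) = X ^ ((i : ℕ) + 1) := by
  rw [genF, map_sum]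
  rw [Finset.sum_eq_single i]
  · ext n
    rw [coeff_Dx, coeff_C_mul, coeff_X_pow]
    split_ifs <;> simp
  · intro j _ hj
    ext1 n
    rw [coeff_Dx, coeff_C_mul, coeff_X_pow]
    split_ifs
    · simp [MvPolynomial.pderiv_X_of_ne hj]
    · simp
  · intro h; exact absurd (Finset.mem_univ i) h

section
variable {B : Type*} [CommRing B] [IsDomain B]

theorem X_pow_trailing_dvd (f : B[X]) : X ^ f.natTrailingDegree ∣ f := by
  rw [X_pow_dvd_iff]
  intro d hd
  exact coeff_eq_zero_of_lt_natTrailingDegree hd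

theorem trailing_of_bound {f : B[X]} {b : ℕ} (h : ∀ m, X ^ m ∣ f → m ≤ b) :
    f ≠ 0 ∧ f.natTrailingDegree ≤ b := by
  refine ⟨?_, h _ (X_pow_trailing_dvd f)⟩
  rintro rfl
  have := h (b + 1) (dvd_zero _)
  omega

theorem le_of_trailing {f : B[X]} {b m : ℕ} (h : f ≠ 0 ∧ f.natTrailingDegree ≤ b)
    (hm : X ^ m ∣ f) : m ≤ b := by
  by_contra hcon
  push Not at hcon
  rw [X_pow_dvd_iff] at hm
  have h1 := hm f.natTrailingDegree (by omega)
  have h2 : f.trailingCoeff ≠ 0 := by simpa using h.1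
  exact h2 h1

end

theorem generic_bound {Δ : ℕ} (R : (MvPolynomial (Fin Δ) ℚ)[X][X]) (hR : R ≠ 0)
    (hΔ : 2 * zdeg R + 2 ≤ Δ) : R.eval (genF Δ) ≠ 0 ∧
      (R.eval (genF Δ)).natTrailingDegree ≤ 4 * R.natDegree * zdeg R + R.natDegree + zdeg R := by
  induction R using WfDvdMonoid.induction_on_irreducible with
  | zero => exact absurd rfl hR
  | unit u hu =>
    have h1 : IsUnit (u.eval (genF Δ)) := hu.map (evalRingHom (genF Δ))
    apply trailing_of_bound
    intro m hm
    rcases Nat.eq_zero_or_pos m with rfl | hpos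
    · exact Nat.zero_le _
    · exfalso
      have h2 : IsUnit ((X : (MvPolynomial (Fin Δ) ℚ)[X]) ^ m) := isUnit_of_dvd_unit hm h1
      rw [isUnit_pow_iff (by omega)] at h2
      exact not_isUnit_X h2
  | mul a i ha hi ih =>
    have hi0 : i ≠ 0 := hi.ne_zero
    rw [zdeg_mul hi0 ha] at hΔ
    obtain ⟨a1, a2⟩ := ih ha (by omega)
    have hib : ∀ m, X ^ m ∣ i.eval (genF Δ) → m ≤ 4 * i.natDegree * zdeg i + i.natDegree + zdeg i := by
      intro m hm
      by_cases hs : i.natDegree = 0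
      · obtain ⟨p, hp⟩ := natDegree_eq_zero.mp hs
        have hp0 : p ≠ 0 := by rintro rfl; apply hi0; rw [← hp]; simp
        rw [← hp, eval_C] at hm
        have h1 := natDegree_le_of_dvd hm hp0
        rw [natDegree_X_pow] at h1
        have h2 : zdeg i = p.natDegree := by rw [← hp, zdeg_C]
        omega
      · have h1 := Dx_genF Δ ⟨0, by omega⟩
        have h2 := Dx_genF Δ ⟨2 * zdeg i + 1, by omega⟩
        have h3 := irr_bound (F := genF Δ) (MvPolynomial.pderiv (R := ℚ) (⟨0, by omega⟩ : Fin Δ))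
          (MvPolynomial.pderiv (R := ℚ) (⟨2 * zdeg i + 1, by omega⟩ : Fin Δ)) 1 (2 * zdeg i + 1)
          (by rw [h1]) (by rw [h2]; congr 1; simp; ring) hi hs (by omega) hm
        refine h3.trans (max_le ?_ ?_)
        · nlinarith
        · have : 1 ≤ i.natDegree := by omega
          nlinarith
    obtain ⟨b1, b2⟩ := trailing_of_bound hib
    rw [eval_mul]
    refine ⟨mul_ne_zero b1 a1, ?_⟩
    rw [natTrailingDegree_mul b1 a1, zdeg_mul hi0 ha, natDegree_mul hi0 ha]
    nlinarith [Nat.zero_le (i.natDegree * zdeg a), Nat.zero_le (a.natDegree * zdeg i)]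

end Pool.Agent.SNum
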