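import Mathlib
import Pool.Agent.SNum.ZDeg
import Pool.Agent.SNum.Gen

set_option autoImplicit false

namespace Pool.Agent.SNum

open Polynomial Finset

/-- An integral matrix with trivial kernel has a left inverse up to a denominator. -/
theorem exists_left_inverse {A : Type*} [CommRing A] [IsDomain A] {m n : Type*} [Fintype m]
    [Fintype n] [DecidableEq m] [DecidableEq n] (M : Matrix m n A)
    (h : ∀ v : n → A, M.mulVec v = 0 → v = 0) :
    ∃ (B : Matrix n m A) (d : A), d ≠ 0 ∧ B * M = d • (1 : Matrix n n A) := by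
  classical
  set K := FractionRing A
  have hinj : Function.Injective (algebraMap A K) := IsFractionRing.injective _ _
  set MK : Matrix m n K := M.map (algebraMap A K) with hMK
  have hker : LinearMap.ker (Matrix.toLin' MK) = ⊥ := by
    rw [LinearMap.ker_eq_bot']
    intro v hv
    obtain ⟨b, hb⟩ := IsLocalization.exist_integer_multiples_of_finite (nonZeroDivisors A) v
    choose v' hv' using hb
    have hb0 : (b : A) ≠ 0 := nonZeroDivisors.ne_zero b.2
    have hv'' : v' = 0 := by
      apply h
      funext i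
      apply hinj
      have h1 : (MK.mulVec v) i = 0 := by
        have := congrFun hv i
        simpa [Matrix.toLin'_apply] using this
      rw [Pi.zero_apply, map_zero]
      calc algebraMap A K ((M.mulVec v') i) = ∑ j, MK i j * algebraMap A K (v' j) := by
            simp [Matrix.mulVec, dotProduct, hMK, map_sum]
        _ = ∑ j, MK i j * ((b : A) • v j) := by
            apply Finset.sum_congr rfl; intro j _; rw [hv']
        _ = (b : A) • (MK.mulVec v) i := by
            simp only [Matrix.mulVec, dotProduct, Finset.smul_sum]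
            apply Finset.sum_congr rfl; intro j _
            rw [mul_smul_comm]
        _ = 0 := by rw [h1, smul_zero]
    funext j
    have h2 := hv' j
    rw [hv'', Pi.zero_apply, map_zero] at h2
    have h3 : algebraMap A K (b : A) * v j = 0 := by
      rw [← Algebra.smul_def]; exact h2.symm
    rcases mul_eq_zero.mp h3 with h4 | h4
    · exact absurd (hinj (by rw [h4, map_zero])) hb0
    · simpa using h4
  obtain ⟨g, hg⟩ := (Matrix.toLin' MK).exists_leftInverse_of_injective hker
  set BK : Matrix n m K := LinearMap.toMatrix' g with hBK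
  have hBM : BK * MK = 1 := by
    have h1 := congrArg LinearMap.toMatrix' hg
    rw [LinearMap.toMatrix'_comp, LinearMap.toMatrix'_toLin', LinearMap.toMatrix'_id] at h1
    exact h1
  obtain ⟨b, hb⟩ := IsLocalization.exist_integer_multiples_of_finite (nonZeroDivisors A)
    (fun x : n × m => BK x.1 x.2)
  choose B' hB' using hb
  have hb0 : (b : A) ≠ 0 := nonZeroDivisors.ne_zero b.2
  refine ⟨Matrix.of fun i j => B' (i, j), (b : A), hb0, ?_⟩
  ext i j
  apply hinj
  have h1 : algebraMap A K (((Matrix.of fun i j => B' (i, j) : Matrix n m A) * M) i j) =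
      (b : A) • (BK * MK) i j := by
    rw [Matrix.mul_apply, Matrix.mul_apply, map_sum, Finset.smul_sum]
    apply Finset.sum_congr rfl
    intro k _
    rw [Matrix.of_apply, map_mul, hB' (i, k), hMK, Matrix.map_apply, smul_mul_assoc]
  rw [h1, hBM, Matrix.smul_apply, Algebra.smul_def, smul_eq_mul, map_mul]
  congr 1
  rw [Matrix.one_apply, Matrix.one_apply]
  split_ifs <;> simp

theorem eval_eq_sum_prod {B : Type*} [CommRing B] (R : B[X][X]) (F : B[X]) {N s : ℕ}
    (hN : zdeg R ≤ N) (hs : R.natDegree ≤ s) :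
    R.eval F = ∑ x : Fin (N + 1) × Fin (s + 1), C ((R.coeff x.2).coeff x.1) *
      (X ^ (x.1 : ℕ) * F ^ (x.2 : ℕ)) := by
  rw [Fintype.sum_prod_type_right]
  rw [eval_eq_sum_range' (n := s + 1) (by omega)]
  rw [Finset.sum_range]
  apply Finset.sum_congr rfl
  intro j _
  have h1 : (R.coeff j).natDegree < N + 1 := by
    have := natDegree_coeff_le_zdeg R j
    omega
  conv_lhs => rw [as_sum_range' (R.coeff (j : ℕ)) (N + 1) h1]
  rw [Finset.sum_mul, Finset.sum_range]
  apply Finset.sum_congr rfl
  intro i _
  rw [← C_mul_X_pow_eq_monomial, mul_assoc]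

/-- The specialised polynomial. -/
noncomputable def specF {B : Type*} [CommRing B] {Δ : ℕ} (c : Fin Δ → B) : B[X] :=
  ∑ i : Fin Δ, C (c i) * X ^ ((i : ℕ) + 1)

theorem genF_map {Δ : ℕ} (c : Fin Δ → ℚ) : (genF Δ).map (MvPolynomial.eval c) = specF c := by
  rw [genF, specF, Polynomial.map_sum]
  apply Finset.sum_congr rfl
  intro i _
  simp

theorem exists_disc (Δ N s M : ℕ) (hΔ : 2 * N + 2 ≤ Δ) (hM : 4 * s * N + s + N < M) :
    ∃ d : MvPolynomial (Fin Δ) ℚ, d ≠ 0 ∧ ∀ c : Fin Δ → ℚ, MvPolynomial.eval c d ≠ 0 →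
      ∀ R : ℚ[X][X], zdeg R ≤ N → R.natDegree ≤ s → X ^ M ∣ R.eval (specF c) → R = 0 := by
  classical
  set 𝓜 : Matrix (Fin M) (Fin (N + 1) × Fin (s + 1)) (MvPolynomial (Fin Δ) ℚ) :=
    Matrix.of fun t x => (X ^ (x.1 : ℕ) * (genF Δ) ^ (x.2 : ℕ)).coeff t with h𝓜
  have hker : ∀ v : Fin (N + 1) × Fin (s + 1) → MvPolynomial (Fin Δ) ℚ, 𝓜.mulVec v = 0 → v = 0 := by
    intro v hv
    set R : (MvPolynomial (Fin Δ) ℚ)[X][X] :=
      ∑ x : Fin (N + 1) × Fin (s + 1), monomial (x.2 : ℕ) (monomial (x.1 : ℕ) (v x)) with hR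
    have hcoef : ∀ x : Fin (N + 1) × Fin (s + 1), (R.coeff x.2).coeff x.1 = v x := by
      intro x
      rw [hR, finsetSum_coeff, finsetSum_coeff]
      rw [Finset.sum_eq_single x]
      · rw [coeff_monomial, if_pos rfl, coeff_monomial, if_pos rfl]
      · intro y _ hyx
        rw [coeff_monomial]
        split_ifs with h1
        · rw [coeff_monomial]
          split_ifs with h2
          · exfalso; apply hyx
            exact Prod.ext (Fin.ext h2) (Fin.ext h1)
          · rfl
        · simp
      · intro h; exact absurd (Finset.mem_univ x) h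
    have hzR : zdeg R ≤ N := by
      apply zdeg_le
      intro i
      rw [hR, finsetSum_coeff]
      apply natDegree_sum_le_of_forall_le
      intro x _
      rw [coeff_monomial]
      split_ifs
      · refine (natDegree_monomial_le _).trans ?_
        have := x.1.2; omega
      · simp
    have hsR : R.natDegree ≤ s := by
      rw [hR]
      apply natDegree_sum_le_of_forall_le
      intro x _
      refine (natDegree_monomial_le _).trans ?_
      have := x.2.2; omega
    have hdvd : X ^ M ∣ R.eval (genF Δ) := by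
      rw [X_pow_dvd_iff]
      intro t ht
      rw [eval_eq_sum_prod R (genF Δ) hzR hsR, finsetSum_coeff]
      have h1 := congrFun hv ⟨t, ht⟩
      simp only [Matrix.mulVec, dotProduct, h𝓜, Matrix.of_apply, Pi.zero_apply] at h1
      rw [← h1]
      apply Finset.sum_congr rfl
      intro x _
      rw [coeff_C_mul, hcoef, mul_comm]
    have hR0 : R = 0 := by
      by_contra hne
      have h1 := generic_bound R hne (by omega)
      have h2 := le_of_trailing h1 hdvd
      have h3 : 4 * R.natDegree * zdeg R + R.natDegree + zdeg R ≤ 4 * s * N + s + N := by gcongr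
      omega
    funext x
    rw [← hcoef x, hR0]; simp
  obtain ⟨B, d, hd, hBd⟩ := exists_left_inverse 𝓜 hker
  refine ⟨d, hd, ?_⟩
  intro c hc R hzR hsR hdvd
  set φ : MvPolynomial (Fin Δ) ℚ →+* ℚ := MvPolynomial.eval c with hφ
  set v : Fin (N + 1) × Fin (s + 1) → ℚ := fun x => (R.coeff x.2).coeff x.1 with hv
  have h1 : (𝓜.map φ).mulVec v = 0 := by
    funext t
    rw [X_pow_dvd_iff] at hdvd
    have h2 := hdvd t t.2
    rw [eval_eq_sum_prod R (specF c) hzR hsR, finsetSum_coeff] at h2
    rw [Pi.zero_apply, ← h2]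
    simp only [Matrix.mulVec, dotProduct, Matrix.map_apply, h𝓜, Matrix.of_apply]
    apply Finset.sum_congr rfl
    intro x _
    rw [coeff_C_mul, mul_comm, ← genF_map, ← hφ]
    congr 1
    rw [← coeff_map, Polynomial.map_mul, Polynomial.map_pow, Polynomial.map_pow, map_X]
  have h2 : (B.map φ) * (𝓜.map φ) = φ d • (1 : Matrix _ _ ℚ) := by
    rw [← Matrix.map_mul, hBd]
    ext i j
    simp only [Matrix.map_apply, Matrix.smul_apply, Matrix.one_apply, smul_eq_mul, map_mul]
    split_ifs <;> simp
  have h3 : φ d • v = 0 := by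
    have h4 := congrArg (fun M : Matrix _ _ ℚ => M.mulVec v) h2
    simp only [← Matrix.mulVec_mulVec, h1, Matrix.mulVec_zero, Matrix.smul_mulVec,
      Matrix.one_mulVec] at h4
    exact h4.symm
  have h4 : v = 0 := by
    rcases smul_eq_zero.mp h3 with h5 | h5
    · exact absurd h5 hc
    · exact h5
  ext j i
  rw [coeff_zero, coeff_zero]
  by_cases hj : j < s + 1
  · by_cases hi : i < N + 1
    · exact congrFun h4 (⟨i, hi⟩, ⟨j, hj⟩)
    · apply coeff_eq_zero_of_natDegree_lt
      have := natDegree_coeff_le_zdeg R j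
      omega
  · rw [coeff_eq_zero_of_natDegree_lt (by omega : R.natDegree < j), coeff_zero]

end Pool.Agent.SNum
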