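import Mathlib
import Pool.Agent.SNum.ZDeg
import Pool.Agent.SNum.Gen
import Pool.Agent.SNum.Spec

set_option autoImplicit false

namespace Pool.Agent.SNum

open Polynomial Finset Module

variable {K : Type*} [Field K]

/-- coordinates to bivariate polynomial -/
noncomputable def toPoly (m s : ℕ) (v : Fin (m + 1) × Fin (s + 1) → K) : K[X][X] :=
  ∑ x : Fin (m + 1) × Fin (s + 1), monomial (x.2 : ℕ) (monomial (x.1 : ℕ) (v x))

theorem toPoly_add (m s : ℕ) (v w : Fin (m + 1) × Fin (s + 1) → K) :
    toPoly m s (v + w) = toPoly m s v + toPoly m s w := by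
  simp [toPoly, Finset.sum_add_distrib]

theorem toPoly_smul (m s : ℕ) (r : K) (v : Fin (m + 1) × Fin (s + 1) → K) :
    toPoly m s (r • v) = C (C r) * toPoly m s v := by
  rw [toPoly, toPoly, Finset.mul_sum]
  apply Finset.sum_congr rfl
  intro x _
  rw [C_mul_monomial, C_mul_monomial, Pi.smul_apply, smul_eq_mul]

theorem toPoly_zero (m s : ℕ) : toPoly m s (0 : Fin (m + 1) × Fin (s + 1) → K) = 0 := by
  simp [toPoly]

theorem coeff_toPoly {m s : ℕ} (v : Fin (m + 1) × Fin (s + 1) → K) (x : Fin (m + 1) × Fin (s + 1)) :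
    ((toPoly m s v).coeff x.2).coeff x.1 = v x := by
  rw [toPoly, finsetSum_coeff, finsetSum_coeff]
  rw [Finset.sum_eq_single x]
  · rw [coeff_monomial, if_pos rfl, coeff_monomial, if_pos rfl]
  · intro y _ hyx
    rw [coeff_monomial]
    split_ifs with h1
    · rw [coeff_monomial]
      split_ifs with h2
      · exfalso; apply hyx
        exact Prod.ext (Fin.ext h2) (Fin.ext h1)
      · rfl
    · simp
  · intro h; exact absurd (Finset.mem_univ x) h

theorem zdeg_toPoly {m s : ℕ} (v : Fin (m + 1) × Fin (s + 1) → K) : zdeg (toPoly m s v) ≤ m := by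
  apply zdeg_le
  intro i
  rw [toPoly, finsetSum_coeff]
  apply natDegree_sum_le_of_forall_le
  intro x _
  rw [coeff_monomial]
  split_ifs
  · refine (natDegree_monomial_le _).trans ?_
    have := x.1.2; omega
  · simp

theorem natDegree_toPoly {m s : ℕ} (v : Fin (m + 1) × Fin (s + 1) → K) :
    (toPoly m s v).natDegree ≤ s := by
  rw [toPoly]
  apply natDegree_sum_le_of_forall_le
  intro x _
  refine (natDegree_monomial_le _).trans ?_
  have := x.2.2; omega

theorem ext_of_bideg {m s : ℕ} {R R' : K[X][X]} (h1 : zdeg R ≤ m) (h2 : R.natDegree ≤ s)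
    (h3 : zdeg R' ≤ m) (h4 : R'.natDegree ≤ s)
    (h : ∀ x : Fin (m + 1) × Fin (s + 1), (R.coeff x.2).coeff x.1 = (R'.coeff x.2).coeff x.1) :
    R = R' := by
  ext j i
  by_cases hj : j < s + 1
  · by_cases hi : i < m + 1
    · exact h (⟨i, hi⟩, ⟨j, hj⟩)
    · rw [coeff_eq_zero_of_natDegree_lt, coeff_eq_zero_of_natDegree_lt]
      · have := natDegree_coeff_le_zdeg R' j
        omega
      · have := natDegree_coeff_le_zdeg R j
        omega
  · rw [coeff_eq_zero_of_natDegree_lt (by omega : R.natDegree < j),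
      coeff_eq_zero_of_natDegree_lt (by omega : R'.natDegree < j)]

/-- bivariate polynomial to coordinates -/
noncomputable def coords (m s : ℕ) (R : K[X][X]) : Fin (m + 1) × Fin (s + 1) → K :=
  fun x => (R.coeff x.2).coeff x.1

theorem toPoly_coords {m s : ℕ} {R : K[X][X]} (h1 : zdeg R ≤ m) (h2 : R.natDegree ≤ s) :
    toPoly m s (coords m s R) = R := by
  apply ext_of_bideg (zdeg_toPoly _) (natDegree_toPoly _) h1 h2
  intro x
  rw [coeff_toPoly]
  rfl

theorem coords_toPoly {m s : ℕ} (v : Fin (m + 1) × Fin (s + 1) → K) :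
    coords m s (toPoly m s v) = v := by
  funext x
  exact coeff_toPoly v x

/-- The coordinate vectors of polynomials of bidegree at most `(m, s)` vanishing to order `M`
along `y = F(z)`. -/
noncomputable def VV (F : K[X]) (M s m : ℕ) : Submodule K (Fin (m + 1) × Fin (s + 1) → K) where
  carrier := {v | X ^ M ∣ (toPoly m s v).eval F}
  add_mem' := by
    intro a b ha hb
    rw [Set.mem_ofPred_eq, toPoly_add, eval_add]; exact dvd_add ha hb
  zero_mem' := by
    rw [Set.mem_ofPred_eq, toPoly_zero, eval_zero]; exact dvd_zero _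
  smul_mem' := by
    intro r a ha
    rw [Set.mem_ofPred_eq, toPoly_smul, eval_mul]
    exact Dvd.dvd.mul_left ha _

theorem mem_VV {F : K[X]} {M s m : ℕ} {v : Fin (m + 1) × Fin (s + 1) → K} :
    v ∈ VV F M s m ↔ X ^ M ∣ (toPoly m s v).eval F := Iff.rfl

theorem finrank_VV_ge (F : K[X]) (M s m : ℕ) :
    (m + 1) * (s + 1) ≤ finrank K (VV F M s m) + M := by
  set L : (Fin (m + 1) × Fin (s + 1) → K) →ₗ[K] (Fin M → K) :=
    { toFun := fun v t => ((toPoly m s v).eval F).coeff t
      map_add' := by intro v w; funext t; simp [toPoly_add, eval_add]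
      map_smul' := by intro r v; funext t; simp [toPoly_smul, eval_mul] } with hL
  have h1 := L.finrank_range_add_finrank_ker
  have h2 : finrank K (LinearMap.range L) ≤ M := by
    have := Submodule.finrank_le (LinearMap.range L)
    simpa using this
  have h3 : finrank K (Fin (m + 1) × Fin (s + 1) → K) = (m + 1) * (s + 1) := by simp
  have h4 : LinearMap.ker L ≤ VV F M s m := by
    intro v hv
    rw [mem_VV, X_pow_dvd_iff]
    intro d hd
    exact congrFun (LinearMap.mem_ker.mp hv) ⟨d, hd⟩
  have h5 := Submodule.finrank_mono h4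
  omega

theorem exists_quot {F : K[X]} {M s m : ℕ} {z₀ : K} (hz : z₀ ≠ 0) {R : K[X][X]}
    (g1 : zdeg R ≤ m + 1) (g2 : R.natDegree ≤ s) (g3 : X ^ M ∣ R.eval F)
    (h0 : R.map (evalRingHom z₀) = 0) :
    ∃ R' : K[X][X], zdeg R' ≤ m ∧ R'.natDegree ≤ s ∧ X ^ M ∣ R'.eval F ∧ R = C (X - C z₀) * R' := by
  have h1 : C (X - C z₀) ∣ R := by
    rw [C_dvd_iff_dvd_coeff]
    intro i
    rw [dvd_iff_isRoot]
    have := congrArg (fun f => f.coeff i) h0
    simpa [coeff_map] using this
  obtain ⟨R', hR'⟩ := h1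
  by_cases hR'0 : R' = 0
  · refine ⟨0, ?_, by simp, by simp, by rw [hR', hR'0]⟩
    apply zdeg_le; intro i; simp
  have hC0 : (C (X - C z₀) : K[X][X]) ≠ 0 := by
    rw [Ne, C_eq_zero]; exact X_sub_C_ne_zero _
  refine ⟨R', ?_, ?_, ?_, hR'⟩
  · rw [hR', zdeg_mul hC0 hR'0, zdeg_C, natDegree_X_sub_C] at g1
    omega
  · rw [hR', natDegree_mul hC0 hR'0, natDegree_C] at g2
    omega
  · rw [hR', eval_mul, eval_C] at g3
    have hcop : IsCoprime ((X : K[X]) ^ M) (X - C z₀) := by
      apply IsCoprime.pow_left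
      have := isCoprime_X_sub_C_of_isUnit_sub (R := K) (a := 0) (b := z₀) (by simpa using hz)
      simpa using this
    exact hcop.dvd_of_dvd_mul_left g3

theorem finrank_step {F : K[X]} {M s m n : ℕ} {z₀ : K} (hz : z₀ ≠ 0) {P : K[X]}
    (hP : P.natDegree + n = s + 1) (hP0 : P ≠ 0)
    (hdiv : ∀ v ∈ VV F M s (m + 1), P ∣ (toPoly (m + 1) s v).map (evalRingHom z₀)) :
    finrank K (VV F M s (m + 1)) ≤ finrank K (VV F M s m) + n := by
  set g : VV F M s (m + 1) →ₗ[K] K[X] :=
    { toFun := fun v => (toPoly (m + 1) s (v : Fin (m + 1 + 1) × Fin (s + 1) → K)).map (evalRingHom z₀)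
      map_add' := by
        intro v w
        rw [Submodule.coe_add, toPoly_add, Polynomial.map_add]
      map_smul' := by
        intro r v
        rw [Submodule.coe_smul, toPoly_smul, Polynomial.map_mul, map_C, RingHom.id_apply]
        simp [smul_eq_C_mul] } with hg
  have h1 := g.finrank_range_add_finrank_ker
  -- the range
  have h2 : finrank K (LinearMap.range g) ≤ n := by
    set mu : degreeLT K n →ₗ[K] K[X] := (LinearMap.mulLeft K P).comp (degreeLT K n).subtype with hmu
    have hle : LinearMap.range g ≤ LinearMap.range mu := by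
      rintro _ ⟨R, rfl⟩
      obtain ⟨G, hG⟩ := hdiv R R.2
      have hGdeg : G ∈ degreeLT K n := by
        rw [mem_degreeLT]
        by_cases hG0 : G = 0
        · rw [hG0, degree_zero]; exact WithBot.bot_lt_coe _
        · rw [degree_eq_natDegree hG0]
          have e1 : ((toPoly (m + 1) s (R : Fin (m + 1 + 1) × Fin (s + 1) → K)).map
              (evalRingHom z₀)).natDegree ≤ s := natDegree_map_le.trans (natDegree_toPoly _)
          rw [hG, natDegree_mul hP0 hG0] at e1
          have : G.natDegree < n := by omega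
          exact_mod_cast this
      exact ⟨⟨G, hGdeg⟩, hG.symm⟩
    have hfin : FiniteDimensional K (degreeLT K n) := (degreeLTEquiv K n).symm.finiteDimensional
    calc finrank K (LinearMap.range g) ≤ finrank K (LinearMap.range mu) :=
          Submodule.finrank_mono hle
      _ ≤ finrank K (degreeLT K n) := LinearMap.finrank_range_le mu
      _ = n := by rw [(degreeLTEquiv K n).finrank_eq]; simp
  have h3 : finrank K (LinearMap.ker g) ≤ finrank K (VV F M s m) := by
    have hb1 : ∀ v : Fin (m + 1) × Fin (s + 1) → K, zdeg (C (X - C z₀) * toPoly m s v) ≤ m + 1 := by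
      intro v
      refine (zdeg_C_mul_le _ _).trans ?_
      rw [natDegree_X_sub_C]
      have := zdeg_toPoly (K := K) v
      omega
    have hb2 : ∀ v : Fin (m + 1) × Fin (s + 1) → K,
        (C (X - C z₀) * toPoly m s v).natDegree ≤ s := by
      intro v
      exact (natDegree_C_mul_le _ _).trans (natDegree_toPoly v)
    set mu : VV F M s m →ₗ[K] VV F M s (m + 1) :=
      { toFun := fun v => ⟨coords (m + 1) s
          (C (X - C z₀) * toPoly m s (v : Fin (m + 1) × Fin (s + 1) → K)), by
            rw [mem_VV, toPoly_coords (hb1 _) (hb2 _), eval_mul]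
            exact Dvd.dvd.mul_left v.2 _⟩
        map_add' := by
          intro v w
          apply Subtype.ext
          funext x
          simp only [coords, Submodule.coe_add, toPoly_add, mul_add, coeff_add, Pi.add_apply]
        map_smul' := by
          intro r v
          apply Subtype.ext
          funext x
          simp only [coords, Submodule.coe_smul, toPoly_smul, RingHom.id_apply, Pi.smul_apply]
          rw [mul_left_comm, coeff_C_mul, coeff_C_mul, smul_eq_mul] } with hmu
    have hle : LinearMap.ker g ≤ LinearMap.range mu := by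
      intro v hv
      obtain ⟨R', q1, q2, q3, q4⟩ := exists_quot (F := F) (M := M) (s := s) (m := m) hz
        (zdeg_toPoly (v : Fin (m + 1 + 1) × Fin (s + 1) → K)) (natDegree_toPoly _) v.2
        (LinearMap.mem_ker.mp hv)
      refine ⟨⟨coords m s R', by rw [mem_VV, toPoly_coords q1 q2]; exact q3⟩, ?_⟩
      apply Subtype.ext
      change coords (m + 1) s (C (X - C z₀) * toPoly m s (coords m s R')) = v
      rw [toPoly_coords q1 q2, ← q4, coords_toPoly]
    exact (Submodule.finrank_mono hle).trans (LinearMap.finrank_range_le mu)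
  omega

/-- The main output of the dimension count. -/
theorem exists_not_dvd {F : K[X]} {n N₀ : ℕ} (hn : 1 ≤ n) (hN₀ : 1 ≤ N₀)
    (hZ : ∀ R : K[X][X], zdeg R ≤ N₀ - 1 → R.natDegree ≤ 2 * n - 1 →
      X ^ (8 * n * N₀) ∣ R.eval F → R = 0)
    {z₀ : K} (hz : z₀ ≠ 0) {P : K[X]} (hP : P.natDegree = n) :
    ∃ v ∈ VV F (8 * n * N₀) (2 * n - 1) (7 * N₀),
      ¬ P ∣ (toPoly (7 * N₀) (2 * n - 1) v).map (evalRingHom z₀) := by
  by_contra hcon
  push Not at hcon
  have hP0 : P ≠ 0 := by rintro rfl; simp at hP; omega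
  have hle : ∀ m, m ≤ 7 * N₀ → ∀ v ∈ VV F (8 * n * N₀) (2 * n - 1) m,
      P ∣ (toPoly m (2 * n - 1) v).map (evalRingHom z₀) := by
    intro m hm v hv
    have h1 : zdeg (toPoly m (2 * n - 1) v) ≤ 7 * N₀ := (zdeg_toPoly v).trans hm
    have h2 := toPoly_coords h1 (natDegree_toPoly v)
    rw [← h2]
    apply hcon
    rw [mem_VV, h2]
    exact hv
  have hmain : ∀ k, k ≤ 6 * N₀ + 1 →
      finrank K (VV F (8 * n * N₀) (2 * n - 1) (N₀ - 1 + k)) ≤ n * k := by
    intro k
    induction k with
    | zero =>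
      intro _
      have : VV F (8 * n * N₀) (2 * n - 1) (N₀ - 1 + 0) = ⊥ := by
        rw [eq_bot_iff]
        intro v hv
        rw [Submodule.mem_bot]
        have h1 := hZ _ (zdeg_toPoly v) (natDegree_toPoly v) hv
        rw [← coords_toPoly v, h1]
        funext x
        simp [coords]
      rw [this]; simp
    | succ k ih =>
      intro hk
      have h1 := ih (by omega)
      have h2 := finrank_step (F := F) (M := 8 * n * N₀) (s := 2 * n - 1) (m := N₀ - 1 + k)
        (n := n) hz (P := P) (by omega) hP0 (hle _ (by omega))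
      calc finrank K (VV F (8 * n * N₀) (2 * n - 1) (N₀ - 1 + (k + 1))) ≤
          finrank K (VV F (8 * n * N₀) (2 * n - 1) (N₀ - 1 + k)) + n := h2
        _ ≤ n * k + n := by omega
        _ = n * (k + 1) := by ring
  have h1 := hmain (6 * N₀ + 1) le_rfl
  have h2 := finrank_VV_ge F (8 * n * N₀) (2 * n - 1) (7 * N₀)
  have h3 : N₀ - 1 + (6 * N₀ + 1) = 7 * N₀ := by omega
  rw [h3] at h1
  have h5 : (7 * N₀ + 1) * (2 * n - 1 + 1) = 14 * (n * N₀) + 2 * n := by
    have h4 : 2 * n - 1 + 1 = 2 * n := by omega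
    rw [h4]; ring
  have h6 : n * (6 * N₀ + 1) = 6 * (n * N₀) + n := by ring
  have h7 : 8 * n * N₀ = 8 * (n * N₀) := by ring
  rw [h6] at h1
  rw [h5] at h2
  omega

end Pool.Agent.SNum
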