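import Mathlib
import Pool.Agent.SNum.Spec

set_option autoImplicit false

namespace Pool.Agent.SNum

open Polynomial Finset

/-- A nonzero polynomial is nonvanishing on a product of finite sets of prescribed size. -/
theorem exists_sets : ∀ (m : ℕ) (Φ : MvPolynomial (Fin m) ℚ), Φ ≠ 0 → ∀ k : ℕ,
    ∃ S : Fin m → Finset ℕ, (∀ i, (S i).card = k) ∧
      ∀ c : Fin m → ℕ, (∀ i, c i ∈ S i) → MvPolynomial.eval (fun i => (c i : ℚ)) Φ ≠ 0 := by
  intro m
  induction m with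
  | zero =>
    intro Φ hΦ k
    refine ⟨fun _ => ∅, fun i => i.elim0, ?_⟩
    intro c _
    obtain ⟨a, ha⟩ : ∃ a, Φ = MvPolynomial.C a := ⟨_, MvPolynomial.eq_C_of_isEmpty Φ⟩
    rw [ha, MvPolynomial.eval_C]
    rintro rfl
    apply hΦ
    rw [ha, map_zero]
  | succ m ih =>
    intro Φ hΦ k
    set f := MvPolynomial.finSuccEquiv ℚ m Φ with hf
    have hf0 : f ≠ 0 := by
      intro h0
      apply hΦ
      apply (MvPolynomial.finSuccEquiv ℚ m).injective
      rw [map_zero, ← hf, h0]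
    obtain ⟨S', hS'card, hS'⟩ := ih f.leadingCoeff (leadingCoeff_ne_zero.mpr hf0) k
    set bad : Finset ℚ := (Fintype.piFinset S').biUnion
      (fun c' => (f.map (MvPolynomial.eval (fun i => (c' i : ℚ)))).roots.toFinset) with hbad
    have hinf : (((bad.preimage (Nat.cast : ℕ → ℚ) (Nat.cast_injective.injOn) : Finset ℕ) : Set ℕ)ᶜ).Infinite :=
      (Finset.finite_toSet _).infinite_compl
    obtain ⟨S₀, hS₀, hS₀card⟩ := hinf.exists_subset_card_eq k
    refine ⟨Fin.cons S₀ S', ?_, ?_⟩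
    · intro i
      refine Fin.cases ?_ (fun i => ?_) i
      · simpa using hS₀card
      · simpa using hS'card i
    · intro c hc
      have hc0 : c 0 ∈ S₀ := by simpa using hc 0
      have hcs : ∀ i : Fin m, c i.succ ∈ S' i := fun i => by simpa using hc i.succ
      set c' : Fin m → ℕ := fun i => c i.succ with hc'
      have h1 : (fun i => (c i : ℚ)) = Fin.cons (c 0 : ℚ) (fun i => (c' i : ℚ)) := by
        funext i
        refine Fin.cases ?_ (fun i => ?_) i <;> simp [hc']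
      rw [h1, MvPolynomial.eval_eq_eval_mv_eval', ← hf]
      intro h2
      have hlead := hS' c' hcs
      have hne : f.map (MvPolynomial.eval (fun i => (c' i : ℚ))) ≠ 0 := by
        intro h3
        apply hlead
        have := congrArg (fun g => g.coeff f.natDegree) h3
        simpa [coeff_map] using this
      have hroot : (c 0 : ℚ) ∈ (f.map (MvPolynomial.eval (fun i => (c' i : ℚ)))).roots :=
        (mem_roots hne).mpr h2
      have hmem : (c 0 : ℚ) ∈ bad := by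
        rw [hbad, Finset.mem_biUnion]
        exact ⟨c', Fintype.mem_piFinset.mpr hcs, by simpa using hroot⟩
      have := hS₀ hc0
      apply this
      simpa using hmem

/-- The zero estimate on a product of digit sets. -/
theorem exists_digit_sets (nb Δ k : ℕ) : ∃ S : Fin Δ → Finset ℕ, (∀ i, (S i).card = k) ∧
    ∀ c : Fin Δ → ℕ, (∀ i, c i ∈ S i) → ∀ n N₀ : ℕ, 1 ≤ n → n ≤ nb → 1 ≤ N₀ → 2 * N₀ ≤ Δ →
      ∀ R : ℚ[X][X], zdeg R ≤ N₀ - 1 → R.natDegree ≤ 2 * n - 1 →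
        X ^ (8 * n * N₀) ∣ R.eval (specF fun i => (c i : ℚ)) → R = 0 := by
  classical
  have hex : ∀ x : ℕ × ℕ, ∃ d : MvPolynomial (Fin Δ) ℚ, d ≠ 0 ∧
      (1 ≤ x.1 → 1 ≤ x.2 → 2 * x.2 ≤ Δ → ∀ c : Fin Δ → ℚ, MvPolynomial.eval c d ≠ 0 →
        ∀ R : ℚ[X][X], zdeg R ≤ x.2 - 1 → R.natDegree ≤ 2 * x.1 - 1 →
        X ^ (8 * x.1 * x.2) ∣ R.eval (specF c) → R = 0) := by
    intro x
    by_cases h : 1 ≤ x.1 ∧ 1 ≤ x.2 ∧ 2 * x.2 ≤ Δ
    · obtain ⟨h1, h2, h3⟩ := h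
      obtain ⟨d, hd0, hd⟩ := exists_disc Δ (x.2 - 1) (2 * x.1 - 1) (8 * x.1 * x.2) (by omega) (by
        obtain ⟨a, ha⟩ : ∃ a, x.1 = a + 1 := ⟨x.1 - 1, by omega⟩
        obtain ⟨b, hb⟩ : ∃ b, x.2 = b + 1 := ⟨x.2 - 1, by omega⟩
        rw [ha, hb]
        have e1 : 2 * (a + 1) - 1 = 2 * a + 1 := by omega
        rw [e1]
        simp only [Nat.add_sub_cancel]
        nlinarith)
      exact ⟨d, hd0, fun _ _ _ => hd⟩
    · refine ⟨1, one_ne_zero, ?_⟩
      intro h1 h2 h3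
      exact absurd ⟨h1, h2, h3⟩ h
  choose d hd0 hd using hex
  set Φ : MvPolynomial (Fin Δ) ℚ := ∏ x ∈ Finset.Icc 1 nb ×ˢ Finset.Icc 1 Δ, d x with hΦ
  have hΦ0 : Φ ≠ 0 := Finset.prod_ne_zero_iff.mpr fun x _ => hd0 x
  obtain ⟨S, hS1, hS2⟩ := exists_sets Δ Φ hΦ0 k
  refine ⟨S, hS1, ?_⟩
  intro c hc n N₀ h1 h2 h3 h4
  apply hd (n, N₀) h1 h3 h4
  have h5 := hS2 c hc
  rw [hΦ, map_prod, Finset.prod_ne_zero_iff] at h5
  apply h5
  simp only [Finset.mem_product, Finset.mem_Icc]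
  exact ⟨⟨h1, h2⟩, h3, by omega⟩

end Pool.Agent.SNum
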