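import Mathlib
import Pool.Agent.SNum.Dim
import Pool.Agent.SNum.Sets
import Pool.Agent.TNum.Basic
import Pool.Agent.TNum.Res
import Pool.Agent.TNum.Irr

set_option autoImplicit false

namespace Pool.Agent.SNum

open Polynomial Finset Pool.Agent.TNum

theorem dvd_toPoly_of_span {F : ℚ[X]} {M s m : ℕ} {z₀ : ℚ} {P : ℚ[X]}
    {T : Set (Fin (m + 1) × Fin (s + 1) → ℚ)} (hT : Submodule.span ℚ T = VV F M s m)
    (h : ∀ t ∈ T, P ∣ (toPoly m s t).map (evalRingHom z₀)) :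
    ∀ v ∈ VV F M s m, P ∣ (toPoly m s v).map (evalRingHom z₀) := by
  intro v hv
  rw [← hT] at hv
  induction hv using Submodule.span_induction with
  | mem x hx => exact h x hx
  | zero => rw [toPoly_zero, Polynomial.map_zero]; exact dvd_zero _
  | add x y _ _ hx hy => rw [toPoly_add, Polynomial.map_add]; exact dvd_add hx hy
  | smul a x _ hx => rw [toPoly_smul, Polynomial.map_mul]; exact Dvd.dvd.mul_left hx _

theorem int_family (F : ℚ[X]) (M s m : ℕ) :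
    ∃ T : Finset (Fin (m + 1) × Fin (s + 1) → ℤ), (∀ w ∈ T, (fun x => (w x : ℚ)) ∈ VV F M s m) ∧
      ∀ (z₀ : ℚ) (P : ℚ[X]), (∃ v ∈ VV F M s m, ¬ P ∣ (toPoly m s v).map (evalRingHom z₀)) →
        ∃ w ∈ T, ¬ P ∣ (toPoly m s (fun x => (w x : ℚ))).map (evalRingHom z₀) := by
  classical
  obtain ⟨T₀, hT₀⟩ : (VV F M s m).FG := IsNoetherian.noetherian _
  have hden : ∀ t : Fin (m + 1) × Fin (s + 1) → ℚ, ∃ (D : ℤ) (w : Fin (m + 1) × Fin (s + 1) → ℤ),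
      D ≠ 0 ∧ ∀ x, (w x : ℚ) = D * t x := by
    intro t
    obtain ⟨b, hb⟩ := IsLocalization.exist_integer_multiples_of_finite (nonZeroDivisors ℤ) t
    choose w hw using hb
    refine ⟨b, w, nonZeroDivisors.ne_zero b.2, ?_⟩
    intro x
    have := hw x
    simpa using this
  choose D w hD hw using hden
  have hweq : ∀ t, (fun x => (w t x : ℚ)) = (D t : ℚ) • t := by
    intro t
    funext x
    rw [hw, Pi.smul_apply, smul_eq_mul]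
  refine ⟨T₀.image w, ?_, ?_⟩
  · intro w' hw'
    obtain ⟨t, ht, rfl⟩ := Finset.mem_image.mp hw'
    rw [hweq]
    apply Submodule.smul_mem
    rw [← hT₀]
    exact Submodule.subset_span ht
  · intro z₀ P hP
    by_contra hcon
    push Not at hcon
    obtain ⟨v, hv, hvP⟩ := hP
    apply hvP
    apply dvd_toPoly_of_span hT₀ _ v hv
    intro t ht
    have h1 := hcon (w t) (Finset.mem_image_of_mem _ ht)
    rw [hweq, toPoly_smul, Polynomial.map_mul, map_C] at h1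
    have hu : IsUnit (C ((evalRingHom z₀) (C (D t : ℚ))) : ℚ[X]) := by
      rw [isUnit_C]
      simp [hD t]
    exact (hu.dvd_mul_left).mp h1

theorem toPoly_eval {K : Type*} [Field K] {m s : ℕ} (v : Fin (m + 1) × Fin (s + 1) → K) (F : K[X]) :
    (toPoly m s v).eval F = ∑ x : Fin (m + 1) × Fin (s + 1), C (v x) *
      (X ^ (x.1 : ℕ) * F ^ (x.2 : ℕ)) := by
  rw [toPoly, eval_finsetSum]
  apply Finset.sum_congr rfl
  intro x _
  rw [eval_monomial, ← C_mul_X_pow_eq_monomial, mul_assoc]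

theorem toPoly_map {m s : ℕ} (v : Fin (m + 1) × Fin (s + 1) → ℚ) (z₀ : ℚ) :
    (toPoly m s v).map (evalRingHom z₀) = ∑ x : Fin (m + 1) × Fin (s + 1),
      C (v x * z₀ ^ (x.1 : ℕ)) * X ^ (x.2 : ℕ) := by
  rw [toPoly, Polynomial.map_sum]
  apply Finset.sum_congr rfl
  intro x _
  rw [map_monomial, C_mul_X_pow_eq_monomial]
  congr 1
  simp

theorem value_bound {F : ℚ[X]} {M s m : ℕ} {w : Fin (m + 1) × Fin (s + 1) → ℚ}
    (hw : w ∈ VV F M s m) : ∃ B : ℝ, 0 ≤ B ∧ ∀ z : ℝ, 0 ≤ z → z ≤ 1 →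
      |∑ x : Fin (m + 1) × Fin (s + 1), (w x : ℝ) * (z ^ (x.1 : ℕ) * (aeval z F) ^ (x.2 : ℕ))| ≤
        B * z ^ M := by
  rw [mem_VV, toPoly_eval] at hw
  obtain ⟨G, hG⟩ := hw
  refine ⟨∑ i ∈ Finset.range (G.natDegree + 1), |((G.coeff i : ℚ) : ℝ)|,
    Finset.sum_nonneg fun _ _ => abs_nonneg _, ?_⟩
  intro z hz0 hz1
  have h1 : ∑ x : Fin (m + 1) × Fin (s + 1), (w x : ℝ) * (z ^ (x.1 : ℕ) * (aeval z F) ^ (x.2 : ℕ)) =
      z ^ M * aeval z G := by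
    have h2 := congrArg (aeval z) hG
    rw [map_mul, map_pow, aeval_X, map_sum] at h2
    rw [← h2]
    apply Finset.sum_congr rfl
    intro x _
    rw [map_mul, map_mul, map_pow, map_pow, aeval_X, aeval_C]
    simp
  rw [h1, abs_mul, abs_of_nonneg (pow_nonneg hz0 _), mul_comm]
  apply mul_le_mul_of_nonneg_right _ (pow_nonneg hz0 _)
  rw [aeval_eq_sum_range]
  refine (Finset.abs_sum_le_sum_abs _ _).trans ?_
  apply Finset.sum_le_sum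
  intro i _
  rw [Rat.smul_def, abs_mul, abs_pow, abs_of_nonneg hz0]
  exact mul_le_of_le_one_right (abs_nonneg _) (pow_le_one₀ hz0 hz1)

/-- the integral auxiliary polynomial -/
noncomputable def auxT {m s : ℕ} (w : Fin (m + 1) × Fin (s + 1) → ℤ) (v Q p : ℕ) : ℤ[X] :=
  ∑ x : Fin (m + 1) × Fin (s + 1), C (w x * (v : ℤ) ^ (m - x.1) * (Q : ℤ) ^ (s - x.2)) *
    (C (Q : ℤ) * X - C (p : ℤ)) ^ (x.2 : ℕ)

theorem natDegree_auxT {m s : ℕ} (w : Fin (m + 1) × Fin (s + 1) → ℤ) (v Q p : ℕ) :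
    (auxT w v Q p).natDegree ≤ s := by
  rw [auxT]
  apply natDegree_sum_le_of_forall_le
  intro x _
  refine (natDegree_C_mul_le _ _).trans ?_
  refine natDegree_pow_le.trans ?_
  have h1 : (C (Q : ℤ) * X - C (p : ℤ)).natDegree ≤ 1 := by
    refine (natDegree_sub_le _ _).trans (max_le ?_ ?_)
    · exact (natDegree_C_mul_le _ _).trans natDegree_X_le
    · simp
  have h2 := x.2.2
  calc (x.2 : ℕ) * (C (Q : ℤ) * X - C (p : ℤ)).natDegree ≤ x.2 * 1 := Nat.mul_le_mul_left _ h1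
    _ ≤ s := by omega

theorem aeval_auxT {m s : ℕ} (w : Fin (m + 1) × Fin (s + 1) → ℤ) (v Q p : ℕ) (hv : 0 < v)
    (hQ : 0 < Q) (ξ : ℝ) : aeval ξ (auxT w v Q p) = (v : ℝ) ^ m * (Q : ℝ) ^ s *
      ∑ x : Fin (m + 1) × Fin (s + 1), (w x : ℝ) * (((v : ℝ)⁻¹) ^ (x.1 : ℕ) *
        (ξ - p / Q) ^ (x.2 : ℕ)) := by
  have hv' : (v : ℝ) ≠ 0 := by positivity
  have hQ' : (Q : ℝ) ≠ 0 := by positivity
  rw [auxT, map_sum, Finset.mul_sum]
  apply Finset.sum_congr rfl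
  intro x _
  have h1 : (v : ℝ) ^ (m - x.1) = (v : ℝ) ^ m * ((v : ℝ)⁻¹) ^ (x.1 : ℕ) := by
    rw [inv_pow, pow_sub₀ _ hv' (by have := x.1.2; omega)]
  have h2 : (Q : ℝ) ^ (s - x.2) = (Q : ℝ) ^ s * ((Q : ℝ)⁻¹) ^ (x.2 : ℕ) := by
    rw [inv_pow, pow_sub₀ _ hQ' (by have := x.2.2; omega)]
  have h3 : (Q : ℝ) * ξ - p = Q * (ξ - p / Q) := by field_simp
  simp only [map_mul, map_sub, map_pow, aeval_X, map_intCast, eq_intCast, map_natCast]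
  rw [h1, h2, h3, mul_pow, inv_pow (Q : ℝ)]
  field_simp

theorem abs_coeff_linear_pow (Q p : ℕ) (hp : p ≤ Q) (j i : ℕ) :
    |((((C (Q : ℤ) * X - C (p : ℤ)) ^ j : ℤ[X]).coeff i : ℤ) : ℝ)| ≤ (2 * (Q : ℝ)) ^ j := by
  have key : ∀ i, |(((C (Q : ℤ) * X - C (p : ℤ)) ^ j : ℤ[X]).coeff i)| ≤ (2 * (Q : ℤ)) ^ j := by
    induction j with
    | zero =>
      intro i
      rw [pow_zero, pow_zero, coeff_one]
      split_ifs <;> simp
    | succ j ih =>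
      intro i
      have hQ0 : (0 : ℤ) ≤ Q := Int.natCast_nonneg _
      have hpow : (0 : ℤ) ≤ (2 * (Q : ℤ)) ^ j := by positivity
      have hp' : (p : ℤ) ≤ Q := by exact_mod_cast hp
      have e1 : (C (Q : ℤ) * X - C (p : ℤ)) ^ (j + 1) =
          C (Q : ℤ) * ((C (Q : ℤ) * X - C (p : ℤ)) ^ j * X) -
            C (p : ℤ) * (C (Q : ℤ) * X - C (p : ℤ)) ^ j := by ring
      rw [e1, coeff_sub, coeff_C_mul, coeff_C_mul]
      have b1 : |((C (Q : ℤ) * X - C (p : ℤ)) ^ j * X : ℤ[X]).coeff i| ≤ (2 * (Q : ℤ)) ^ j := by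
        cases i with
        | zero => simp
        | succ i => rw [coeff_mul_X]; exact ih i
      have b2 := ih i
      calc |(Q : ℤ) * ((C (Q : ℤ) * X - C (p : ℤ)) ^ j * X : ℤ[X]).coeff i -
            (p : ℤ) * ((C (Q : ℤ) * X - C (p : ℤ)) ^ j : ℤ[X]).coeff i|
          ≤ |(Q : ℤ) * ((C (Q : ℤ) * X - C (p : ℤ)) ^ j * X : ℤ[X]).coeff i| +
            |(p : ℤ) * ((C (Q : ℤ) * X - C (p : ℤ)) ^ j : ℤ[X]).coeff i| := abs_sub _ _
        _ ≤ Q * (2 * (Q : ℤ)) ^ j + p * (2 * (Q : ℤ)) ^ j := by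
            rw [abs_mul, abs_mul, Nat.abs_cast, Nat.abs_cast]
            gcongr
        _ ≤ (2 * (Q : ℤ)) ^ (j + 1) := by
            rw [pow_succ]
            nlinarith
  have h := key i
  rw [← Int.cast_abs]
  exact_mod_cast h

theorem ht_auxT {m s : ℕ} (w : Fin (m + 1) × Fin (s + 1) → ℤ) (v Q p : ℕ) (hv : 0 < v)
    (hQ : 0 < Q) (hp : p ≤ Q) {B : ℝ} (hB : ∀ x, |(w x : ℝ)| ≤ B) :
    (ht (auxT w v Q p) : ℝ) ≤ (((m + 1) * (s + 1) : ℕ) : ℝ) * 2 ^ s * B * (v : ℝ) ^ m * (Q : ℝ) ^ s := by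
  have hB0 : 0 ≤ B := (abs_nonneg _).trans (hB (0, 0))
  have hv1 : (1 : ℝ) ≤ v := by exact_mod_cast hv
  have hQ1 : (1 : ℝ) ≤ Q := by exact_mod_cast hQ
  apply ht_le_real (by positivity)
  intro i
  rw [auxT, finsetSum_coeff, Int.cast_sum]
  refine (Finset.abs_sum_le_sum_abs _ _).trans ?_
  have hterm : ∀ x : Fin (m + 1) × Fin (s + 1),
      |(((C (w x * (v : ℤ) ^ (m - x.1) * (Q : ℤ) ^ (s - x.2)) *
        (C (Q : ℤ) * X - C (p : ℤ)) ^ (x.2 : ℕ) : ℤ[X]).coeff i : ℤ) : ℝ)| ≤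
      2 ^ s * B * (v : ℝ) ^ m * (Q : ℝ) ^ s := by
    intro x
    rw [coeff_C_mul]
    push_cast
    rw [abs_mul, abs_mul, abs_mul, abs_pow, abs_pow, Nat.abs_cast, Nat.abs_cast]
    have h1 := abs_coeff_linear_pow Q p hp x.2 i
    have hx1 := x.1.2
    have hx2 := x.2.2
    have h2 : (v : ℝ) ^ (m - x.1) ≤ (v : ℝ) ^ m := pow_le_pow_right₀ hv1 (by omega)
    have h3 : (2 : ℝ) ^ (x.2 : ℕ) ≤ 2 ^ s := pow_le_pow_right₀ (by norm_num) (by omega)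
    have h4 : (Q : ℝ) ^ (s - x.2) * (Q : ℝ) ^ (x.2 : ℕ) = (Q : ℝ) ^ s := by
      rw [← pow_add]; congr 1; omega
    calc |(w x : ℝ)| * (v : ℝ) ^ (m - x.1) * (Q : ℝ) ^ (s - x.2) *
          |((((C (Q : ℤ) * X - C (p : ℤ)) ^ (x.2 : ℕ) : ℤ[X]).coeff i : ℤ) : ℝ)|
        ≤ B * (v : ℝ) ^ m * (Q : ℝ) ^ (s - x.2) * (2 * (Q : ℝ)) ^ (x.2 : ℕ) := by
          have := hB x
          gcongr
      _ = 2 ^ (x.2 : ℕ) * B * (v : ℝ) ^ m * ((Q : ℝ) ^ (s - x.2) * (Q : ℝ) ^ (x.2 : ℕ)) := by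
          rw [mul_pow]; ring
      _ ≤ 2 ^ s * B * (v : ℝ) ^ m * (Q : ℝ) ^ s := by
          rw [h4]; gcongr
  refine (Finset.sum_le_sum fun x _ => hterm x).trans ?_
  rw [Finset.sum_const, Finset.card_univ, Fintype.card_prod, Fintype.card_fin, Fintype.card_fin,
    nsmul_eq_mul]
  apply le_of_eq; ring

theorem cop_auxT {m s : ℕ} (w : Fin (m + 1) × Fin (s + 1) → ℤ) (v Q p : ℕ) (hv : 0 < v)
    (hQ : 0 < Q) {P : ℤ[X]} (hP : Irreducible P) (hn : P.natDegree ≠ 0)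
    (h : ¬ (P.map (Int.castRingHom ℚ)).comp (X + C ((p : ℚ) / Q)) ∣
      (toPoly m s (fun x => (w x : ℚ))).map (evalRingHom ((v : ℚ)⁻¹))) :
    Cop P (auxT w v Q p) := by
  by_contra hnc
  apply h
  have hdvd := dvd_of_not_cop hP hn hnc
  obtain ⟨G, hG⟩ := hdvd
  have hv' : (v : ℚ) ≠ 0 := by positivity
  have hQ' : (Q : ℚ) ≠ 0 := by positivity
  have h1 : ((auxT w v Q p).map (Int.castRingHom ℚ)).comp (X + C ((p : ℚ) / Q)) =
      C ((v : ℚ) ^ m * (Q : ℚ) ^ s) *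
        (toPoly m s (fun x => (w x : ℚ))).map (evalRingHom ((v : ℚ)⁻¹)) := by
    rw [toPoly_map, auxT, Polynomial.map_sum, Polynomial.sum_comp, Finset.mul_sum]
    apply Finset.sum_congr rfl
    intro x _
    have e1 : (v : ℚ) ^ (m - x.1) = (v : ℚ) ^ m * ((v : ℚ)⁻¹) ^ (x.1 : ℕ) := by
      rw [inv_pow, pow_sub₀ _ hv' (by have := x.1.2; omega)]
    have e2 : (Q : ℚ) ^ (s - x.2) = (Q : ℚ) ^ s * ((Q : ℚ)⁻¹) ^ (x.2 : ℕ) := by
      rw [inv_pow, pow_sub₀ _ hQ' (by have := x.2.2; omega)]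
    have e3 : (C (Q : ℚ) * (X + C ((p : ℚ) / Q)) - C (p : ℚ) : ℚ[X]) = C (Q : ℚ) * X := by
      rw [mul_add, ← C_mul, mul_div_cancel₀ _ hQ']; ring
    simp only [Polynomial.map_mul, Polynomial.map_pow, Polynomial.map_sub, map_C, map_X,
      mul_comp, pow_comp, sub_comp, C_comp, X_comp]
    have e5 : (Int.castRingHom ℚ) (w x * (v : ℤ) ^ (m - (x.1 : ℕ)) * (Q : ℤ) ^ (s - (x.2 : ℕ))) =
        (w x : ℚ) * (v : ℚ) ^ (m - (x.1 : ℕ)) * (Q : ℚ) ^ (s - (x.2 : ℕ)) := by simp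
    have e6 : (Int.castRingHom ℚ) (Q : ℤ) = (Q : ℚ) := by simp
    have e7 : (Int.castRingHom ℚ) (p : ℤ) = (p : ℚ) := by simp
    rw [e5, e6, e7, e3, e1, e2, mul_pow, ← C_pow]
    have e4 : (((Q : ℚ)⁻¹) ^ (x.2 : ℕ)) * (Q : ℚ) ^ (x.2 : ℕ) = 1 := by
      rw [← mul_pow, inv_mul_cancel₀ hQ', one_pow]
    rw [← mul_assoc, ← C_mul, ← mul_assoc (C ((v : ℚ) ^ m * (Q : ℚ) ^ s)), ← C_mul]
    congr 2
    calc (w x : ℚ) * ((v : ℚ) ^ m * ((v : ℚ)⁻¹) ^ (x.1 : ℕ)) * ((Q : ℚ) ^ s * ((Q : ℚ)⁻¹) ^ (x.2 : ℕ)) *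
          (Q : ℚ) ^ (x.2 : ℕ)
        = (v : ℚ) ^ m * (Q : ℚ) ^ s * ((w x : ℚ) * ((v : ℚ)⁻¹) ^ (x.1 : ℕ)) *
          ((((Q : ℚ)⁻¹) ^ (x.2 : ℕ)) * (Q : ℚ) ^ (x.2 : ℕ)) := by ring
      _ = _ := by rw [e4, mul_one]
  have h2 : (P.map (Int.castRingHom ℚ)).comp (X + C ((p : ℚ) / Q)) ∣
      ((auxT w v Q p).map (Int.castRingHom ℚ)).comp (X + C ((p : ℚ) / Q)) := by
    rw [hG, mul_comp]; exact Dvd.intro _ rfl
  rw [h1] at h2
  have hu : IsUnit (C ((v : ℚ) ^ m * (Q : ℚ) ^ s) : ℚ[X]) := by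
    rw [isUnit_C]
    exact IsUnit.mk0 _ (by positivity)
  exact (hu.dvd_mul_left).mp h2

end Pool.Agent.SNum
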