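import Mathlib
import Pool.Agent.SNum.AuxPoly

set_option autoImplicit false

namespace Pool.Agent.SNum

open Polynomial Finset Pool.Agent.TNum

/-- the value of the digit polynomial at `1/v` -/
noncomputable def digVal {Δ : ℕ} (c : Fin Δ → ℕ) (v : ℕ) : ℝ :=
  ∑ i : Fin Δ, (c i : ℝ) * ((v : ℝ)⁻¹) ^ ((i : ℕ) + 1)

theorem aeval_specF {Δ : ℕ} (c : Fin Δ → ℕ) (v : ℕ) :
    aeval ((v : ℝ)⁻¹) (specF fun i => (c i : ℚ)) = digVal c v := by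
  rw [specF, digVal, map_sum]
  apply Finset.sum_congr rfl
  intro i _
  rw [map_mul, map_pow, aeval_X, aeval_C]
  simp

/-- existence of a good auxiliary polynomial -/
def AuxProp {Δ : ℕ} (c : Fin Δ → ℕ) (n N₀ : ℕ) (C₁ : ℝ) : Prop :=
  ∀ v Q p : ℕ, 0 < v → 0 < Q → p ≤ Q → ∀ P : ℤ[X], Irreducible P → P.natDegree = n →
    ∃ T : ℤ[X], T.natDegree ≤ 2 * n - 1 ∧ Cop P T ∧
      (ht T : ℝ) ≤ C₁ * (v : ℝ) ^ (7 * N₀) * (Q : ℝ) ^ (2 * n - 1) ∧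
      ∀ ξ : ℝ, |ξ - p / Q| ≤ 1 → |aeval ξ T| ≤ C₁ * (v : ℝ) ^ (7 * N₀) * (Q : ℝ) ^ (2 * n - 1) *
        (((v : ℝ) ^ (8 * n * N₀))⁻¹ + |ξ - p / Q - digVal c v|)

theorem AuxProp.mono {Δ : ℕ} {c : Fin Δ → ℕ} {n N₀ : ℕ} {C C' : ℝ} (h : AuxProp c n N₀ C)
    (hC : C ≤ C') : AuxProp c n N₀ C' := by
  intro v Q p hv hQ hp P hP hPn
  obtain ⟨T, h1, h2, h3, h4⟩ := h v Q p hv hQ hp P hP hPn
  refine ⟨T, h1, h2, h3.trans ?_, fun ξ hξ => (h4 ξ hξ).trans ?_⟩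
  · gcongr
  · gcongr

theorem digVal_nonneg {Δ : ℕ} (c : Fin Δ → ℕ) (v : ℕ) : 0 ≤ digVal c v := by
  unfold digVal; positivity

theorem digVal_le {Δ : ℕ} (c : Fin Δ → ℕ) (v : ℕ) (hv : 0 < v) :
    digVal c v ≤ ∑ i : Fin Δ, (c i : ℝ) := by
  rw [digVal]
  apply Finset.sum_le_sum
  intro i _
  apply mul_le_of_le_one_right (Nat.cast_nonneg _)
  apply pow_le_one₀ (by positivity)
  apply inv_le_one_of_one_le₀
  exact_mod_cast hv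

theorem auxProp_of_zero {Δ : ℕ} {c : Fin Δ → ℕ} {n N₀ : ℕ} (hn : 1 ≤ n) (hN₀ : 1 ≤ N₀)
    (hZ : ∀ R : ℚ[X][X], zdeg R ≤ N₀ - 1 → R.natDegree ≤ 2 * n - 1 →
      X ^ (8 * n * N₀) ∣ R.eval (specF fun i => (c i : ℚ)) → R = 0) :
    ∃ C : ℕ, AuxProp c n N₀ C := by
  classical
  set F : ℚ[X] := specF fun i => (c i : ℚ) with hF
  set M := 8 * n * N₀ with hM
  set s := 2 * n - 1 with hs
  set m := 7 * N₀ with hm
  obtain ⟨Tf, hTf1, hTf2⟩ := int_family F M s m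
  have hvb : ∀ w : Fin (m + 1) × Fin (s + 1) → ℤ, ∃ B : ℝ, 0 ≤ B ∧ (w ∈ Tf → ∀ z : ℝ, 0 ≤ z → z ≤ 1 →
      |∑ x : Fin (m + 1) × Fin (s + 1), (w x : ℝ) * (z ^ (x.1 : ℕ) * (aeval z F) ^ (x.2 : ℕ))| ≤
        B * z ^ M) := by
    intro w
    by_cases hw : w ∈ Tf
    · obtain ⟨B, hB0, hB⟩ := value_bound (hTf1 w hw)
      refine ⟨B, hB0, fun _ => ?_⟩
      intro z hz0 hz1
      have := hB z hz0 hz1
      simpa using this
    · exact ⟨0, le_rfl, fun h => absurd h hw⟩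
  choose Bw hBw0 hBw using hvb
  set B₁ : ℝ := ∑ w ∈ Tf, Bw w with hB₁
  set W : ℝ := ∑ w ∈ Tf, ∑ x, |(w x : ℝ)| with hW
  have hB₁0 : 0 ≤ B₁ := Finset.sum_nonneg fun w _ => hBw0 w
  have hW0 : 0 ≤ W := Finset.sum_nonneg fun w _ => Finset.sum_nonneg fun x _ => abs_nonneg _
  have hBle : ∀ w ∈ Tf, Bw w ≤ B₁ := fun w hw =>
    Finset.single_le_sum (f := Bw) (fun w _ => hBw0 w) hw
  have hWle : ∀ w ∈ Tf, ∀ x, |(w x : ℝ)| ≤ W := by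
    intro w hw x
    calc |(w x : ℝ)| ≤ ∑ x, |(w x : ℝ)| :=
          Finset.single_le_sum (f := fun x => |(w x : ℝ)|) (fun x _ => abs_nonneg _) (Finset.mem_univ x)
      _ ≤ W := Finset.single_le_sum (f := fun w : Fin (m + 1) × Fin (s + 1) → ℤ => ∑ x, |(w x : ℝ)|)
          (fun w _ => Finset.sum_nonneg fun x _ => abs_nonneg _) hw
  set B₂ : ℝ := 1 + ∑ i : Fin Δ, (c i : ℝ) with hB₂
  have hB₂1 : 1 ≤ B₂ := by
    have : 0 ≤ ∑ i : Fin Δ, (c i : ℝ) := Finset.sum_nonneg fun _ _ => Nat.cast_nonneg _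
    linarith
  set L : ℝ := (((m + 1) * (s + 1) : ℕ) : ℝ) * (W * (s * B₂ ^ s)) with hL
  have hL0 : 0 ≤ L := by positivity
  set H₁ : ℝ := (((m + 1) * (s + 1) : ℕ) : ℝ) * 2 ^ s * W with hH₁
  have hH₁0 : 0 ≤ H₁ := by positivity
  refine ⟨⌈B₁ + L + H₁⌉₊, ?_⟩
  set C₁ : ℝ := ((⌈B₁ + L + H₁⌉₊ : ℕ) : ℝ) with hC₁
  have hCge : B₁ + L + H₁ ≤ C₁ := Nat.le_ceil _
  intro v Q p hv hQ hp P hP hPn
  have hv1 : (1 : ℝ) ≤ v := by exact_mod_cast hv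
  have hQ1 : (1 : ℝ) ≤ Q := by exact_mod_cast hQ
  have hvq : ((v : ℚ)⁻¹) ≠ 0 := by
    apply inv_ne_zero; positivity
  have hPdeg : ((P.map (Int.castRingHom ℚ)).comp (X + C ((p : ℚ) / Q))).natDegree = n := by
    rw [natDegree_comp, natDegree_map_eq_of_injective (RingHom.injective_int _), hPn,
      natDegree_X_add_C, mul_one]
  have hexv := exists_not_dvd (F := F) hn hN₀ hZ hvq hPdeg
  obtain ⟨w, hw, hwP⟩ := hTf2 _ _ hexv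
  refine ⟨auxT w v Q p, natDegree_auxT w v Q p,
    cop_auxT w v Q p hv hQ hP (by omega) hwP, ?_, ?_⟩
  · refine (ht_auxT w v Q p hv hQ hp (hWle w hw)).trans ?_
    have : (((m + 1) * (s + 1) : ℕ) : ℝ) * 2 ^ s * W ≤ C₁ := by linarith
    gcongr
  · intro ξ hξ
    rw [aeval_auxT w v Q p hv hQ]
    set u : ℝ := ξ - p / Q with hu
    set u₀ : ℝ := digVal c v with hu₀
    set z : ℝ := (v : ℝ)⁻¹ with hz
    have hz0 : 0 ≤ z := by positivity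
    have hz1 : z ≤ 1 := inv_le_one_of_one_le₀ hv1
    have hsplit : ∑ x : Fin (m + 1) × Fin (s + 1), (w x : ℝ) * (z ^ (x.1 : ℕ) * u ^ (x.2 : ℕ)) =
        ∑ x : Fin (m + 1) × Fin (s + 1), (w x : ℝ) * (z ^ (x.1 : ℕ) * u₀ ^ (x.2 : ℕ)) +
        ∑ x : Fin (m + 1) × Fin (s + 1), (w x : ℝ) * (z ^ (x.1 : ℕ) * (u ^ (x.2 : ℕ) - u₀ ^ (x.2 : ℕ))) := by
      rw [← Finset.sum_add_distrib]
      apply Finset.sum_congr rfl
      intro x _; ring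
    have hpart1 : |∑ x : Fin (m + 1) × Fin (s + 1), (w x : ℝ) * (z ^ (x.1 : ℕ) * u₀ ^ (x.2 : ℕ))| ≤
        B₁ * z ^ M := by
      have h1 := hBw w hw z hz0 hz1
      rw [hF, aeval_specF, ← hu₀] at h1
      refine h1.trans ?_
      have := hBle w hw
      gcongr
    have hu₀b : |u₀| ≤ B₂ := by
      rw [abs_of_nonneg (digVal_nonneg c v)]
      have := digVal_le c v hv
      linarith
    have hub : |u| ≤ B₂ := hξ.trans hB₂1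
    have hpart2 : |∑ x : Fin (m + 1) × Fin (s + 1), (w x : ℝ) * (z ^ (x.1 : ℕ) *
        (u ^ (x.2 : ℕ) - u₀ ^ (x.2 : ℕ)))| ≤ L * |u - u₀| := by
      refine (Finset.abs_sum_le_sum_abs _ _).trans ?_
      have hterm : ∀ x : Fin (m + 1) × Fin (s + 1),
          |(w x : ℝ) * (z ^ (x.1 : ℕ) * (u ^ (x.2 : ℕ) - u₀ ^ (x.2 : ℕ)))| ≤
          W * (s * B₂ ^ s) * |u - u₀| := by
        intro x
        rw [abs_mul, abs_mul, abs_pow, abs_of_nonneg hz0]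
        have h1 : |u ^ (x.2 : ℕ) - u₀ ^ (x.2 : ℕ)| ≤ |u - u₀| * (x.2 : ℕ) * max |u| |u₀| ^ ((x.2 : ℕ) - 1) :=
          abs_pow_sub_pow_le _ _ _
        have h2 : max |u| |u₀| ^ ((x.2 : ℕ) - 1) ≤ B₂ ^ s := by
          calc max |u| |u₀| ^ ((x.2 : ℕ) - 1) ≤ B₂ ^ ((x.2 : ℕ) - 1) :=
                pow_le_pow_left₀ (le_max_of_le_left (abs_nonneg _)) (max_le hub hu₀b) _
            _ ≤ B₂ ^ s := pow_le_pow_right₀ hB₂1 (by have := x.2.2; omega)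
        have h3 : ((x.2 : ℕ) : ℝ) ≤ s := by
          have := x.2.2
          exact_mod_cast (by omega : (x.2 : ℕ) ≤ s)
        have h4 := hWle w hw x
        have h5 : z ^ (x.1 : ℕ) ≤ 1 := pow_le_one₀ hz0 hz1
        calc |(w x : ℝ)| * (z ^ (x.1 : ℕ) * |u ^ (x.2 : ℕ) - u₀ ^ (x.2 : ℕ)|)
            ≤ W * (1 * (|u - u₀| * s * B₂ ^ s)) := by
              gcongr
              exact h1.trans (by gcongr)
          _ = W * (s * B₂ ^ s) * |u - u₀| := by ring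
      refine (Finset.sum_le_sum fun x _ => hterm x).trans ?_
      rw [Finset.sum_const, Finset.card_univ, Fintype.card_prod, Fintype.card_fin, Fintype.card_fin,
        nsmul_eq_mul, hL]
      apply le_of_eq; ring
    rw [hsplit, abs_mul, abs_of_nonneg (by positivity : (0 : ℝ) ≤ (v : ℝ) ^ m * (Q : ℝ) ^ s)]
    have hzM : z ^ M = ((v : ℝ) ^ M)⁻¹ := by rw [hz, inv_pow]
    have hzM0 : 0 ≤ z ^ M := pow_nonneg hz0 _
    have hB₁C : B₁ ≤ C₁ := by linarith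
    have hLC : L ≤ C₁ := by linarith
    rw [← hzM]
    calc (v : ℝ) ^ m * (Q : ℝ) ^ s * |_ + _| ≤ (v : ℝ) ^ m * (Q : ℝ) ^ s * (B₁ * z ^ M + L * |u - u₀|) := by
          gcongr
          exact (abs_add_le _ _).trans (add_le_add hpart1 hpart2)
      _ ≤ (v : ℝ) ^ m * (Q : ℝ) ^ s * (C₁ * z ^ M + C₁ * |u - u₀|) := by gcongr
      _ = _ := by ring

theorem exists_uniform {α : Type*} (s : Finset α) (p : α → ℕ → Prop)
    (hmono : ∀ a C C', C ≤ C' → p a C → p a C') (h : ∀ a ∈ s, ∃ C, p a C) :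
    ∃ C, ∀ a ∈ s, p a C := by
  classical
  choose! f hf using h
  refine ⟨s.sup f, fun a ha => hmono a (f a) _ (Finset.le_sup ha) (hf a ha)⟩

theorem aux_unif (nb Δ k : ℕ) : ∃ S : Fin Δ → Finset ℕ, (∀ i, (S i).card = k) ∧
    ∃ C₁ : ℕ, ∀ c : Fin Δ → ℕ, (∀ i, c i ∈ S i) → ∀ n N₀ : ℕ, 1 ≤ n → n ≤ nb → 1 ≤ N₀ →
      2 * N₀ ≤ Δ → AuxProp c n N₀ C₁ := by
  classical
  obtain ⟨S, hS1, hS2⟩ := exists_digit_sets nb Δ k
  refine ⟨S, hS1, ?_⟩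
  obtain ⟨C, hC⟩ := exists_uniform (Fintype.piFinset S ×ˢ (Finset.Icc 1 nb ×ˢ Finset.Icc 1 Δ))
    (fun a C => 2 * a.2.2 ≤ Δ → AuxProp a.1 a.2.1 a.2.2 C)
    (fun a C C' hCC h h2 => (h h2).mono (by exact_mod_cast hCC))
    (by
      rintro ⟨c, n, N₀⟩ ha
      simp only [Finset.mem_product, Fintype.mem_piFinset, Finset.mem_Icc] at ha
      by_cases h2 : 2 * N₀ ≤ Δ
      · obtain ⟨C, hC⟩ := auxProp_of_zero ha.2.1.1 ha.2.2.1
          (hS2 c ha.1 n N₀ ha.2.1.1 ha.2.1.2 ha.2.2.1 h2)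
        exact ⟨C, fun _ => hC⟩
      · exact ⟨0, fun h => absurd h h2⟩)
  refine ⟨C, ?_⟩
  intro c hc n N₀ h1 h2 h3 h4
  apply hC (c, n, N₀) _ h4
  simp only [Finset.mem_product, Fintype.mem_piFinset, Finset.mem_Icc]
  exact ⟨hc, ⟨h1, h2⟩, h3, by omega⟩

end Pool.Agent.SNum
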