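import Mathlib
import Pool.Agent.TNum.Basic
import Pool.Agent.TNum.Eval
import Pool.Agent.TNum.Res
import Pool.Agent.TNum.Irr
import Pool.Agent.TNum.Gap

set_option autoImplicit false

namespace Pool.Agent.SNum

open Polynomial Finset Pool.Agent.TNum

theorem mvt_poly (P : ℤ[X]) {a b : ℝ} (hab : a < b) : ∃ η : ℝ, a < η ∧ η < b ∧
    |aeval η (derivative P)| * (b - a) ≤ |aeval a P| + |aeval b P| := by
  obtain ⟨η, hη, h⟩ := exists_hasDerivAt_eq_slope (fun x => aeval x P)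
    (fun x => aeval x (derivative P)) hab (P.continuous_aeval.continuousOn)
    (fun x _ => P.hasDerivAt_aeval x)
  refine ⟨η, hη.1, hη.2, ?_⟩
  have hba : 0 < b - a := sub_pos.mpr hab
  have h1 : aeval η (derivative P) * (b - a) = aeval b P - aeval a P := by
    rw [h, div_mul_cancel₀ _ hba.ne']
  calc |aeval η (derivative P)| * (b - a) = |aeval η (derivative P) * (b - a)| := by
        rw [abs_mul, abs_of_pos hba]
    _ = |aeval b P - aeval a P| := by rw [h1]
    _ ≤ |aeval b P| + |aeval a P| := abs_sub _ _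
    _ = _ := by ring

theorem ht_derivative_le (P : ℤ[X]) {n : ℕ} (hn : P.natDegree ≤ n) :
    (ht (derivative P) : ℝ) ≤ n * ht P := by
  apply ht_le_real (by positivity)
  intro i
  rw [coeff_derivative]
  push_cast
  rw [abs_mul]
  by_cases hi : i + 1 ≤ n
  · have h1 : |(i : ℝ) + 1| ≤ n := by
      rw [abs_of_nonneg (by positivity)]
      exact_mod_cast hi
    have h2 := abs_coeff_le_ht P (i + 1)
    calc |(P.coeff (i + 1) : ℝ)| * |(i : ℝ) + 1| ≤ ht P * n := by gcongr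
      _ = _ := by ring
  · rw [coeff_eq_zero_of_natDegree_lt (by omega)]
    simp only [Int.cast_zero, abs_zero, zero_mul]
    positivity

theorem finish {C V H : ℝ} {n : ℕ} (hV : C ^ 2 < V) (hV0 : 0 < V)
    (hHV : H ^ (4 * n) < V) (h : 1 ≤ C * (H ^ (2 * n) * V⁻¹)) : False := by
  have h1 : V ≤ C * H ^ (2 * n) := by
    rw [← mul_assoc, ← div_eq_mul_inv, le_div_iff₀ hV0, one_mul] at h
    exact h
  have h2 : V ^ 2 ≤ C ^ 2 * H ^ (4 * n) := by
    calc V ^ 2 ≤ (C * H ^ (2 * n)) ^ 2 := pow_le_pow_left₀ hV0.le h1 2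
      _ = C ^ 2 * H ^ (4 * n) := by rw [mul_pow, ← pow_mul]; congr 2; ring
  have h3 : C ^ 2 * H ^ (4 * n) ≤ C ^ 2 * V := by gcongr
  have h4 : V * V ≤ C ^ 2 * V := by nlinarith
  have h5 : V ≤ C ^ 2 := le_of_mul_le_mul_right h4 hV0
  linarith

theorem two_bad {n : ℕ} (hn : 1 ≤ n) (Y : ℝ) (hY : 1 ≤ Y) : ∃ V₀ : ℕ, ∀ v : ℕ, V₀ ≤ v →
    ∀ l : ℕ, 1 ≤ l → ∀ P P' : ℤ[X], Irreducible P → Irreducible P' → P.natDegree = n →
    P'.natDegree = n → (ht P) ^ (4 * n) < v ^ l → (ht P') ^ (4 * n) < v ^ l →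
    ∀ ξ ξ' : ℝ, |ξ| ≤ 3 → |ξ'| ≤ 3 → |ξ - ξ'| ≤ Y * ((v : ℝ) ^ l)⁻¹ →
    ((v : ℝ) ^ l)⁻¹ / 2 ≤ |ξ - ξ'| → |aeval ξ P| < ((v : ℝ) ^ (2 * l))⁻¹ →
    |aeval ξ' P'| < ((v : ℝ) ^ (2 * l))⁻¹ → False := by
  set K : ℝ := (n + 1) * n * 3 ^ n with hK
  have hK0 : 0 < K := by positivity
  set C : ℝ := ((n + n).factorial : ℝ) * (n + n) * 3 ^ (n + n) with hC
  have hC0 : 0 < C := by positivity
  have hC1 : 1 ≤ C := by
    have h1 : (1 : ℝ) ≤ ((n + n).factorial : ℝ) := by exact_mod_cast (Nat.factorial_pos _)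
    have h2 : (1 : ℝ) ≤ (n : ℝ) + n := by
      have : (1 : ℝ) ≤ n := by exact_mod_cast hn
      linarith
    have h3 : (1 : ℝ) ≤ 3 ^ (n + n) := one_le_pow₀ (by norm_num)
    calc (1 : ℝ) = 1 * 1 * 1 := by ring
      _ ≤ _ := by rw [hC]; gcongr
  -- constants
  set C₁ : ℝ := C * (4 * (n : ℝ) ^ (n + 1) + (1 + K * Y) * (n : ℝ) ^ (n + 1)) + 4 with hC₁
  set C₂ : ℝ := C * (2 + K * Y) with hC₂
  have hn1 : (1 : ℝ) ≤ n := by exact_mod_cast hn
  have hC₁0 : 0 ≤ C₁ := by positivity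
  have hC₂0 : 0 ≤ C₂ := by positivity
  refine ⟨⌈C₁ ^ 2 + C₂ ^ 2⌉₊ + 1, ?_⟩
  intro v hv l hl P P' hP hP' hPn hPn' hPv hPv' ξ ξ' hξ hξ' hY1 hY2 hPξ hPξ'
  have hvR : C₁ ^ 2 + C₂ ^ 2 < v := by
    have h1 : C₁ ^ 2 + C₂ ^ 2 ≤ ⌈C₁ ^ 2 + C₂ ^ 2⌉₊ := Nat.le_ceil _
    have h2 : ((⌈C₁ ^ 2 + C₂ ^ 2⌉₊ + 1 : ℕ) : ℝ) ≤ v := by exact_mod_cast hv
    push_cast at h2
    linarith
  have hv1 : (1 : ℝ) ≤ v := by
    have : 1 ≤ v := by omega
    exact_mod_cast this
  set V : ℝ := (v : ℝ) ^ l with hV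
  have hvV : (v : ℝ) ≤ V := le_self_pow₀ hv1 (by omega)
  have hV1 : 1 ≤ V := hv1.trans hvV
  have hV0 : 0 < V := by linarith
  have hVi1 : V⁻¹ ≤ 1 := inv_le_one_of_one_le₀ hV1
  have hVi0 : 0 < V⁻¹ := by positivity
  have h2l : ((v : ℝ) ^ (2 * l))⁻¹ = V⁻¹ * V⁻¹ := by
    rw [← mul_inv]; congr 1; rw [hV, ← pow_add]; congr 1; ring
  rw [h2l] at hPξ hPξ'
  have hVV : V⁻¹ * V⁻¹ ≤ V⁻¹ := mul_le_of_le_one_left hVi0.le hVi1
  have hH1 : (1 : ℝ) ≤ ht P := by exact_mod_cast one_le_ht hP.ne_zero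
  have hH1' : (1 : ℝ) ≤ ht P' := by exact_mod_cast one_le_ht hP'.ne_zero
  have hPV : (ht P : ℝ) ^ (4 * n) < V := by rw [hV]; exact_mod_cast hPv
  have hPV' : (ht P' : ℝ) ^ (4 * n) < V := by rw [hV]; exact_mod_cast hPv'
  have hsq1 := sq_nonneg C₁
  have hsq2 := sq_nonneg C₂
  have hC₁V : C₁ ^ 2 < V := by linarith
  have hC₂V : C₂ ^ 2 < V := by linarith
  by_cases hsame : P' = P ∨ P' = -P
  · -- same polynomial
    have hPξ2 : |aeval ξ' P| < V⁻¹ * V⁻¹ := by
      rcases hsame with h | h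
      · rwa [h] at hPξ'
      · rw [h, map_neg, abs_neg] at hPξ'; exact hPξ'
    have hne : ξ ≠ ξ' := by
      rintro rfl
      rw [sub_self, abs_zero] at hY2
      linarith
    obtain ⟨η, hη1, hη2, hη3⟩ : ∃ η : ℝ, |η| ≤ 3 ∧ |η - ξ| ≤ |ξ - ξ'| ∧
        |aeval η (derivative P)| * |ξ - ξ'| ≤ |aeval ξ P| + |aeval ξ' P| := by
      rcases lt_or_gt_of_ne hne with h | h
      · obtain ⟨η, g1, g2, g3⟩ := mvt_poly P h
        refine ⟨η, ?_, ?_, ?_⟩
        · rw [abs_le] at hξ hξ' ⊢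
          constructor <;> linarith
        · rw [abs_of_pos (by linarith), abs_of_neg (by linarith)]; linarith
        · rw [abs_of_neg (by linarith : ξ - ξ' < 0)]
          calc |aeval η (derivative P)| * -(ξ - ξ') = |aeval η (derivative P)| * (ξ' - ξ) := by ring
            _ ≤ _ := g3
      · obtain ⟨η, g1, g2, g3⟩ := mvt_poly P h
        refine ⟨η, ?_, ?_, ?_⟩
        · rw [abs_le] at hξ hξ' ⊢
          constructor <;> linarith
        · rw [abs_of_neg (by linarith), abs_of_pos (by linarith)]; linarith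
        · rw [abs_of_pos (by linarith : 0 < ξ - ξ')]
          linarith
    have hder : |aeval η (derivative P)| ≤ 4 * V⁻¹ := by
      have h1 : |aeval η (derivative P)| * (V⁻¹ / 2) ≤ 2 * (V⁻¹ * V⁻¹) := by
        calc |aeval η (derivative P)| * (V⁻¹ / 2) ≤ |aeval η (derivative P)| * |ξ - ξ'| := by gcongr
          _ ≤ _ := hη3
          _ ≤ 2 * (V⁻¹ * V⁻¹) := by linarith
      have h2 : |aeval η (derivative P)| * V⁻¹ ≤ (4 * V⁻¹) * V⁻¹ := by linarith
      exact le_of_mul_le_mul_right h2 hVi0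
    have hPη : |aeval η P| ≤ (1 + K * Y) * ht P * V⁻¹ := by
      have h1 := abs_aeval_sub_le P hPn.le (by norm_num : (1 : ℝ) ≤ 3) hη1 hξ
      rw [← hK] at h1
      have h2 : |aeval η P| ≤ |aeval η P - aeval ξ P| + |aeval ξ P| := by
        have := abs_sub_abs_le_abs_sub (aeval η P) (aeval ξ P)
        linarith
      have h3 : K * ht P * |η - ξ| ≤ K * ht P * (Y * V⁻¹) := by
        gcongr
        exact hη2.trans hY1
      have h4 : V⁻¹ ≤ ht P * V⁻¹ := le_mul_of_one_le_left hVi0.le hH1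
      calc |aeval η P| ≤ K * ht P * (Y * V⁻¹) + V⁻¹ := by linarith
        _ ≤ K * ht P * (Y * V⁻¹) + ht P * V⁻¹ := by linarith
        _ = _ := by ring
    rcases Nat.lt_or_ge n 2 with hn2 | hn2
    · -- degree one
      have hn1' : n = 1 := by omega
      have hdeg0 : (derivative P).natDegree = 0 := by
        have := natDegree_derivative_lt (p := P) (by omega)
        omega
      obtain ⟨a, ha⟩ := natDegree_eq_zero.mp hdeg0
      have ha0 : a ≠ 0 := by
        rintro rfl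
        have h0 : derivative P = 0 := by rw [← ha]; simp
        have := derivative_eq_zero.mp h0
        omega
      rw [← ha, aeval_C] at hder
      have h1 : (1 : ℝ) ≤ |(algebraMap ℤ ℝ) a| := by
        simp only [algebraMap_int_eq, eq_intCast]
        rw [← Int.cast_abs]
        exact_mod_cast Int.one_le_abs ha0
      have h2 : 1 ≤ 4 * V⁻¹ := h1.trans hder
      have h3 : V ≤ 4 := by
        rw [← div_eq_mul_inv, le_div_iff₀ hV0, one_mul] at h2
        exact h2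
      have h4 : (4 : ℝ) ≤ C₁ := by
        rw [hC₁]
        have : 0 ≤ C * (4 * (n : ℝ) ^ (n + 1) + (1 + K * Y) * (n : ℝ) ^ (n + 1)) := by positivity
        linarith
      have h5 : (4 : ℝ) * 4 ≤ C₁ * C₁ := mul_le_mul h4 h4 (by norm_num) hC₁0
      have h6 : C₁ ^ 2 = C₁ * C₁ := sq C₁
      linarith
    · -- degree at least two
      have hdd : (derivative P).natDegree < P.natDegree := natDegree_derivative_lt (by omega)
      have hdd' : (derivative P).natDegree = n - 1 := by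
        rw [natDegree_derivative, hPn]
      have hder0 : derivative P ≠ 0 := by
        intro h0
        have := derivative_eq_zero.mp h0
        omega
      have hcop : Cop P (derivative P) := by
        by_contra hnc
        have h1 := dvd_of_not_cop hP (by omega) hnc
        have hinj : Function.Injective (Int.castRingHom ℚ) := RingHom.injective_int _
        have h2 := natDegree_le_of_dvd h1 ((Polynomial.map_ne_zero_iff hinj).mpr hder0)
        rw [natDegree_map_eq_of_injective hinj, natDegree_map_eq_of_injective hinj] at h2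
        omega
      have key := res_bound P (derivative P) (by omega) (by omega) hcop η 3 (by norm_num) hη1
      rw [hdd', hPn] at key
      have hhd := ht_derivative_le P hPn.le
      set H : ℝ := (ht P : ℝ) with hH
      have hH0 : 0 ≤ H := by linarith
      have hhd0 : (0 : ℝ) ≤ (ht (derivative P) : ℝ) := Nat.cast_nonneg _
      have t1 : |aeval η (derivative P)| * (ht (derivative P) : ℝ) ^ (n - 1) * H ^ (n - 1) ≤
          4 * (n : ℝ) ^ (n + 1) * (H ^ (2 * n) * V⁻¹) := by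
        calc |aeval η (derivative P)| * (ht (derivative P) : ℝ) ^ (n - 1) * H ^ (n - 1)
            ≤ (4 * V⁻¹) * (n * H) ^ (n - 1) * H ^ (n - 1) := by gcongr
          _ = 4 * (n : ℝ) ^ (n - 1) * (H ^ (n - 1) * H ^ (n - 1)) * V⁻¹ := by rw [mul_pow]; ring
          _ ≤ 4 * (n : ℝ) ^ (n + 1) * H ^ (2 * n) * V⁻¹ := by
              rw [← pow_add]
              have e1 : (n : ℝ) ^ (n - 1) ≤ (n : ℝ) ^ (n + 1) := pow_le_pow_right₀ hn1 (by omega)
              have e2 : H ^ (n - 1 + (n - 1)) ≤ H ^ (2 * n) := pow_le_pow_right₀ hH1 (by omega)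
              gcongr
          _ = _ := by ring
      have t2 : |aeval η P| * H ^ (n - 1 - 1) * (ht (derivative P) : ℝ) ^ n ≤
          (1 + K * Y) * (n : ℝ) ^ (n + 1) * (H ^ (2 * n) * V⁻¹) := by
        calc |aeval η P| * H ^ (n - 1 - 1) * (ht (derivative P) : ℝ) ^ n
            ≤ ((1 + K * Y) * H * V⁻¹) * H ^ (n - 1 - 1) * (n * H) ^ n := by gcongr
          _ = (1 + K * Y) * (n : ℝ) ^ n * (H * H ^ (n - 1 - 1) * H ^ n) * V⁻¹ := by
              rw [mul_pow]; ring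
          _ ≤ (1 + K * Y) * (n : ℝ) ^ (n + 1) * H ^ (2 * n) * V⁻¹ := by
              have e1 : (n : ℝ) ^ n ≤ (n : ℝ) ^ (n + 1) := pow_le_pow_right₀ hn1 (by omega)
              have e2 : H * H ^ (n - 1 - 1) * H ^ n ≤ H ^ (2 * n) := by
                rw [← pow_succ', ← pow_add]
                exact pow_le_pow_right₀ hH1 (by omega)
              gcongr
          _ = _ := by ring
      have hfac : ((n + (n - 1)).factorial : ℝ) * ((n : ℝ) + ((n - 1 : ℕ) : ℝ)) * 3 ^ (n + (n - 1)) ≤ C := by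
        rw [hC]
        have e1 : ((n + (n - 1)).factorial : ℝ) ≤ ((n + n).factorial : ℝ) := by
          exact_mod_cast Nat.factorial_le (by omega)
        have e2 : (n : ℝ) + ((n - 1 : ℕ) : ℝ) ≤ n + n := by
          have : ((n - 1 : ℕ) : ℝ) ≤ n := by exact_mod_cast Nat.sub_le _ _
          linarith
        have e3 : (3 : ℝ) ^ (n + (n - 1)) ≤ 3 ^ (n + n) := pow_le_pow_right₀ (by norm_num) (by omega)
        gcongr
      have hfin : 1 ≤ C₁ * (H ^ (2 * n) * V⁻¹) := by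
        refine key.trans ?_
        have hnn : 0 ≤ |aeval η (derivative P)| * (ht (derivative P) : ℝ) ^ (n - 1) * H ^ (n - 1) +
            |aeval η P| * H ^ (n - 1 - 1) * (ht (derivative P) : ℝ) ^ n := by positivity
        calc _ ≤ C * (|aeval η (derivative P)| * (ht (derivative P) : ℝ) ^ (n - 1) * H ^ (n - 1) +
            |aeval η P| * H ^ (n - 1 - 1) * (ht (derivative P) : ℝ) ^ n) := by
              exact mul_le_mul_of_nonneg_right hfac hnn
          _ ≤ C * (4 * (n : ℝ) ^ (n + 1) * (H ^ (2 * n) * V⁻¹) +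
            (1 + K * Y) * (n : ℝ) ^ (n + 1) * (H ^ (2 * n) * V⁻¹)) := by gcongr
          _ = (C₁ - 4) * (H ^ (2 * n) * V⁻¹) := by rw [hC₁]; ring
          _ ≤ C₁ * (H ^ (2 * n) * V⁻¹) := by
              have : 0 ≤ H ^ (2 * n) * V⁻¹ := by positivity
              exact mul_le_mul_of_nonneg_right (by linarith) this
      exact finish hC₁V hV0 hPV hfin
  · push Not at hsame
    have hcop : Cop P P' := cop_of_ne hP hP' (by omega) (by omega) hsame.1 hsame.2
    have key := res_bound P P' (by omega) (by omega) hcop ξ 3 (by norm_num) hξ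
    rw [hPn, hPn', ← hC] at key
    set H : ℝ := (ht P : ℝ) with hH
    set H' : ℝ := (ht P' : ℝ) with hH'
    set Hm : ℝ := max H H' with hHm
    have hm1 : H ≤ Hm := le_max_left _ _
    have hm2 : H' ≤ Hm := le_max_right _ _
    have hm0 : 0 ≤ Hm := by linarith
    have hm1' : 1 ≤ Hm := hH1.trans hm1
    have hH0 : 0 ≤ H := by linarith
    have hH0' : 0 ≤ H' := by linarith
    have hmV : Hm ^ (4 * n) < V := by
      rcases le_total H H' with h | h
      · rw [hHm, max_eq_right h]; exact hPV'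
      · rw [hHm, max_eq_left h]; exact hPV
    have hP'ξ : |aeval ξ P'| ≤ (1 + K * Y) * Hm * V⁻¹ := by
      have h1 := abs_aeval_sub_le P' hPn'.le (by norm_num : (1 : ℝ) ≤ 3) hξ hξ'
      rw [← hK, ← hH'] at h1
      have h2 : |aeval ξ P'| ≤ |aeval ξ P' - aeval ξ' P'| + |aeval ξ' P'| := by
        have := abs_sub_abs_le_abs_sub (aeval ξ P') (aeval ξ' P')
        linarith
      have h3 : K * H' * |ξ - ξ'| ≤ K * Hm * (Y * V⁻¹) := by
        gcongr
      have h4 : V⁻¹ ≤ Hm * V⁻¹ := le_mul_of_one_le_left hVi0.le hm1'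
      calc |aeval ξ P'| ≤ K * Hm * (Y * V⁻¹) + V⁻¹ := by linarith
        _ ≤ K * Hm * (Y * V⁻¹) + Hm * V⁻¹ := by linarith
        _ = _ := by ring
    have hPξ3 : |aeval ξ P| ≤ V⁻¹ := by linarith
    have t1 : |aeval ξ P'| * H' ^ (n - 1) * H ^ n ≤ (1 + K * Y) * (Hm ^ (2 * n) * V⁻¹) := by
      calc |aeval ξ P'| * H' ^ (n - 1) * H ^ n
          ≤ ((1 + K * Y) * Hm * V⁻¹) * Hm ^ (n - 1) * Hm ^ n := by gcongr
        _ = (1 + K * Y) * (Hm * Hm ^ (n - 1) * Hm ^ n) * V⁻¹ := by ring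
        _ ≤ (1 + K * Y) * Hm ^ (2 * n) * V⁻¹ := by
            have e2 : Hm * Hm ^ (n - 1) * Hm ^ n ≤ Hm ^ (2 * n) := by
              rw [← pow_succ', ← pow_add]
              exact pow_le_pow_right₀ hm1' (by omega)
            gcongr
        _ = _ := by ring
    have t2 : |aeval ξ P| * H ^ (n - 1) * H' ^ n ≤ 1 * (Hm ^ (2 * n) * V⁻¹) := by
      calc |aeval ξ P| * H ^ (n - 1) * H' ^ n
          ≤ V⁻¹ * Hm ^ (n - 1) * Hm ^ n := by gcongr
        _ = (Hm ^ (n - 1) * Hm ^ n) * V⁻¹ := by ring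
        _ ≤ Hm ^ (2 * n) * V⁻¹ := by
            have e2 : Hm ^ (n - 1) * Hm ^ n ≤ Hm ^ (2 * n) := by
              rw [← pow_add]
              exact pow_le_pow_right₀ hm1' (by omega)
            gcongr
        _ = _ := by ring
    have hfin : 1 ≤ C₂ * (Hm ^ (2 * n) * V⁻¹) := by
      refine key.trans ?_
      calc C * (|aeval ξ P'| * H' ^ (n - 1) * H ^ n + |aeval ξ P| * H ^ (n - 1) * H' ^ n)
          ≤ C * ((1 + K * Y) * (Hm ^ (2 * n) * V⁻¹) + 1 * (Hm ^ (2 * n) * V⁻¹)) := by gcongr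
        _ = C₂ * (Hm ^ (2 * n) * V⁻¹) := by rw [hC₂]; ring
    exact finish hC₂V hV0 hmV hfin

end Pool.Agent.SNum
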