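import Mathlib
import Pool.Agent.SNum.TwoBad

set_option autoImplicit false

namespace Pool.Agent.SNum

open Polynomial Finset Pool.Agent.TNum

/-- the exponent bound -/
def EE (n : ℕ) : ℕ := 200 * n + 40000

/-- partial sums of the digit expansion -/
noncomputable def pos (x : ℝ) (v : ℕ) (c : ℕ → ℕ) (i : ℕ) : ℝ :=
  x + ∑ j ∈ Finset.range i, (c j : ℝ) * ((v : ℝ)⁻¹) ^ (j + 1)

/-- level `l` is not bad -/
def Lev (nb v : ℕ) (x : ℝ) (c : ℕ → ℕ) (l : ℕ) : Prop :=
  ∀ n : ℕ, 1 ≤ n → n ≤ nb → ∀ P : ℤ[X], Irreducible P → P.natDegree = n →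
    v ^ (2 * l) ≤ (ht P) ^ (EE n) → (ht P) ^ (EE n) < v ^ (2 * (l + 1)) →
    ∀ ξ : ℝ, pos x v c l ≤ ξ → ξ ≤ pos x v c l + ((v : ℝ) ^ l)⁻¹ / 2 →
      (((ht P : ℝ)) ^ (EE n))⁻¹ ≤ |aeval ξ P|

theorem pos_congr {x : ℝ} {v : ℕ} {c c' : ℕ → ℕ} {i : ℕ} (h : ∀ j < i, c j = c' j) :
    pos x v c i = pos x v c' i := by
  unfold pos
  congr 1
  apply Finset.sum_congr rfl
  intro j hj
  rw [h j (Finset.mem_range.mp hj)]

theorem Lev_congr {nb v : ℕ} {x : ℝ} {c c' : ℕ → ℕ} {l : ℕ} (h : ∀ j < l, c j = c' j)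
    (hL : Lev nb v x c l) : Lev nb v x c' l := by
  unfold Lev at hL ⊢
  rw [← pos_congr h]
  exact hL

theorem geom_tail (v : ℕ) (hv : 2 ≤ v) (Xm : ℕ) (c : ℕ → ℕ) (hc : ∀ j, c j ≤ Xm) (l i : ℕ) :
    ∑ j ∈ Finset.range i, (c (l + j) : ℝ) * ((v : ℝ)⁻¹) ^ (l + j + 1) ≤
      2 * Xm * ((v : ℝ)⁻¹) ^ (l + 1) := by
  have hv2 : (2 : ℝ) ≤ v := by exact_mod_cast hv
  set z : ℝ := (v : ℝ)⁻¹ with hz
  have hz0 : 0 < z := by positivity
  have hz1 : z ≤ 1 / 2 := by
    rw [hz, inv_eq_one_div]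
    exact one_div_le_one_div_of_le (by norm_num) hv2
  have key : ∑ j ∈ Finset.range i, (c (l + j) : ℝ) * z ^ (l + j + 1) ≤
      2 * Xm * z ^ (l + 1) * (1 - (1 / 2) ^ i) := by
    induction i with
    | zero => simp
    | succ i ih =>
      rw [Finset.sum_range_succ]
      have h1 : (c (l + i) : ℝ) ≤ Xm := by exact_mod_cast hc _
      have h2 : z ^ (l + i + 1) ≤ z ^ (l + 1) * (1 / 2) ^ i := by
        have e : l + i + 1 = (l + 1) + i := by ring
        rw [e, pow_add]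
        have : z ^ i ≤ (1 / 2) ^ i := pow_le_pow_left₀ hz0.le hz1 i
        gcongr
      have h3 : (c (l + i) : ℝ) * z ^ (l + i + 1) ≤ Xm * (z ^ (l + 1) * (1 / 2) ^ i) := by
        have : 0 ≤ z ^ (l + i + 1) := by positivity
        gcongr
      calc _ ≤ 2 * Xm * z ^ (l + 1) * (1 - (1 / 2) ^ i) + Xm * (z ^ (l + 1) * (1 / 2) ^ i) :=
            add_le_add ih h3
        _ = 2 * Xm * z ^ (l + 1) * (1 - (1 / 2) ^ (i + 1)) := by rw [pow_succ]; ring
  refine key.trans ?_
  have h1 : 0 ≤ 2 * (Xm : ℝ) * z ^ (l + 1) := by positivity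
  have h2 : (0 : ℝ) ≤ (1 / 2) ^ i := by positivity
  nlinarith

theorem pos_le {x : ℝ} {v : ℕ} (hv : 2 ≤ v) {Xm : ℕ} {c : ℕ → ℕ} (hc : ∀ j, c j ≤ Xm) (l i : ℕ) :
    pos x v c (l + i) ≤ pos x v c l + 2 * Xm * ((v : ℝ)⁻¹) ^ (l + 1) := by
  have h1 := geom_tail v hv Xm c hc l i
  unfold pos
  rw [Finset.sum_range_add]
  linarith

theorem le_pos {x : ℝ} {v : ℕ} {c : ℕ → ℕ} (l i : ℕ) : pos x v c l ≤ pos x v c (l + i) := by
  unfold pos
  rw [Finset.sum_range_add]
  have : 0 ≤ ∑ j ∈ Finset.range i, (c (l + j) : ℝ) * ((v : ℝ)⁻¹) ^ (l + j + 1) :=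
    Finset.sum_nonneg fun j _ => by positivity
  linarith

/-- height bound at level `l` -/
theorem ht_level {n l v h : ℕ} (hl : 1 ≤ l) (hn : 1 ≤ n) (hh : 1 ≤ h)
    (h2 : h ^ (EE n) < v ^ (2 * (l + 1))) : h ^ (4 * n) < v ^ l := by
  have hv : 1 ≤ v := by
    by_contra h0
    have : v = 0 := by omega
    rw [this, zero_pow (by omega)] at h2
    omega
  have h1 : (h ^ (4 * n)) ^ 4 < (v ^ l) ^ 4 := by
    rw [← pow_mul, ← pow_mul]
    calc h ^ (4 * n * 4) ≤ h ^ (EE n) := Nat.pow_le_pow_right hh (by unfold EE; omega)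
      _ < v ^ (2 * (l + 1)) := h2
      _ ≤ v ^ (l * 4) := Nat.pow_le_pow_right hv (by omega)
  exact lt_of_pow_lt_pow_left₀ 4 (Nat.zero_le _) h1

theorem avoid (nb Xm : ℕ) : ∃ V₀ : ℕ, ∀ v : ℕ, V₀ ≤ v → ∀ x : ℝ, 0 ≤ x → x ≤ 1 →
    ∀ S : ℕ → Finset ℕ, (∀ j, (S j).card = nb + 1) → (∀ j, ∀ t ∈ S j, t ≤ Xm) →
    ∀ i : ℕ, ∃ c : ℕ → ℕ, (∀ j, c j ∈ S j) ∧ ∀ l, 1 ≤ l → l ≤ i → Lev nb v x c l := by
  classical
  have hex : ∀ n : ℕ, ∃ V : ℕ, 1 ≤ n → ∀ v : ℕ, V ≤ v →
    ∀ l : ℕ, 1 ≤ l → ∀ P P' : ℤ[X], Irreducible P → Irreducible P' → P.natDegree = n →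
    P'.natDegree = n → (ht P) ^ (4 * n) < v ^ l → (ht P') ^ (4 * n) < v ^ l →
    ∀ ξ ξ' : ℝ, |ξ| ≤ 3 → |ξ'| ≤ 3 → |ξ - ξ'| ≤ ((Xm : ℝ) + 1) * ((v : ℝ) ^ l)⁻¹ →
    ((v : ℝ) ^ l)⁻¹ / 2 ≤ |ξ - ξ'| → |aeval ξ P| < ((v : ℝ) ^ (2 * l))⁻¹ →
    |aeval ξ' P'| < ((v : ℝ) ^ (2 * l))⁻¹ → False := by
    intro n
    by_cases hn : 1 ≤ n
    · obtain ⟨V, hV⟩ := two_bad hn ((Xm : ℝ) + 1) (by
        have : (0 : ℝ) ≤ Xm := Nat.cast_nonneg _
        linarith)
      exact ⟨V, fun _ => hV⟩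
    · exact ⟨0, fun h => absurd h hn⟩
  choose V hV using hex
  refine ⟨(Finset.range (nb + 1)).sup V + 4 * Xm + 4, ?_⟩
  intro v hv x hx0 hx1 S hcard hXm i
  have hv2 : 2 ≤ v := by omega
  have hv4 : 4 * Xm + 4 ≤ v := by omega
  have hvR : 4 * (Xm : ℝ) + 4 ≤ v := by exact_mod_cast hv4
  have hv1R : (1 : ℝ) ≤ v := by
    have : (0 : ℝ) ≤ Xm := Nat.cast_nonneg _
    linarith
  have hXm0 : (0 : ℝ) ≤ Xm := Nat.cast_nonneg _
  induction i with
  | zero =>
    have hne : ∀ j, ∃ t, t ∈ S j := by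
      intro j
      have : 0 < (S j).card := by rw [hcard]; omega
      exact Finset.card_pos.mp this
    choose c hc using hne
    exact ⟨c, hc, fun l h1 h2 => by omega⟩
  | succ i ih =>
    obtain ⟨c, hcS, hcL⟩ := ih
    have hupd : ∀ t, ∀ j < i, c j = Function.update c i t j := by
      intro t j hj
      rw [Function.update_of_ne (by omega)]
    by_cases hgood : ∃ t ∈ S i, Lev nb v x (Function.update c i t) (i + 1)
    · obtain ⟨t, ht, hL⟩ := hgood
      refine ⟨Function.update c i t, ?_, ?_⟩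
      · intro j
        by_cases hj : j = i
        · subst hj; simpa using ht
        · rw [Function.update_of_ne hj]; exact hcS j
      · intro l hl1 hl2
        rcases Nat.lt_or_ge l (i + 1) with h | h
        · exact Lev_congr (fun j hj => hupd t j (by omega)) (hcL l hl1 (by omega))
        · have : l = i + 1 := by omega
          rw [this]; exact hL
    · exfalso
      push Not at hgood
      have hbad : ∀ t ∈ S i, ∃ (n : ℕ) (P : ℤ[X]) (ξ : ℝ), 1 ≤ n ∧ n ≤ nb ∧ Irreducible P ∧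
          P.natDegree = n ∧ v ^ (2 * (i + 1)) ≤ (ht P) ^ (EE n) ∧
          (ht P) ^ (EE n) < v ^ (2 * (i + 1 + 1)) ∧
          pos x v (Function.update c i t) (i + 1) ≤ ξ ∧
          ξ ≤ pos x v (Function.update c i t) (i + 1) + ((v : ℝ) ^ (i + 1))⁻¹ / 2 ∧
          |aeval ξ P| < (((ht P : ℝ)) ^ (EE n))⁻¹ := by
        intro t ht
        have h := hgood t ht
        unfold Lev at h
        push Not at h
        obtain ⟨n, h1, h2, P, h3, h4, h5, h6, ξ, h7, h8, h9⟩ := h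
        exact ⟨n, P, ξ, h1, h2, h3, h4, h5, h6, h7, h8, h9⟩
      choose! nf Pf ξf hb using hbad
      have hmaps : ∀ t ∈ S i, nf t ∈ Finset.Icc 1 nb := by
        intro t ht
        obtain ⟨h1, h2, _⟩ := hb t ht
        exact Finset.mem_Icc.mpr ⟨h1, h2⟩
      obtain ⟨t, ht, t', ht', hne, heq⟩ := Finset.exists_ne_map_eq_of_card_lt_of_maps_to
        (by rw [hcard, Nat.card_Icc]; omega) hmaps
      -- wlog t < t'
      have main : ∀ t ∈ S i, ∀ t' ∈ S i, t < t' → nf t = nf t' → False := by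
        intro t ht t' ht' hlt heq
        obtain ⟨a1, a2, a3, a4, a5, a6, a7, a8, a9⟩ := hb t ht
        obtain ⟨b1, b2, b3, b4, b5, b6, b7, b8, b9⟩ := hb t' ht'
        rw [← heq] at b4 b5 b6 b9
        set n := nf t with hn
        set l := i + 1 with hl
        set W : ℝ := ((v : ℝ) ^ l)⁻¹ with hW
        have hW0 : 0 < W := by positivity
        have hW1 : W ≤ 1 := inv_le_one_of_one_le₀ (one_le_pow₀ hv1R)
        have hpos : ∀ t, pos x v (Function.update c i t) l = pos x v c i + t * W := by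
          intro t
          have e1 : pos x v (Function.update c i t) l =
              pos x v (Function.update c i t) i + (Function.update c i t i : ℕ) *
                ((v : ℝ)⁻¹) ^ (i + 1) := by
            rw [hl]; unfold pos; rw [Finset.sum_range_succ]; ring
          rw [e1, ← pos_congr (hupd t), Function.update_self, hW, inv_pow]
        rw [hpos] at a7 a8 b7 b8
        have hposi : 0 ≤ pos x v c i ∧ pos x v c i ≤ 2 := by
          constructor
          · have := le_pos (x := x) (v := v) (c := c) 0 i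
            rw [zero_add] at this
            have h0 : pos x v c 0 = x := by unfold pos; simp
            linarith
          · have := pos_le (x := x) hv2 (fun j => hXm j _ (hcS j)) 0 i
            rw [zero_add, zero_add, pow_one] at this
            have h0 : pos x v c 0 = x := by unfold pos; simp
            have h1 : 2 * (Xm : ℝ) * (v : ℝ)⁻¹ ≤ 1 := by
              rw [← div_eq_mul_inv, div_le_one (by linarith)]
              linarith
            linarith
        have htX : (t : ℝ) ≤ Xm := by exact_mod_cast hXm i t ht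
        have htX' : (t' : ℝ) ≤ Xm := by exact_mod_cast hXm i t' ht'
        have htt : (t : ℝ) + 1 ≤ t' := by exact_mod_cast hlt
        have ht0 : (0 : ℝ) ≤ t := Nat.cast_nonneg _
        have hXW : (Xm : ℝ) * W ≤ 1 / 2 := by
          have h1 : W ≤ (v : ℝ)⁻¹ := by
            rw [hW]
            apply inv_anti₀ (by linarith)
            exact le_self_pow₀ hv1R (by omega)
          calc (Xm : ℝ) * W ≤ Xm * (v : ℝ)⁻¹ := by gcongr
            _ ≤ 1 / 2 := by
              rw [← div_eq_mul_inv, div_le_iff₀ (by linarith)]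
              linarith
        have hbd : ∀ (s : ℕ) (ξ : ℝ), (s : ℝ) ≤ Xm → pos x v c i + s * W ≤ ξ →
            ξ ≤ pos x v c i + s * W + W / 2 → |ξ| ≤ 3 := by
          intro s ξ hs h1 h2
          have hs0 : (0 : ℝ) ≤ s := Nat.cast_nonneg _
          have h3 : (s : ℝ) * W ≤ Xm * W := by gcongr
          have h4 : 0 ≤ (s : ℝ) * W := by positivity
          rw [abs_le]
          constructor
          · linarith [hposi.1]
          · linarith [hposi.2]
        have hξ := hbd t (ξf t) htX a7 a8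
        have hξ' := hbd t' (ξf t') htX' b7 b8
        have hsep : W / 2 ≤ ξf t' - ξf t := by nlinarith
        have hclose : ξf t' - ξf t ≤ ((Xm : ℝ) + 1) * W := by nlinarith
        have hh1 : 1 ≤ Pool.Agent.TNum.ht (Pf t) := one_le_ht a3.ne_zero
        have hh2 : 1 ≤ Pool.Agent.TNum.ht (Pf t') := one_le_ht b3.ne_zero
        have hle : ∀ h : ℕ, 1 ≤ h → v ^ (2 * l) ≤ h ^ (EE n) →
            (((h : ℝ)) ^ (EE n))⁻¹ ≤ ((v : ℝ) ^ (2 * l))⁻¹ := by
          intro h _ hh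
          apply inv_anti₀ (by positivity)
          exact_mod_cast hh
        have hVn : V n ≤ v := by
          have : V n ≤ (Finset.range (nb + 1)).sup V := Finset.le_sup (f := V) (by simp; omega)
          omega
        refine hV n a1 v hVn l (by omega) (Pf t) (Pf t') a3 b3 a4 b4
          (ht_level (by omega) a1 hh1 a6) (ht_level (by omega) a1 hh2 b6) (ξf t) (ξf t') hξ hξ' ?_ ?_
          (a9.trans_le (hle _ hh1 a5)) (b9.trans_le (hle _ hh2 b5))
        · rw [abs_sub_comm, abs_of_nonneg (by linarith)]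
          exact hclose
        · rw [abs_sub_comm, abs_of_nonneg (by linarith)]
          exact hsep
      rcases lt_or_gt_of_ne hne with h | h
      · exact main t ht t' ht' h heq
      · exact main t' ht' t ht h heq.symm

end Pool.Agent.SNum
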