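import Mathlib
import Pool.Agent.SNum.AuxUnif
import Pool.Agent.SNum.Avoid

set_option autoImplicit false

namespace Pool.Agent.SNum

open Polynomial Finset Pool.Agent.TNum

/-- numerical constant in the resultant estimate -/
noncomputable def K3 (n : ℕ) : ℝ := ((3 * n).factorial : ℝ) * (3 * n) * 3 ^ (3 * n)

theorem one_le_K3 {n : ℕ} (hn : 1 ≤ n) : 1 ≤ K3 n := by
  unfold K3
  have h1 : (1 : ℝ) ≤ ((3 * n).factorial : ℝ) := by exact_mod_cast (Nat.factorial_pos _)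
  have h2 : (1 : ℝ) ≤ 3 * (n : ℝ) := by
    have : (1 : ℝ) ≤ n := by exact_mod_cast hn
    linarith
  have h3 : (1 : ℝ) ≤ 3 ^ (3 * n) := one_le_pow₀ (by norm_num)
  calc (1 : ℝ) = 1 * 1 * 1 := by ring
    _ ≤ _ := by gcongr

theorem res_step {n : ℕ} (hn : 1 ≤ n) {P T : ℤ[X]} (hP : Irreducible P) (hPn : P.natDegree = n)
    (hT : T.natDegree ≤ 2 * n - 1) (hcop : Cop P T) {A τ ξ : ℝ} (hA : 1 ≤ A) (hτ : 0 ≤ τ)
    (hTA : (ht T : ℝ) ≤ A) (hξ : |ξ| ≤ 3) (hTξ : |aeval ξ T| ≤ A * τ) :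
    1 ≤ K3 n * (A ^ n * τ * (ht P : ℝ) ^ (2 * n)) + K3 n * (|aeval ξ P| * (ht P : ℝ) ^ (2 * n) * A ^ n) := by
  have hH1 : (1 : ℝ) ≤ ht P := by exact_mod_cast one_le_ht hP.ne_zero
  set H : ℝ := (ht P : ℝ) with hH
  have hH0 : 0 ≤ H := by linarith
  have hA0 : 0 ≤ A := by linarith
  have hK := one_le_K3 hn
  have hK0 : 0 ≤ K3 n := by linarith
  have hPξ0 := abs_nonneg (aeval ξ P)
  have hT0 : T ≠ 0 := by
    rintro rfl
    unfold Cop at hcop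
    rw [Polynomial.map_zero, isCoprime_zero_right] at hcop
    have h1 := natDegree_eq_zero_of_isUnit hcop
    rw [natDegree_map_eq_of_injective (RingHom.injective_int _)] at h1
    omega
  by_cases hTd : T.natDegree = 0
  · obtain ⟨a, ha⟩ := natDegree_eq_zero.mp hTd
    have ha0 : a ≠ 0 := by rintro rfl; apply hT0; rw [← ha]; simp
    rw [← ha, aeval_C] at hTξ
    have h1 : (1 : ℝ) ≤ |(algebraMap ℤ ℝ) a| := by
      simp only [algebraMap_int_eq, eq_intCast]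
      rw [← Int.cast_abs]
      exact_mod_cast Int.one_le_abs ha0
    have h2 : 1 ≤ A * τ := h1.trans hTξ
    have h3 : A ≤ A ^ n := le_self_pow₀ hA (by omega)
    have h4 : (1 : ℝ) ≤ H ^ (2 * n) := one_le_pow₀ hH1
    have h5 : A * τ ≤ A ^ n * τ * H ^ (2 * n) := by
      calc A * τ ≤ A ^ n * τ := by gcongr
        _ ≤ A ^ n * τ * H ^ (2 * n) := le_mul_of_one_le_right (by positivity) h4
    have h6 : A ^ n * τ * H ^ (2 * n) ≤ K3 n * (A ^ n * τ * H ^ (2 * n)) :=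
      le_mul_of_one_le_left (by positivity) hK
    have h7 : 0 ≤ K3 n * (|aeval ξ P| * H ^ (2 * n) * A ^ n) := by positivity
    linarith
  · set m := T.natDegree with hm
    have key := res_bound P T (by omega) (by omega) hcop ξ 3 (by norm_num) hξ
    rw [hPn, ← hm, ← hH] at key
    have hmn : (m : ℝ) ≤ 2 * n := by
      have : m ≤ 2 * n := by omega
      exact_mod_cast this
    have hfac : ((n + m).factorial : ℝ) * ((n : ℝ) + (m : ℝ)) * 3 ^ (n + m) ≤ K3 n := by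
      unfold K3
      have e1 : ((n + m).factorial : ℝ) ≤ ((3 * n).factorial : ℝ) := by
        exact_mod_cast Nat.factorial_le (by omega)
      have e2 : (n : ℝ) + m ≤ 3 * n := by linarith
      have e3 : (3 : ℝ) ^ (n + m) ≤ 3 ^ (3 * n) := pow_le_pow_right₀ (by norm_num) (by omega)
      gcongr
    have hhT0 : (0 : ℝ) ≤ ht T := Nat.cast_nonneg _
    have t1 : |aeval ξ T| * (ht T : ℝ) ^ (n - 1) * H ^ m ≤ A ^ n * τ * H ^ (2 * n) := by
      calc |aeval ξ T| * (ht T : ℝ) ^ (n - 1) * H ^ m ≤ (A * τ) * A ^ (n - 1) * H ^ (2 * n) := by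
            have e1 : H ^ m ≤ H ^ (2 * n) := pow_le_pow_right₀ hH1 (by omega)
            gcongr
        _ = (A * A ^ (n - 1)) * τ * H ^ (2 * n) := by ring
        _ = A ^ n * τ * H ^ (2 * n) := by
            rw [← pow_succ']; congr 3; omega
    have t2 : |aeval ξ P| * H ^ (m - 1) * (ht T : ℝ) ^ n ≤ |aeval ξ P| * H ^ (2 * n) * A ^ n := by
      have e1 : H ^ (m - 1) ≤ H ^ (2 * n) := pow_le_pow_right₀ hH1 (by omega)
      gcongr
    have hnn : 0 ≤ |aeval ξ T| * (ht T : ℝ) ^ (n - 1) * H ^ m +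
        |aeval ξ P| * H ^ (m - 1) * (ht T : ℝ) ^ n := by positivity
    calc (1 : ℝ) ≤ _ := key
      _ ≤ K3 n * (|aeval ξ T| * (ht T : ℝ) ^ (n - 1) * H ^ m +
        |aeval ξ P| * H ^ (m - 1) * (ht T : ℝ) ^ n) := mul_le_mul_of_nonneg_right hfac hnn
      _ ≤ K3 n * (A ^ n * τ * H ^ (2 * n) + |aeval ξ P| * H ^ (2 * n) * A ^ n) := by gcongr
      _ = _ := by ring

theorem pade_step {Δ : ℕ} {c : Fin Δ → ℕ} {n N₀ : ℕ} {C₁ : ℝ} (hC₁ : 1 ≤ C₁) (hn : 1 ≤ n)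
    (hN₀ : 5 * n ≤ N₀) (hA : AuxProp c n N₀ C₁) {v Q p : ℕ} (hQ : 1 ≤ Q) (hp : p ≤ Q)
    (hv : v = Q ^ 1000) (hvlarge : (4 * K3 n * C₁ ^ n) ^ 5 ≤ v) {P : ℤ[X]} (hP : Irreducible P)
    (hPn : P.natDegree = n) (hPv : (ht P) ^ 5 ≤ v ^ N₀) {ξ : ℝ} (hξ3 : |ξ| ≤ 3)
    (hξ1 : |ξ - p / Q| ≤ 1) (hξ : |ξ - p / Q - digVal c v| ≤ ((v : ℝ) ^ (8 * n * N₀))⁻¹) :
    1 ≤ 2 * K3 n * C₁ ^ n * |aeval ξ P| * (ht P : ℝ) ^ (2 * n) * (v : ℝ) ^ (8 * n * N₀) := by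
  have hv1 : 1 ≤ v := by rw [hv]; exact Nat.one_le_pow _ _ hQ
  obtain ⟨T, hT1, hT2, hT3, hT4⟩ := hA v Q p hv1 hQ hp P hP hPn
  have hTξ := hT4 ξ hξ1
  set vr : ℝ := (v : ℝ) with hvr
  set q : ℝ := (Q : ℝ) with hq
  have hv1R : 1 ≤ vr := by rw [hvr]; exact_mod_cast hv1
  have hq1 : 1 ≤ q := by rw [hq]; exact_mod_cast hQ
  have hvq : vr = q ^ 1000 := by rw [hvr, hq, hv]; push_cast; ring
  have hH1 : (1 : ℝ) ≤ ht P := by exact_mod_cast one_le_ht hP.ne_zero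
  set H : ℝ := (ht P : ℝ) with hH
  have hH0 : 0 ≤ H := by linarith
  have hPv' : H ^ 5 ≤ vr ^ N₀ := by rw [hH, hvr]; exact_mod_cast hPv
  set A : ℝ := C₁ * vr ^ (7 * N₀) * q ^ (2 * n - 1) with hAdef
  have hA1 : 1 ≤ A := by
    have e1 : (1 : ℝ) ≤ vr ^ (7 * N₀) := one_le_pow₀ hv1R
    have e2 : (1 : ℝ) ≤ q ^ (2 * n - 1) := one_le_pow₀ hq1
    calc (1 : ℝ) = 1 * 1 * 1 := by ring
      _ ≤ _ := by rw [hAdef]; gcongr
  set τ : ℝ := 2 * (vr ^ (8 * n * N₀))⁻¹ with hτ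
  have hτ0 : 0 ≤ τ := by positivity
  have hTξ' : |aeval ξ T| ≤ A * τ := by
    refine hTξ.trans ?_
    rw [hτ]
    have : (vr ^ (8 * n * N₀))⁻¹ + |ξ - p / Q - digVal c v| ≤ 2 * (vr ^ (8 * n * N₀))⁻¹ := by linarith
    gcongr
  have key := res_step hn hP hPn hT1 hT2 hA1 hτ0 hT3 hξ3 hTξ'
  rw [← hH] at key
  have hK := one_le_K3 hn
  have hK0 : 0 ≤ K3 n := by linarith
  set B : ℝ := |aeval ξ P| with hB
  have hB0 : 0 ≤ B := abs_nonneg _
  -- bounds on powers of q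
  have hqv : q ^ (2 * n * n) ≤ vr ^ (n * N₀) := by
    rw [hvq, ← pow_mul]
    apply pow_le_pow_right₀ hq1
    nlinarith
  have hqv10 : q ^ (10 * n * n) ≤ vr ^ (n * N₀) := by
    rw [hvq, ← pow_mul]
    apply pow_le_pow_right₀ hq1
    nlinarith
  have hAn : A ^ n ≤ C₁ ^ n * vr ^ (7 * n * N₀) * q ^ (2 * n * n) := by
    rw [hAdef, mul_pow, mul_pow, ← pow_mul, ← pow_mul]
    have e1 : 7 * N₀ * n = 7 * n * N₀ := by ring
    rw [e1]
    have e2 : q ^ ((2 * n - 1) * n) ≤ q ^ (2 * n * n) := by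
      apply pow_le_pow_right₀ hq1
      exact Nat.mul_le_mul_right _ (by omega)
    gcongr
  -- the first term is small
  have hfirst : K3 n * (A ^ n * τ * H ^ (2 * n)) ≤ 1 / 2 := by
    by_contra hcon
    push Not at hcon
    set D : ℝ := 4 * K3 n * C₁ ^ n with hD
    have hD0 : 0 ≤ D := by positivity
    have h1 : vr ^ (n * N₀) < D * q ^ (2 * n * n) * H ^ (2 * n) := by
      have e0 : K3 n * (A ^ n * τ * H ^ (2 * n)) ≤
          K3 n * ((C₁ ^ n * vr ^ (7 * n * N₀) * q ^ (2 * n * n)) * τ * H ^ (2 * n)) := by gcongr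
      have e1 : K3 n * ((C₁ ^ n * vr ^ (7 * n * N₀) * q ^ (2 * n * n)) * τ * H ^ (2 * n)) =
          (D * q ^ (2 * n * n) * H ^ (2 * n)) / 2 * (vr ^ (7 * n * N₀) * (vr ^ (8 * n * N₀))⁻¹) := by
        rw [hτ, hD]; ring
      have e2 : vr ^ (7 * n * N₀) * (vr ^ (8 * n * N₀))⁻¹ = (vr ^ (n * N₀))⁻¹ := by
        have : 8 * n * N₀ = 7 * n * N₀ + n * N₀ := by ring
        rw [this, pow_add, mul_inv, ← mul_assoc, mul_inv_cancel₀ (by positivity), one_mul]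
      rw [e1, e2] at e0
      have e3 : 1 / 2 < (D * q ^ (2 * n * n) * H ^ (2 * n)) / 2 * (vr ^ (n * N₀))⁻¹ := by linarith
      rw [← div_eq_mul_inv, lt_div_iff₀ (by positivity)] at e3
      linarith
    have h2 : vr ^ (5 * (n * N₀)) < D ^ 5 * (vr ^ (n * N₀) * vr ^ (2 * (n * N₀))) := by
      calc vr ^ (5 * (n * N₀)) = (vr ^ (n * N₀)) ^ 5 := by rw [← pow_mul]; congr 1; ring
        _ < (D * q ^ (2 * n * n) * H ^ (2 * n)) ^ 5 := pow_lt_pow_left₀ h1 (by positivity) (by norm_num)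
        _ = D ^ 5 * (q ^ (10 * n * n) * (H ^ 5) ^ (2 * n)) := by
            rw [mul_pow, mul_pow, ← pow_mul, ← pow_mul, ← pow_mul, mul_assoc]
            congr 3
            · ring
            · ring
        _ ≤ D ^ 5 * (vr ^ (n * N₀) * (vr ^ N₀) ^ (2 * n)) := by gcongr
        _ = _ := by rw [← pow_mul]; congr 3; ring
    have h3 : vr ^ (5 * (n * N₀)) = (vr ^ (n * N₀) * vr ^ (2 * (n * N₀))) * vr ^ (2 * (n * N₀)) := by
      rw [← pow_add, ← pow_add]; congr 1; ring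
    rw [h3, mul_comm] at h2
    have h4 : vr ^ (2 * (n * N₀)) < D ^ 5 := by
      have hpos : 0 < vr ^ (n * N₀) * vr ^ (2 * (n * N₀)) := by positivity
      exact lt_of_mul_lt_mul_right h2 hpos.le
    have h5 : vr ≤ vr ^ (2 * (n * N₀)) := by
      apply le_self_pow₀ hv1R
      have : 0 < n * N₀ := Nat.mul_pos (by omega) (by omega)
      omega
    linarith
  have hsecond : 1 / 2 ≤ K3 n * (B * H ^ (2 * n) * A ^ n) := by linarith
  have hlast : K3 n * (B * H ^ (2 * n) * A ^ n) ≤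
      K3 n * (B * H ^ (2 * n) * (C₁ ^ n * vr ^ (8 * n * N₀))) := by
    have e1 : A ^ n ≤ C₁ ^ n * vr ^ (8 * n * N₀) := by
      refine hAn.trans ?_
      calc C₁ ^ n * vr ^ (7 * n * N₀) * q ^ (2 * n * n) ≤
          C₁ ^ n * vr ^ (7 * n * N₀) * vr ^ (n * N₀) := by gcongr
        _ = _ := by rw [mul_assoc, ← pow_add]; congr 2; ring
    gcongr
  calc (1 : ℝ) ≤ 2 * (K3 n * (B * H ^ (2 * n) * (C₁ ^ n * vr ^ (8 * n * N₀)))) := by linarith
    _ = _ := by ring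

end Pool.Agent.SNum
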