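import Mathlib
import Pool.Agent.SNum.PadeStep

set_option autoImplicit false

namespace Pool.Agent.SNum

open Polynomial Finset Pool.Agent.TNum

theorem pos_eq_digVal (x : ℝ) (v : ℕ) (c : ℕ → ℕ) (Δ : ℕ) :
    pos x v c Δ = x + digVal (fun i : Fin Δ => c i) v := by
  unfold pos digVal
  rw [Finset.sum_range]

theorem exists_level {v h E Δ : ℕ} (h1 : v ^ (2 * 1) ≤ h ^ E) (h2 : h ^ E < v ^ (2 * (Δ + 1))) (hΔ : 1 ≤ Δ) :
    ∃ l, 1 ≤ l ∧ l ≤ Δ ∧ v ^ (2 * l) ≤ h ^ E ∧ h ^ E < v ^ (2 * (l + 1)) := by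
  classical
  set l := Nat.findGreatest (fun l => v ^ (2 * l) ≤ h ^ E) Δ with hl
  have hl1 : 1 ≤ l := Nat.le_findGreatest hΔ h1
  have hspec : v ^ (2 * l) ≤ h ^ E := by
    have := Nat.findGreatest_spec (P := fun l => v ^ (2 * l) ≤ h ^ E) hΔ h1
    exact this
  refine ⟨l, hl1, Nat.findGreatest_le _, hspec, ?_⟩
  rcases Nat.lt_or_ge l Δ with hlt | hge
  · by_contra hcon
    push Not at hcon
    have := Nat.le_findGreatest (P := fun l => v ^ (2 * l) ≤ h ^ E) (m := l + 1) (n := Δ) hlt hcon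
    omega
  · have : l = Δ := le_antisymm (Nat.findGreatest_le _) hge
    rw [this]; exact h2

theorem exists_N0 {v h n Δ : ℕ} (hv : 2 ≤ v) (hn : 1 ≤ n) (hh : v ^ n ≤ h) (hnΔ : 8 * n ≤ Δ)
    (h2 : h ^ (EE n) < v ^ (2000 * Δ)) :
    ∃ N₀, 5 * n ≤ N₀ ∧ 2 * N₀ ≤ Δ ∧ 8 * n * N₀ ≤ 999 * Δ ∧ h ^ 5 ≤ v ^ N₀ ∧ v ^ N₀ ≤ h ^ 6 := by
  classical
  have hex : ∃ N, h ^ 5 ≤ v ^ N := ⟨h ^ 5, (Nat.lt_pow_self (by omega)).le⟩
  set N₀ := Nat.find hex with hN₀
  have hspec : h ^ 5 ≤ v ^ N₀ := Nat.find_spec hex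
  have h5n : 5 * n ≤ N₀ := by
    by_contra hcon
    push Not at hcon
    have h3 : v ^ N₀ < v ^ (5 * n) := Nat.pow_lt_pow_right (by omega) hcon
    have h4 : v ^ (5 * n) = (v ^ n) ^ 5 := by rw [← pow_mul]; congr 1; ring
    have h5 : (v ^ n) ^ 5 ≤ h ^ 5 := Nat.pow_le_pow_left hh 5
    omega
  have hmin : v ^ (N₀ - 1) < h ^ 5 := by
    have := Nat.find_min hex (m := N₀ - 1) (by omega)
    omega
  have hexp : (N₀ - 1) * EE n < 10000 * Δ := by
    have h3 : v ^ ((N₀ - 1) * EE n) < v ^ (10000 * Δ) := by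
      have hE : EE n ≠ 0 := by unfold EE; omega
      calc v ^ ((N₀ - 1) * EE n) = (v ^ (N₀ - 1)) ^ (EE n) := by rw [pow_mul]
        _ < (h ^ 5) ^ (EE n) := Nat.pow_lt_pow_left hmin hE
        _ = (h ^ (EE n)) ^ 5 := by rw [← pow_mul, ← pow_mul, mul_comm]
        _ < (v ^ (2000 * Δ)) ^ 5 := Nat.pow_lt_pow_left h2 (by norm_num)
        _ = v ^ (10000 * Δ) := by
            rw [← pow_mul, show 2000 * Δ * 5 = 10000 * Δ by omega]
    exact (Nat.pow_lt_pow_iff_right (by omega)).mp h3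
  obtain ⟨M, hM⟩ : ∃ M, N₀ = M + 1 := ⟨N₀ - 1, by omega⟩
  have hexp' : M * (200 * n + 40000) < 10000 * Δ := by
    have : N₀ - 1 = M := by omega
    rw [this] at hexp
    exact hexp
  have e1 : M * (200 * n + 40000) = 200 * (n * M) + 40000 * M := by ring
  rw [e1] at hexp'
  refine ⟨N₀, h5n, by omega, ?_, hspec, ?_⟩
  · rw [hM]
    have e2 : 8 * n * (M + 1) = 8 * (n * M) + 8 * n := by ring
    rw [e2]
    omega
  · have e3 : v ^ N₀ = v ^ (N₀ - 1) * v := by rw [← pow_succ]; congr 1; omega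
    have h3 : v ≤ h := (Nat.le_self_pow (by omega) v).trans hh
    rw [e3, pow_succ h 5]
    exact Nat.mul_le_mul hmin.le h3

theorem stage (nb : ℕ) (hnb : 1 ≤ nb) : ∃ Δ : ℕ, 1 ≤ Δ ∧ ∃ Q₀ : ℕ, ∀ Q : ℕ, Q₀ ≤ Q → 2 ≤ Q →
    ∀ p : ℕ, (p : ℝ) / Q + ((Q : ℝ) ^ 999)⁻¹ ≤ 1 → ∃ p' : ℕ,
      (p : ℝ) / Q ≤ (p' : ℝ) / (((Q ^ 1000) ^ Δ : ℕ) : ℝ) ∧
      (p' : ℝ) / (((Q ^ 1000) ^ Δ : ℕ) : ℝ) + ((((Q ^ 1000) ^ Δ : ℕ) : ℝ) ^ 999)⁻¹ ≤
        (p : ℝ) / Q + ((Q : ℝ) ^ 999)⁻¹ ∧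
      ∀ ξ : ℝ, (p' : ℝ) / (((Q ^ 1000) ^ Δ : ℕ) : ℝ) ≤ ξ →
        ξ ≤ (p' : ℝ) / (((Q ^ 1000) ^ Δ : ℕ) : ℝ) + ((((Q ^ 1000) ^ Δ : ℕ) : ℝ) ^ 999)⁻¹ →
        ∀ n : ℕ, 1 ≤ n → n ≤ nb → ∀ P : ℤ[X], Irreducible P → P.natDegree = n →
          ((Q ^ 1000) ^ 2 ≤ (ht P) ^ (EE n) → (ht P) ^ (EE n) < (((Q ^ 1000) ^ Δ) ^ 1000) ^ 2 →
            (((ht P : ℝ)) ^ (EE n))⁻¹ ≤ |aeval ξ P|) ∧
          (ht P ≤ Q → aeval ξ P ≠ 0) := by
  classical
  set Δ : ℕ := nb * EE nb with hΔ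
  have hΔbig : 40000 * nb ≤ Δ := by
    rw [hΔ, mul_comm]; exact Nat.mul_le_mul_left _ (by unfold EE; omega)
  have hΔ1 : 1 ≤ Δ := by omega
  obtain ⟨S, hScard, C₁', hC₁'⟩ := aux_unif nb Δ (nb + 1)
  set C₁ : ℝ := max 1 C₁' with hC₁
  have hC₁1 : 1 ≤ C₁ := le_max_left _ _
  have hC₁le : (C₁' : ℝ) ≤ C₁ := le_max_right _ _
  set Xm : ℕ := (Finset.univ.sup fun i => (S i).sup id) + nb with hXm
  obtain ⟨V₀, hV₀⟩ := avoid nb Xm
  set Cs : ℝ := ∑ n ∈ Finset.range (nb + 1), (4 * K3 n * C₁ ^ n) ^ 5 with hCs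
  refine ⟨Δ, hΔ1, V₀ + 8 * Xm + 8 + ⌈Cs⌉₊, ?_⟩
  intro Q hQ hQ2 p hpQ
  set v : ℕ := Q ^ 1000 with hv
  have hQv : Q ≤ v := Nat.le_self_pow (by norm_num) Q
  have hv2 : 2 ≤ v := by omega
  have hvV₀ : V₀ ≤ v := by omega
  have hQR : (2 : ℝ) ≤ Q := by exact_mod_cast hQ2
  have hvR : (2 : ℝ) ≤ v := by exact_mod_cast hv2
  have hXm0 : (0 : ℝ) ≤ Xm := Nat.cast_nonneg _
  have hQX : 8 * (Xm : ℝ) + 8 ≤ Q := by
    have : 8 * Xm + 8 ≤ Q := by omega
    exact_mod_cast this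
  have hvX : 8 * (Xm : ℝ) + 8 ≤ v := by
    have : (Q : ℝ) ≤ v := by exact_mod_cast hQv
    linarith
  set x : ℝ := (p : ℝ) / Q with hx
  have hx0 : 0 ≤ x := by positivity
  have hQ999 : (0 : ℝ) < ((Q : ℝ) ^ 999)⁻¹ := by positivity
  have hx1 : x ≤ 1 := by linarith
  have hpleQ : p ≤ Q := by
    have : (p : ℝ) ≤ Q := by
      rw [hx, div_le_one (by linarith)] at hx1
      exact hx1
    exact_mod_cast this
  -- the digit sets indexed by ℕ
  set S' : ℕ → Finset ℕ := fun j => if h : j < Δ then S ⟨j, h⟩ else Finset.range (nb + 1) with hS'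
  have hS'card : ∀ j, (S' j).card = nb + 1 := by
    intro j
    rw [hS']
    dsimp only
    split_ifs
    · exact hScard _
    · exact Finset.card_range _
  have hS'le : ∀ j, ∀ t ∈ S' j, t ≤ Xm := by
    intro j t ht
    rw [hS'] at ht
    dsimp only at ht
    split_ifs at ht with h
    · have h1 : t ≤ (S ⟨j, h⟩).sup id := Finset.le_sup (f := id) ht
      have h2 : (S ⟨j, h⟩).sup id ≤ Finset.univ.sup fun i => (S i).sup id :=
        Finset.le_sup (f := fun i => (S i).sup id) (Finset.mem_univ _)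
      omega
    · have := Finset.mem_range.mp ht
      omega
  obtain ⟨c, hcS, hcL⟩ := hV₀ v hvV₀ x hx0 hx1 S' hS'card hS'le Δ
  have hcX : ∀ j, c j ≤ Xm := fun j => hS'le j _ (hcS j)
  set c' : Fin Δ → ℕ := fun i => c i with hc'
  have hc'S : ∀ i, c' i ∈ S i := by
    intro i
    have := hcS i
    rw [hS'] at this
    simpa [i.2] using this
  -- the new numerator
  set p' : ℕ := p * Q ^ (1000 * Δ - 1) + ∑ j ∈ Finset.range Δ, c j * v ^ (Δ - (j + 1)) with hp'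
  have hQ'R : (((v ^ Δ : ℕ)) : ℝ) = (v : ℝ) ^ Δ := by push_cast; rfl
  have hvQ : (v : ℝ) = (Q : ℝ) ^ 1000 := by rw [hv]; push_cast; rfl
  have hpos' : (p' : ℝ) / ((v ^ Δ : ℕ) : ℝ) = pos x v c Δ := by
    rw [hQ'R, hp']
    push_cast
    rw [add_div, Finset.sum_div]
    unfold pos
    congr 1
    · rw [hx, hvQ, ← pow_mul, div_eq_div_iff (by positivity) (by positivity), mul_assoc]
      congr 1
      rw [← pow_succ]
      congr 1
      omega
    · apply Finset.sum_congr rfl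
      intro j hj
      have hj' := Finset.mem_range.mp hj
      rw [inv_pow, div_eq_iff (by positivity), mul_assoc]
      congr 1
      rw [eq_inv_mul_iff_mul_eq₀ (by positivity), ← pow_add]
      congr 1
      omega
  refine ⟨p', ?_, ?_, ?_⟩
  · rw [hpos']
    have := le_pos (x := x) (v := v) (c := c) 0 Δ
    rw [zero_add] at this
    have h0 : pos x v c 0 = x := by unfold pos; simp
    linarith
  · rw [hpos', hQ'R]
    have h1 := pos_le (x := x) hv2 hcX 0 Δ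
    rw [zero_add, zero_add, pow_one] at h1
    have h0 : pos x v c 0 = x := by unfold pos; simp
    rw [h0] at h1
    have h2 : (v : ℝ)⁻¹ = (Q : ℝ)⁻¹ * ((Q : ℝ) ^ 999)⁻¹ := by
      rw [hvQ, ← mul_inv, ← pow_succ']
    have h3 : ((((v : ℝ) ^ Δ) ^ 999))⁻¹ ≤ (v : ℝ)⁻¹ := by
      apply inv_anti₀ (by linarith)
      rw [← pow_mul]
      apply le_self_pow₀ (by linarith)
      omega
    have h4 : (2 * (Xm : ℝ) + 1) * (Q : ℝ)⁻¹ ≤ 1 := by
      rw [← div_eq_mul_inv, div_le_one (by linarith)]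
      linarith
    have h5 : (2 * (Xm : ℝ) + 1) * (v : ℝ)⁻¹ ≤ ((Q : ℝ) ^ 999)⁻¹ := by
      rw [h2, ← mul_assoc]
      calc (2 * (Xm : ℝ) + 1) * (Q : ℝ)⁻¹ * ((Q : ℝ) ^ 999)⁻¹ ≤ 1 * ((Q : ℝ) ^ 999)⁻¹ := by gcongr
        _ = _ := one_mul _
    nlinarith
  · intro ξ hξ1 hξ2 n hn1 hnb' P hP hPn
    rw [hpos'] at hξ1 hξ2
    rw [hQ'R] at hξ2
    have hQ'inv : ((((v : ℝ) ^ Δ) ^ 999))⁻¹ = ((v : ℝ) ^ (999 * Δ))⁻¹ := by
      rw [← pow_mul, mul_comm Δ]
    rw [hQ'inv] at hξ2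
    have hξx : x ≤ ξ := by
      have := le_pos (x := x) (v := v) (c := c) 0 Δ
      rw [zero_add] at this
      have h0 : pos x v c 0 = x := by unfold pos; simp
      linarith
    have hvinv1 : ((v : ℝ) ^ (999 * Δ))⁻¹ ≤ 1 / 4 := by
      calc ((v : ℝ) ^ (999 * Δ))⁻¹ ≤ (v : ℝ)⁻¹ := by
            apply inv_anti₀ (by linarith)
            apply le_self_pow₀ (by linarith)
            omega
        _ ≤ 1 / 4 := by
            rw [inv_eq_one_div]
            apply one_div_le_one_div_of_le (by norm_num)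
            linarith
    have hξx1 : ξ ≤ x + 1 := by
      have h1 := pos_le (x := x) hv2 hcX 0 Δ
      rw [zero_add, zero_add, pow_one] at h1
      have h0 : pos x v c 0 = x := by unfold pos; simp
      rw [h0] at h1
      have h3 : 2 * (Xm : ℝ) * (v : ℝ)⁻¹ ≤ 1 / 4 := by
        rw [← div_eq_mul_inv, div_le_iff₀ (by linarith)]
        linarith
      linarith
    have hξ3 : |ξ| ≤ 3 := by rw [abs_le]; constructor <;> linarith
    have hξ1' : |ξ - x| ≤ 1 := by rw [abs_le]; constructor <;> linarith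
    have hnE : n * EE n ≤ Δ := by
      rw [hΔ]
      exact Nat.mul_le_mul hnb' (by unfold EE; omega)
    have hn8 : 8 * n ≤ Δ := by omega
    have hnn : n * n ≤ Δ := by
      calc n * n ≤ n * EE n := Nat.mul_le_mul_left _ (by unfold EE; omega)
        _ ≤ Δ := hnE
    have hvlarge : (4 * K3 n * C₁ ^ n) ^ 5 ≤ (v : ℝ) := by
      have h1 : (4 * K3 n * C₁ ^ n) ^ 5 ≤ Cs := by
        apply Finset.single_le_sum (f := fun n => (4 * K3 n * C₁ ^ n) ^ 5)
        · intro m _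
          have : 0 ≤ K3 m := by unfold K3; positivity
          positivity
        · simp; omega
      have h2 : Cs ≤ ⌈Cs⌉₊ := Nat.le_ceil _
      have h3 : ((⌈Cs⌉₊ : ℕ) : ℝ) ≤ v := by
        have : ⌈Cs⌉₊ ≤ v := by omega
        exact_mod_cast this
      linarith
    have hdist : ∀ N₀ : ℕ, 8 * n * N₀ ≤ 999 * Δ →
        |ξ - p / Q - digVal c' v| ≤ ((v : ℝ) ^ (8 * n * N₀))⁻¹ := by
      intro N₀ hN₀
      have h1 : ξ - p / Q - digVal c' v = ξ - pos x v c Δ := by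
        rw [pos_eq_digVal x v c Δ, hx]; ring
      rw [h1, abs_of_nonneg (by linarith)]
      have h2 : ((v : ℝ) ^ (999 * Δ))⁻¹ ≤ ((v : ℝ) ^ (8 * n * N₀))⁻¹ := by
        apply inv_anti₀ (by positivity)
        exact pow_le_pow_right₀ (by linarith) hN₀
      linarith
    have hpade : ∀ N₀ : ℕ, 5 * n ≤ N₀ → 2 * N₀ ≤ Δ → 8 * n * N₀ ≤ 999 * Δ → (ht P) ^ 5 ≤ v ^ N₀ →
        1 ≤ 2 * K3 n * C₁ ^ n * |aeval ξ P| * (ht P : ℝ) ^ (2 * n) * (v : ℝ) ^ (8 * n * N₀) := by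
      intro N₀ g1 g2 g3 g4
      exact pade_step hC₁1 hn1 g1 ((hC₁' c' hc'S n N₀ hn1 hnb' (by omega) g2).mono hC₁le)
        (by omega) hpleQ hv hvlarge hP hPn g4 hξ3 hξ1' (hdist N₀ g3)
    have hH1 : 1 ≤ ht P := one_le_ht hP.ne_zero
    refine ⟨?_, ?_⟩
    · intro hlow hhigh
      rcases Nat.lt_or_ge ((ht P) ^ (EE n)) (v ^ (2 * (Δ + 1))) with hcase | hcase
      · -- digit avoidance
        obtain ⟨l, hl1, hlΔ, hl2, hl3⟩ := exists_level (by rw [mul_one]; exact hlow) hcase hΔ1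
        apply hcL l hl1 hlΔ n hn1 hnb' P hP hPn hl2 hl3 ξ
        · have h1 := le_pos (x := x) (v := v) (c := c) l (Δ - l)
          rw [Nat.add_sub_cancel' hlΔ] at h1
          linarith
        · have h1 := pos_le (x := x) hv2 hcX l (Δ - l)
          rw [Nat.add_sub_cancel' hlΔ] at h1
          have h2 : ((v : ℝ)⁻¹) ^ (l + 1) = (v : ℝ)⁻¹ * ((v : ℝ) ^ l)⁻¹ := by
            rw [pow_succ', inv_pow]
          have h3 : ((v : ℝ) ^ (999 * Δ))⁻¹ ≤ (v : ℝ)⁻¹ * ((v : ℝ) ^ l)⁻¹ := by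
            rw [← mul_inv, ← pow_succ']
            apply inv_anti₀ (by positivity)
            apply pow_le_pow_right₀ (by linarith)
            omega
          have h4 : (2 * (Xm : ℝ) + 1) * (v : ℝ)⁻¹ ≤ 1 / 2 := by
            rw [← div_eq_mul_inv, div_le_iff₀ (by linarith)]
            linarith
          have h5 : (2 * (Xm : ℝ) + 1) * ((v : ℝ)⁻¹ * ((v : ℝ) ^ l)⁻¹) ≤ ((v : ℝ) ^ l)⁻¹ / 2 := by
            rw [← mul_assoc]
            have : 0 < ((v : ℝ) ^ l)⁻¹ := by positivity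
            nlinarith
          rw [h2] at h1
          nlinarith
      · -- Padé range
        have hvn : v ^ n ≤ ht P := by
          by_contra hcon
          push Not at hcon
          have hE : EE n ≠ 0 := by unfold EE; omega
          have h1 : (ht P) ^ (EE n) < v ^ (2 * (Δ + 1)) := by
            calc (ht P) ^ (EE n) < (v ^ n) ^ (EE n) := Nat.pow_lt_pow_left hcon hE
              _ = v ^ (n * EE n) := by rw [← pow_mul]
              _ ≤ v ^ (2 * (Δ + 1)) := Nat.pow_le_pow_right (by omega) (by omega)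
          omega
        have hhigh' : (ht P) ^ (EE n) < v ^ (2000 * Δ) := by
          calc (ht P) ^ (EE n) < ((v ^ Δ) ^ 1000) ^ 2 := hhigh
            _ = v ^ (2000 * Δ) := by
                rw [← pow_mul, ← pow_mul, show Δ * (1000 * 2) = 2000 * Δ by omega]
        obtain ⟨N₀, g1, g2, g3, g4, g5⟩ := exists_N0 hv2 hn1 hvn hn8 hhigh'
        have key := hpade N₀ g1 g2 g3 g4
        set H : ℝ := (ht P : ℝ) with hH
        have hH1R : 1 ≤ H := by rw [hH]; exact_mod_cast hH1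
        have hvH : (v : ℝ) ≤ H := by
          rw [hH]
          have : v ≤ ht P := (Nat.le_self_pow (by omega) v).trans hvn
          exact_mod_cast this
        have hvN : (v : ℝ) ^ N₀ ≤ H ^ 6 := by rw [hH]; exact_mod_cast g5
        have hK := one_le_K3 hn1
        have hC1n : 1 ≤ C₁ ^ n := one_le_pow₀ hC₁1
        have hD : 2 * K3 n * C₁ ^ n ≤ H := by
          have h0 : 1 ≤ K3 n * C₁ ^ n := by nlinarith
          have h1 : 1 ≤ 4 * K3 n * C₁ ^ n := by nlinarith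
          have h2 : 4 * K3 n * C₁ ^ n ≤ (4 * K3 n * C₁ ^ n) ^ 5 := le_self_pow₀ h1 (by norm_num)
          nlinarith
        have hpow : (v : ℝ) ^ (8 * n * N₀) ≤ H ^ (48 * n) := by
          calc (v : ℝ) ^ (8 * n * N₀) = ((v : ℝ) ^ N₀) ^ (8 * n) := by
                rw [← pow_mul]; congr 1; ring
            _ ≤ (H ^ 6) ^ (8 * n) := by gcongr
            _ = H ^ (48 * n) := by rw [← pow_mul]; congr 1; ring
        have hB0 := abs_nonneg (aeval ξ P)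
        have hfin : 1 ≤ |aeval ξ P| * H ^ (EE n) := by
          calc (1 : ℝ) ≤ 2 * K3 n * C₁ ^ n * |aeval ξ P| * H ^ (2 * n) * (v : ℝ) ^ (8 * n * N₀) := key
            _ ≤ H * |aeval ξ P| * H ^ (2 * n) * H ^ (48 * n) := by gcongr
            _ = |aeval ξ P| * H ^ (50 * n + 1) := by ring
            _ ≤ |aeval ξ P| * H ^ (EE n) := by
                have : H ^ (50 * n + 1) ≤ H ^ (EE n) :=
                  pow_le_pow_right₀ hH1R (by unfold EE; omega)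
                gcongr
        rw [inv_le_iff_one_le_mul₀ (by positivity)]
        linarith
    · intro hPQ h0
      have key := hpade (5 * n) le_rfl (by omega) (by nlinarith) (by
        calc (ht P) ^ 5 ≤ v ^ 5 := Nat.pow_le_pow_left (hPQ.trans hQv) 5
          _ ≤ v ^ (5 * n) := Nat.pow_le_pow_right (by omega) (by omega))
      rw [h0, abs_zero] at key
      simp only [mul_zero, zero_mul] at key
      linarith

end Pool.Agent.SNum
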