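import Mathlib
import Pool.Agent.SNum.Stage

set_option autoImplicit false

namespace Pool.Agent.SNum

open Polynomial Finset Pool.Agent.TNum

/-- validity of a state `(Q, p)` -/
def Valid (q₁ : ℕ) (s : ℕ × ℕ) : Prop :=
  q₁ ≤ s.1 ∧ 2 ≤ s.1 ∧ (s.2 : ℝ) / s.1 + ((s.1 : ℝ) ^ 999)⁻¹ ≤ 1

/-- the relation between two consecutive states -/
def Rel (nb : ℕ) (s s' : ℕ × ℕ) : Prop :=
  s.1 + 1 ≤ s'.1 ∧ (s.2 : ℝ) / s.1 ≤ (s'.2 : ℝ) / s'.1 ∧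
  (s'.2 : ℝ) / s'.1 + ((s'.1 : ℝ) ^ 999)⁻¹ ≤ (s.2 : ℝ) / s.1 + ((s.1 : ℝ) ^ 999)⁻¹ ∧
  ∀ ξ : ℝ, (s'.2 : ℝ) / s'.1 ≤ ξ → ξ ≤ (s'.2 : ℝ) / s'.1 + ((s'.1 : ℝ) ^ 999)⁻¹ →
    ∀ n : ℕ, 1 ≤ n → n ≤ nb → ∀ P : ℤ[X], Irreducible P → P.natDegree = n →
      ((s.1 ^ 1000) ^ 2 ≤ (ht P) ^ (EE n) → (ht P) ^ (EE n) < (s'.1 ^ 1000) ^ 2 →
        (((ht P : ℝ)) ^ (EE n))⁻¹ ≤ |aeval ξ P|) ∧ (ht P ≤ s.1 → aeval ξ P ≠ 0)

theorem exists_xi : ∃ (ξ : ℝ) (B : ℕ → ℕ), 0 ≤ ξ ∧ ξ ≤ 1 ∧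
    (∀ n : ℕ, 1 ≤ n → ∀ P : ℤ[X], Irreducible P → P.natDegree = n → B n ≤ ht P →
      (((ht P : ℝ)) ^ (EE n))⁻¹ ≤ |aeval ξ P|) ∧
    (∀ P : ℤ[X], Irreducible P → P.natDegree ≠ 0 → aeval ξ P ≠ 0) ∧
    (∀ m : ℕ, ∃ Q p : ℕ, m ≤ Q ∧ 2 ≤ Q ∧ p ≤ Q ∧ (p : ℝ) / Q ≤ ξ ∧
      ξ ≤ (p : ℝ) / Q + ((Q : ℝ) ^ 999)⁻¹) := by
  classical
  have hst := stage
  choose! Δf hΔ1 Q₀f hQ₀ using hst
  set nbk : ℕ → ℕ × ℕ → ℕ := fun k s => Nat.findGreatest (fun nb => 1 ≤ nb ∧ Q₀f nb ≤ s.1) (k + 1)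
    with hnbk
  have hstep : ∀ (k : ℕ) (s : ℕ × ℕ), Valid (Q₀f 1) s → ∃ s' : ℕ × ℕ, Valid (Q₀f 1) s' ∧
      Rel (nbk k s) s s' := by
    intro k s hs
    obtain ⟨h1, h2, h3⟩ := hs
    have hspec : 1 ≤ nbk k s ∧ Q₀f (nbk k s) ≤ s.1 :=
      Nat.findGreatest_spec (P := fun nb => 1 ≤ nb ∧ Q₀f nb ≤ s.1) (m := 1) (by omega) ⟨le_rfl, h1⟩
    obtain ⟨p', g1, g2, g3⟩ := hQ₀ (nbk k s) hspec.1 s.1 hspec.2 h2 s.2 h3
    have hΔ := hΔ1 (nbk k s) hspec.1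
    have hgrow : s.1 + 1 ≤ (s.1 ^ 1000) ^ (Δf (nbk k s)) := by
      calc s.1 + 1 ≤ s.1 ^ 2 := by nlinarith
        _ ≤ s.1 ^ 1000 := Nat.pow_le_pow_right (by omega) (by norm_num)
        _ ≤ (s.1 ^ 1000) ^ (Δf (nbk k s)) := Nat.le_self_pow (by omega) _
    refine ⟨((s.1 ^ 1000) ^ (Δf (nbk k s)), p'), ⟨by omega, by omega, g2.trans h3⟩,
      hgrow, g1, g2, ?_⟩
    intro ξ hξ1 hξ2 n hn1 hn2 P hP hPn
    exact g3 ξ hξ1 hξ2 n hn1 hn2 P hP hPn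
  choose! nxt hval hrel using hstep
  set s₀ : ℕ × ℕ := (Q₀f 1 + 2, 0) with hs₀
  set s : ℕ → ℕ × ℕ := fun k => Nat.rec (motive := fun _ => ℕ × ℕ) s₀ (fun k S => nxt k S) k with hs
  have hs0 : s 0 = s₀ := rfl
  have hsS : ∀ k, s (k + 1) = nxt k (s k) := fun k => rfl
  have hvalid : ∀ k, Valid (Q₀f 1) (s k) := by
    intro k
    induction k with
    | zero =>
      rw [hs0, hs₀]
      refine ⟨by simp, by simp, ?_⟩
      simp only [Nat.cast_zero, zero_div, zero_add]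
      apply inv_le_one_of_one_le₀
      apply one_le_pow₀
      have : 1 ≤ Q₀f 1 + 2 := by omega
      exact_mod_cast this
    | succ k ih =>
      rw [hsS]
      exact hval k (s k) ih
  have hR : ∀ k, Rel (nbk k (s k)) (s k) (s (k + 1)) := by
    intro k
    rw [hsS]
    exact hrel k (s k) (hvalid k)
  have hgrow : ∀ k, k ≤ (s k).1 := by
    intro k
    induction k with
    | zero => exact Nat.zero_le _
    | succ k ih =>
      have := (hR k).1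
      omega
  have hmonoQ : Monotone fun k => (s k).1 := monotone_nat_of_le_succ fun k => by
    have := (hR k).1
    omega
  have hmono : Monotone fun k => ((s k).2 : ℝ) / (s k).1 :=
    monotone_nat_of_le_succ fun k => (hR k).2.1
  have hanti : Antitone fun k => ((s k).2 : ℝ) / (s k).1 + (((s k).1 : ℝ) ^ 999)⁻¹ :=
    antitone_nat_of_succ_le fun k => (hR k).2.2.1
  have hle : (fun k => ((s k).2 : ℝ) / (s k).1) ≤
      fun k => ((s k).2 : ℝ) / (s k).1 + (((s k).1 : ℝ) ^ 999)⁻¹ := by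
    intro k
    have : (0 : ℝ) ≤ (((s k).1 : ℝ) ^ 999)⁻¹ := by positivity
    change ((s k).2 : ℝ) / (s k).1 ≤ ((s k).2 : ℝ) / (s k).1 + (((s k).1 : ℝ) ^ 999)⁻¹
    linarith
  have hmem := hmono.ciSup_mem_iInter_Icc_of_antitone hanti hle
  set ξ : ℝ := ⨆ k, ((s k).2 : ℝ) / (s k).1 with hξ
  have hξmem : ∀ k, ((s k).2 : ℝ) / (s k).1 ≤ ξ ∧
      ξ ≤ ((s k).2 : ℝ) / (s k).1 + (((s k).1 : ℝ) ^ 999)⁻¹ := by
    intro k
    have := Set.mem_iInter.mp hmem k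
    exact this
  set K : ℕ → ℕ := fun n => n + Q₀f n with hK
  have hnb : ∀ n, 1 ≤ n → ∀ k, K n ≤ k → n ≤ nbk k (s k) := by
    intro n hn k hk
    apply Nat.le_findGreatest
    · rw [hK] at hk; dsimp only at hk; omega
    · refine ⟨hn, ?_⟩
      have := hgrow k
      rw [hK] at hk; dsimp only at hk; omega
  refine ⟨ξ, fun n => ((s (K n)).1 ^ 1000) ^ 2, ?_, ?_, ?_, ?_, ?_⟩
  · have h1 := (hξmem 0).1
    have h2 : (0 : ℝ) ≤ ((s 0).2 : ℝ) / (s 0).1 := by positivity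
    linarith
  · exact (hξmem 0).2.trans (hvalid 0).2.2
  · intro n hn P hP hPn hB
    change ((s (K n)).1 ^ 1000) ^ 2 ≤ ht P at hB
    have hH1 : 1 ≤ ht P := one_le_ht hP.ne_zero
    have hE : EE n ≠ 0 := by unfold EE; omega
    have hex : ∃ j, K n ≤ j ∧ (ht P) ^ (EE n) < ((s j).1 ^ 1000) ^ 2 := by
      refine ⟨K n + (ht P) ^ (EE n) + 1, by omega, ?_⟩
      have h1 := hgrow (K n + (ht P) ^ (EE n) + 1)
      calc (ht P) ^ (EE n) < (s (K n + (ht P) ^ (EE n) + 1)).1 := by omega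
        _ ≤ (s (K n + (ht P) ^ (EE n) + 1)).1 ^ 1000 := Nat.le_self_pow (by norm_num) _
        _ ≤ ((s (K n + (ht P) ^ (EE n) + 1)).1 ^ 1000) ^ 2 := Nat.le_self_pow (by norm_num) _
    set j := Nat.find hex with hj
    obtain ⟨hj1, hj2⟩ := Nat.find_spec hex
    rw [← hj] at hj1 hj2
    have hjK : K n < j := by
      rcases Nat.eq_or_lt_of_le hj1 with heq | hlt
      · exfalso
        rw [← heq] at hj2
        have : ht P ≤ (ht P) ^ (EE n) := Nat.le_self_pow hE _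
        omega
      · exact hlt
    have hj3 : ((s (j - 1)).1 ^ 1000) ^ 2 ≤ (ht P) ^ (EE n) := by
      have := Nat.find_min hex (m := j - 1) (by omega)
      push Not at this
      exact this (by omega)
    have h1 : j - 1 + 1 = j := by omega
    have h2 := (hR (j - 1)).2.2.2 ξ (hξmem (j - 1 + 1)).1 (hξmem (j - 1 + 1)).2 n hn
      (hnb n hn (j - 1) (by omega)) P hP hPn
    rw [h1] at h2
    exact h2.1 hj3 hj2
  · intro P hP hPn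
    set k := K P.natDegree + ht P with hk
    have h2 := (hR k).2.2.2 ξ (hξmem (k + 1)).1 (hξmem (k + 1)).2 P.natDegree (by omega)
      (hnb P.natDegree (by omega) k (by omega)) P hP rfl
    apply h2.2
    have := hgrow k
    omega
  · intro m
    obtain ⟨v1, v2, v3⟩ := hvalid m
    refine ⟨(s m).1, (s m).2, hgrow m, v2, ?_, (hξmem m).1, (hξmem m).2⟩
    have h0 : (0 : ℝ) ≤ (((s m).1 : ℝ) ^ 999)⁻¹ := by positivity
    have h1 : ((s m).2 : ℝ) / (s m).1 ≤ 1 := by linarith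
    have h2 : (0 : ℝ) < (s m).1 := by
      have : 0 < (s m).1 := by omega
      exact_mod_cast this
    rw [div_le_one h2] at h1
    exact_mod_cast h1

end Pool.Agent.SNum
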