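import Mathlib
import Pool.Agent.SNum.Xi
import Pool.Agent.TNum.Mahler

set_option autoImplicit false

namespace Pool.Agent.SNum

open Polynomial Finset Pool.Agent.TNum

theorem lower_all {ξ : ℝ} (hne : ∀ P : ℤ[X], P ≠ 0 → aeval ξ P ≠ 0) {B : ℕ → ℕ}
    (hb : ∀ n : ℕ, 1 ≤ n → ∀ P : ℤ[X], Irreducible P → P.natDegree = n → B n ≤ ht P →
      (((ht P : ℝ)) ^ (EE n))⁻¹ ≤ |aeval ξ P|) (n : ℕ) :
    ∃ κ : ℝ, 0 < κ ∧ ∀ P : ℤ[X], P ≠ 0 → P.natDegree ≤ n →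
      κ * ((ht P : ℝ) ^ (EE n))⁻¹ ≤ |aeval ξ P| := by
  classical
  set A : ℕ := (Finset.range (n + 1)).sup B with hA
  obtain ⟨κ, hκ0, hκ1, hκ⟩ := exists_pos_lower (polys n A) ξ (fun P _ hP => hne P hP)
  apply all_of_irreducible ξ n (EE n) κ hκ0 hκ1
  intro P hP hPn0 hPn
  have hH1 : (1 : ℝ) ≤ ht P := by exact_mod_cast one_le_ht hP.ne_zero
  rcases Nat.lt_or_ge (ht P) (B P.natDegree) with hlt | hge
  · have hAle : B P.natDegree ≤ A := Finset.le_sup (f := B) (by simp; omega)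
    have h1 := hκ P (mem_polys hPn (hlt.le.trans hAle)) hP.ne_zero
    refine le_trans ?_ h1
    have h2 : ((ht P : ℝ) ^ (EE n))⁻¹ ≤ 1 := inv_le_one_of_one_le₀ (one_le_pow₀ hH1)
    nlinarith
  · have h1 := hb P.natDegree (by omega) P hP rfl hge
    refine le_trans ?_ h1
    have h2 : ((ht P : ℝ) ^ (EE n))⁻¹ ≤ ((ht P : ℝ) ^ (EE P.natDegree))⁻¹ := by
      apply inv_anti₀ (by positivity)
      apply pow_le_pow_right₀ hH1
      unfold EE; omega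
    have h3 : (0 : ℝ) ≤ ((ht P : ℝ) ^ (EE n))⁻¹ := by positivity
    nlinarith

theorem finite_of_lower {ξ : ℝ} (n E : ℕ) {κ : ℝ} (hκ : 0 < κ)
    (h : ∀ P : ℤ[X], P ≠ 0 → P.natDegree ≤ n → κ * ((ht P : ℝ) ^ E)⁻¹ ≤ |aeval ξ P|)
    (w : ℝ) (hw : (E : ℝ) < w) :
    Set.Finite {P : ℤ[X] | P ≠ 0 ∧ P.natDegree ≤ n ∧ |aeval ξ P| ≤ (ht P : ℝ) ^ (-w)} := by
  set ε : ℝ := w - (E : ℝ) with hε
  have hε0 : 0 < ε := by rw [hε]; linarith
  apply Set.Finite.subset (Finset.finite_toSet (polys n ⌈(κ⁻¹) ^ (ε⁻¹)⌉₊))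
  intro P hP
  obtain ⟨hP0, hPn, hPx⟩ := hP
  apply mem_polys hPn
  have h1 := h P hP0 hPn
  have hH1 : (1 : ℝ) ≤ ht P := by exact_mod_cast one_le_ht hP0
  obtain ⟨H, hH⟩ : ∃ H : ℝ, H = (ht P : ℝ) := ⟨_, rfl⟩
  rw [← hH] at h1 hPx hH1
  have hHpos : 0 < H := by linarith
  have h2 : κ * (H ^ E)⁻¹ ≤ H ^ (-w) := h1.trans hPx
  have h3 : H ^ ε ≤ κ⁻¹ := by
    have h4 : H ^ (-w) = (H ^ E)⁻¹ * (H ^ ε)⁻¹ := by
      rw [← Real.rpow_natCast H E, ← Real.rpow_neg hHpos.le, ← Real.rpow_neg hHpos.le,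
        ← Real.rpow_add hHpos]
      congr 1
      rw [hε]; ring
    rw [h4] at h2
    have h5 : (0 : ℝ) < (H ^ E)⁻¹ := by positivity
    have h6 : κ ≤ (H ^ ε)⁻¹ := by
      have : (H ^ E)⁻¹ * κ ≤ (H ^ E)⁻¹ * (H ^ ε)⁻¹ := by linarith
      exact le_of_mul_le_mul_left this h5
    have h7 : 0 < H ^ ε := by positivity
    rw [le_inv_comm₀ hκ h7] at h6
    exact h6
  have h8 : H ≤ (κ⁻¹) ^ (ε⁻¹) := by
    calc H = (H ^ ε) ^ (ε⁻¹) := by
          rw [← Real.rpow_mul hHpos.le, mul_inv_cancel₀ hε0.ne', Real.rpow_one]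
      _ ≤ (κ⁻¹) ^ (ε⁻¹) := Real.rpow_le_rpow (by positivity) h3 (by positivity)
  have h9 : (ht P : ℝ) ≤ (⌈(κ⁻¹) ^ (ε⁻¹)⌉₊ : ℝ) := by
    rw [← hH]
    exact h8.trans (Nat.le_ceil _)
  exact_mod_cast h9

/-- Dirichlet's pigeonhole -/
theorem dirichlet_poly {ξ : ℝ} (hξ0 : 0 ≤ ξ) (hξ1 : ξ ≤ 1) {n : ℕ} (hn : 1 ≤ n) {H : ℕ}
    (hH : 1 ≤ H) : ∃ P : ℤ[X], P ≠ 0 ∧ P.natDegree ≤ n ∧ ht P ≤ H ∧
      |aeval ξ P| ≤ ((n : ℝ) + 1) * ((H : ℝ) ^ n)⁻¹ := by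
  classical
  have hHR : (1 : ℝ) ≤ H := by exact_mod_cast hH
  set val : (Fin (n + 1) → ℕ) → ℝ := fun a => ∑ i, (a i : ℝ) * ξ ^ (i : ℕ) with hval
  set D : Finset (Fin (n + 1) → ℕ) := Fintype.piFinset fun _ => Finset.range (H + 1) with hD
  have hDcard : D.card = (H + 1) ^ (n + 1) := by
    rw [hD, Fintype.card_piFinset_const, Finset.card_range]
  set box : (Fin (n + 1) → ℕ) → ℕ := fun a => ⌊val a * (H : ℝ) ^ n / (n + 1)⌋₊ with hbox
  have hval0 : ∀ a, 0 ≤ val a := by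
    intro a; rw [hval]; positivity
  have hvalle : ∀ a ∈ D, val a ≤ (n + 1) * H := by
    intro a ha
    have ha' : ∀ i, a i ≤ H := by
      intro i
      have := Fintype.mem_piFinset.mp ha i
      simpa [Nat.lt_succ_iff] using this
    calc val a ≤ ∑ _i : Fin (n + 1), (H : ℝ) := by
          apply Finset.sum_le_sum
          intro i _
          have h1 : (a i : ℝ) ≤ H := by exact_mod_cast ha' i
          have h2 : ξ ^ (i : ℕ) ≤ 1 := pow_le_one₀ hξ0 hξ1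
          have h3 : 0 ≤ ξ ^ (i : ℕ) := by positivity
          calc (a i : ℝ) * ξ ^ (i : ℕ) ≤ H * 1 := by gcongr
            _ = H := mul_one _
      _ = (n + 1) * H := by simp
  have hmaps : ∀ a ∈ D, box a ∈ Finset.range (H ^ (n + 1) + 1) := by
    intro a ha
    rw [Finset.mem_range, Nat.lt_succ_iff]
    apply Nat.floor_le_of_le
    push_cast
    rw [div_le_iff₀ (by positivity)]
    calc val a * (H : ℝ) ^ n ≤ ((n + 1) * H) * (H : ℝ) ^ n := by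
          have := hvalle a ha
          gcongr
      _ = _ := by ring
  have hlt : (Finset.range (H ^ (n + 1) + 1)).card < D.card := by
    rw [hDcard, Finset.card_range]
    obtain ⟨m, rfl⟩ : ∃ m, n = m + 1 := ⟨n - 1, by omega⟩
    have h1 : H ^ (m + 1) + 1 ≤ (H + 1) ^ (m + 1) := by
      have := Nat.pow_lt_pow_left (Nat.lt_succ_self H) (Nat.succ_ne_zero m)
      simpa using this
    calc H ^ (m + 1 + 1) + 1 < (H ^ (m + 1) + 1) * (H + 1) := by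
          have h2 : 1 ≤ H ^ (m + 1) := Nat.one_le_pow _ _ hH
          rw [pow_succ]; nlinarith
      _ ≤ (H + 1) ^ (m + 1) * (H + 1) := Nat.mul_le_mul_right _ h1
      _ = (H + 1) ^ (m + 1 + 1) := (pow_succ _ _).symm
  obtain ⟨a, ha, b, hb, hab, heq⟩ := Finset.exists_ne_map_eq_of_card_lt_of_maps_to hlt hmaps
  set P : ℤ[X] := ∑ i : Fin (n + 1), C ((a i : ℤ) - b i) * X ^ (i : ℕ) with hP
  have hcoef : ∀ i : Fin (n + 1), P.coeff i = (a i : ℤ) - b i := by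
    intro i
    rw [hP, finsetSum_coeff, Finset.sum_eq_single i]
    · rw [coeff_C_mul, coeff_X_pow, if_pos rfl, mul_one]
    · intro j _ hj
      rw [coeff_C_mul, coeff_X_pow, if_neg (fun h => hj (Fin.ext h.symm)), mul_zero]
    · intro h; exact absurd (Finset.mem_univ i) h
  have hdeg : P.natDegree ≤ n := by
    rw [hP]
    apply natDegree_sum_le_of_forall_le
    intro i _
    refine (natDegree_C_mul_X_pow_le _ _).trans ?_
    have := i.2; omega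
  refine ⟨P, ?_, hdeg, ?_, ?_⟩
  · intro h0
    apply hab
    funext i
    have := hcoef i
    rw [h0, coeff_zero] at this
    omega
  · apply ht_le
    intro i
    by_cases hi : i < n + 1
    · have h1 := hcoef ⟨i, hi⟩
      have ha' := Fintype.mem_piFinset.mp ha ⟨i, hi⟩
      have hb' := Fintype.mem_piFinset.mp hb ⟨i, hi⟩
      simp only [Finset.mem_range] at ha' hb' h1
      rw [h1]
      omega
    · rw [coeff_eq_zero_of_natDegree_lt (by omega)]; simp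
  · have h1 : aeval ξ P = val a - val b := by
      rw [hP, hval, map_sum, ← Finset.sum_sub_distrib]
      apply Finset.sum_congr rfl
      intro i _
      simp
      ring
    have hHn : (0 : ℝ) < (H : ℝ) ^ n := by positivity
    have h2 : |val a * (H : ℝ) ^ n / (n + 1) - val b * (H : ℝ) ^ n / (n + 1)| ≤ 1 := by
      have f1 := Nat.floor_le (a := val a * (H : ℝ) ^ n / (n + 1)) (by
        have := hval0 a; positivity)
      have f2 := Nat.lt_floor_add_one (val a * (H : ℝ) ^ n / (n + 1))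
      have g1 := Nat.floor_le (a := val b * (H : ℝ) ^ n / (n + 1)) (by
        have := hval0 b; positivity)
      have g2 := Nat.lt_floor_add_one (val b * (H : ℝ) ^ n / (n + 1))
      have heq' : ⌊val a * (H : ℝ) ^ n / (n + 1)⌋₊ = ⌊val b * (H : ℝ) ^ n / (n + 1)⌋₊ := heq
      rw [heq'] at f1 f2
      rw [abs_le]
      constructor <;> linarith
    rw [h1]
    have h3 : val a * (H : ℝ) ^ n / (n + 1) - val b * (H : ℝ) ^ n / (n + 1) =
        (val a - val b) * ((H : ℝ) ^ n / (n + 1)) := by ring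
    rw [h3, abs_mul, abs_of_pos (by positivity : (0 : ℝ) < (H : ℝ) ^ n / (n + 1))] at h2
    rw [← div_eq_mul_inv, le_div_iff₀ hHn]
    rw [mul_div_assoc', div_le_one (by positivity)] at h2
    exact h2

/-- Dirichlet exponents -/
theorem infinite_dirichlet {ξ : ℝ} (hξ0 : 0 ≤ ξ) (hξ1 : ξ ≤ 1)
    (hne : ∀ P : ℤ[X], P ≠ 0 → aeval ξ P ≠ 0) {n : ℕ} (hn : 1 ≤ n) {w : ℝ} (hw0 : 0 ≤ w)
    (hw : w + 1 / 2 ≤ n) :
    {P : ℤ[X] | P ≠ 0 ∧ P.natDegree ≤ n ∧ 0 < |aeval ξ P| ∧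
      |aeval ξ P| ≤ ((ht P : ℕ) : ℝ) ^ (-w)}.Infinite := by
  intro hfin
  obtain ⟨κ, hκ0, _, hκ⟩ := exists_pos_lower hfin.toFinset ξ (fun P _ hP => hne P hP)
  -- choose H
  obtain ⟨H, hH⟩ := exists_nat_gt (((n : ℝ) + 1) ^ 2 + ((n : ℝ) + 1) / κ + 1)
  have hn1 : (1 : ℝ) ≤ n := by exact_mod_cast hn
  have hq : 0 ≤ ((n : ℝ) + 1) / κ := by positivity
  have hHR : (1 : ℝ) ≤ H := by nlinarith
  have hH1 : 1 ≤ H := by exact_mod_cast hHR
  have hHpos : (0 : ℝ) < H := by linarith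
  obtain ⟨P, hP0, hPn, hPH, hPx⟩ := dirichlet_poly hξ0 hξ1 hn hH1
  have hht1 : (1 : ℝ) ≤ ht P := by exact_mod_cast one_le_ht hP0
  have hhtH : (ht P : ℝ) ≤ H := by exact_mod_cast hPH
  have hmem : P ∈ hfin.toFinset := by
    rw [Set.Finite.mem_toFinset]
    refine ⟨hP0, hPn, abs_pos.mpr (hne P hP0), hPx.trans ?_⟩
    have h1 : (H : ℝ) ^ (-w) ≤ (ht P : ℝ) ^ (-w) := by
      rw [Real.rpow_neg hHpos.le, Real.rpow_neg (by linarith)]
      apply inv_anti₀ (by positivity)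
      exact Real.rpow_le_rpow (by linarith) hhtH hw0
    refine le_trans ?_ h1
    have h2 : (n : ℝ) + 1 ≤ (H : ℝ) ^ (1 / 2 : ℝ) := by
      rw [← Real.sqrt_eq_rpow]
      apply Real.le_sqrt_of_sq_le
      linarith
    calc ((n : ℝ) + 1) * ((H : ℝ) ^ n)⁻¹ ≤ (H : ℝ) ^ (1 / 2 : ℝ) * ((H : ℝ) ^ n)⁻¹ := by gcongr
      _ = (H : ℝ) ^ (1 / 2 - n : ℝ) := by
          rw [← Real.rpow_natCast, ← Real.rpow_neg hHpos.le, ← Real.rpow_add hHpos]; ring_nf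
      _ ≤ (H : ℝ) ^ (-w) := by
          apply Real.rpow_le_rpow_of_exponent_le hHR
          linarith
  have h3 := hκ P hmem hP0
  have h4 : ((n : ℝ) + 1) * ((H : ℝ) ^ n)⁻¹ < κ := by
    have h5 : (H : ℝ) ≤ (H : ℝ) ^ n := le_self_pow₀ hHR (by omega)
    rw [← div_eq_mul_inv, div_lt_iff₀ (by positivity)]
    have h6 : ((n : ℝ) + 1) / κ < H := by nlinarith
    rw [div_lt_iff₀ hκ0] at h6
    calc (n : ℝ) + 1 < H * κ := h6
      _ ≤ κ * (H : ℝ) ^ n := by rw [mul_comm]; gcongr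
  linarith

theorem infinite_rational {ξ : ℝ} (hne : ∀ P : ℤ[X], P ≠ 0 → aeval ξ P ≠ 0)
    (h : ∀ m : ℕ, ∃ Q p : ℕ, m ≤ Q ∧ 2 ≤ Q ∧ p ≤ Q ∧ (p : ℝ) / Q ≤ ξ ∧
      ξ ≤ (p : ℝ) / Q + ((Q : ℝ) ^ 999)⁻¹) :
    {P : ℤ[X] | P ≠ 0 ∧ P.natDegree ≤ 1 ∧ 0 < |aeval ξ P| ∧
      |aeval ξ P| ≤ ((ht P : ℕ) : ℝ) ^ (-(998 : ℝ))}.Infinite := by
  intro hfin
  obtain ⟨A, hA⟩ := (hfin.image ht).bddAbove
  obtain ⟨Q, p, h1, h2, h3, h4, h5⟩ := h (A + 1)
  set P : ℤ[X] := C (Q : ℤ) * X - C (p : ℤ) with hP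
  have hc1 : P.coeff 1 = Q := by rw [hP]; simp
  have hc0 : P.coeff 0 = -p := by rw [hP]; simp
  have hP0 : P ≠ 0 := by
    intro h0
    rw [h0, coeff_zero] at hc1
    have : (Q : ℤ) ≠ 0 := by exact_mod_cast (by omega : Q ≠ 0)
    exact this hc1.symm
  have hdeg : P.natDegree ≤ 1 := by
    rw [hP]
    refine (natDegree_sub_le _ _).trans (max_le ?_ ?_)
    · exact (natDegree_C_mul_le _ _).trans natDegree_X_le
    · simp
  have hht : ht P = Q := by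
    apply le_antisymm
    · apply ht_le
      intro i
      rcases Nat.lt_or_ge 1 i with hi | hi
      · rw [coeff_eq_zero_of_natDegree_lt (by omega)]; simp
      · rcases Nat.lt_or_ge i 1 with hi' | hi'
        · have : i = 0 := by omega
          rw [this, hc0]; simp; exact h3
        · have : i = 1 := by omega
          rw [this, hc1]; simp
    · have := natAbs_coeff_le_ht P 1
      rw [hc1] at this
      simpa using this
  have hQR : (2 : ℝ) ≤ Q := by exact_mod_cast h2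
  have hmem : P ∈ {P : ℤ[X] | P ≠ 0 ∧ P.natDegree ≤ 1 ∧ 0 < |aeval ξ P| ∧
      |aeval ξ P| ≤ ((ht P : ℕ) : ℝ) ^ (-(998 : ℝ))} := by
    refine ⟨hP0, hdeg, abs_pos.mpr (hne P hP0), ?_⟩
    rw [hht]
    have e1 : aeval ξ P = Q * ξ - p := by rw [hP]; simp
    have e2 : (Q : ℝ) ^ (-(998 : ℝ)) = ((Q : ℝ) ^ 998)⁻¹ := by
      rw [Real.rpow_neg (by linarith), show (998 : ℝ) = ((998 : ℕ) : ℝ) by norm_num,
        Real.rpow_natCast]
    have e3 : (Q : ℝ) * ξ - p = Q * (ξ - p / Q) := by field_simp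
    rw [e1, e2, e3, abs_of_nonneg (by
      have : 0 ≤ ξ - (p : ℝ) / Q := by linarith
      positivity)]
    have e4 : ξ - (p : ℝ) / Q ≤ ((Q : ℝ) ^ 999)⁻¹ := by linarith
    have e5 : ((Q : ℝ) ^ 999)⁻¹ = (Q : ℝ)⁻¹ * ((Q : ℝ) ^ 998)⁻¹ := by
      rw [← mul_inv, ← pow_succ']
    calc (Q : ℝ) * (ξ - p / Q) ≤ Q * ((Q : ℝ)⁻¹ * ((Q : ℝ) ^ 998)⁻¹) := by
          rw [← e5]; gcongr
      _ = ((Q : ℝ) ^ 998)⁻¹ := by
          rw [← mul_assoc, mul_inv_cancel₀ (by linarith), one_mul]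
  have := hA (Set.mem_image_of_mem ht hmem)
  omega

theorem main :
    ∃ ξ : ℝ, ∃ f : ℕ → ℝ,
      (∀ n : ℕ, 1 ≤ n →
        IsLUB {w : ℝ | {P : Polynomial ℤ | P ≠ 0 ∧ P.natDegree ≤ n ∧
            0 < |Polynomial.aeval ξ P| ∧
            |Polynomial.aeval ξ P| ≤ ((ht P : ℕ) : ℝ) ^ (-w)}.Infinite}
          (f n)) ∧
      (∃ C : ℝ, ∀ n : ℕ, 1 ≤ n → f n / (n : ℝ) ≤ C) ∧
      (∃ ε : ℝ, 0 < ε ∧ ∃ᶠ n : ℕ in Filter.atTop, ε ≤ f n / (n : ℝ)) ∧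
      (∃ m : ℕ, 1 ≤ m ∧ ∃ c : ℝ, c < (f m + 1) / ((m : ℝ) + 1) ∧
        ∀ᶠ n : ℕ in Filter.atTop, (f n + 1) / ((n : ℝ) + 1) ≤ c) := by
  obtain ⟨ξ, B, hξ0, hξ1, hB, hirr, hrat⟩ := exists_xi
  have hne : ∀ P : ℤ[X], P ≠ 0 → aeval ξ P ≠ 0 := by
    intro P hP h0
    obtain ⟨q, hq1, hq2, hq3⟩ := exists_irreducible_factor_root hP h0
    exact hirr q hq1 hq2 hq3
  set W : ℕ → Set ℝ := fun n => {w : ℝ | {P : Polynomial ℤ | P ≠ 0 ∧ P.natDegree ≤ n ∧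
            0 < |Polynomial.aeval ξ P| ∧
            |Polynomial.aeval ξ P| ≤ ((ht P : ℕ) : ℝ) ^ (-w)}.Infinite} with hW
  have hub : ∀ n, ((EE n : ℕ) : ℝ) ∈ upperBounds (W n) := by
    intro n w hw
    by_contra hcon
    push Not at hcon
    obtain ⟨κ, hκ, h⟩ := lower_all hne hB n
    apply hw
    apply (finite_of_lower n (EE n) hκ h w hcon).subset
    rintro P ⟨h1, h2, _, h4⟩
    exact ⟨h1, h2, h4⟩
  have hmem : ∀ n, 1 ≤ n → ((n : ℝ) - 1 / 2) ∈ W n := by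
    intro n hn
    have hn1 : (1 : ℝ) ≤ n := by exact_mod_cast hn
    exact infinite_dirichlet hξ0 hξ1 hne hn (by linarith) (by linarith)
  have hlub : ∀ n, 1 ≤ n → IsLUB (W n) (sSup (W n)) := fun n hn =>
    isLUB_csSup ⟨_, hmem n hn⟩ ⟨_, hub n⟩
  refine ⟨ξ, fun n => sSup (W n), hlub, ⟨40200, ?_⟩, ⟨1 / 2, by norm_num, ?_⟩, 1, le_rfl, 300, ?_, ?_⟩
  · intro n hn
    have hn1 : (1 : ℝ) ≤ n := by exact_mod_cast hn
    have h1 := (hlub n hn).2 (hub n)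
    rw [div_le_iff₀ (by linarith)]
    refine h1.trans ?_
    unfold EE
    push_cast
    linarith
  · apply Filter.Eventually.frequently
    filter_upwards [Filter.eventually_ge_atTop 1] with n hn
    have hn1 : (1 : ℝ) ≤ n := by exact_mod_cast hn
    have h1 := (hlub n hn).1 (hmem n hn)
    rw [le_div_iff₀ (by linarith)]
    linarith
  · have h1 : (998 : ℝ) ∈ W 1 := infinite_rational hne hrat
    have h2 := (hlub 1 le_rfl).1 h1
    rw [lt_div_iff₀ (by norm_num)]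
    push_cast
    linarith
  · filter_upwards [Filter.eventually_ge_atTop 398] with n hn
    have hn1 : (398 : ℝ) ≤ n := by exact_mod_cast hn
    have h1 := (hlub n (by omega)).2 (hub n)
    rw [div_le_iff₀ (by linarith)]
    have h2 : ((EE n : ℕ) : ℝ) = 200 * n + 40000 := by unfold EE; push_cast; ring
    rw [h2] at h1
    linarith

end Pool.Agent.SNum
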